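import Pool.Agent.SCG.Form

/-! [SCG-A1] The coded real is determined by the germ of `q` (lists only, no models). -/

set_option linter.unusedVariables false
set_option linter.unusedTactic false
set_option linter.unreachableTactic false

namespace Pool.Agent.SCG

open SetModel MP63050e Pool.Agent.SM

universe u

theorem a1_suffix_mem {q : Set (List Bool)} (hq : Perf q) {s t : List Bool} (h : s <:+ t)
    (ht : t ∈ q) : s ∈ q := by
  obtain ⟨l, rfl⟩ := h
  induction l with
  | nil => simpa using ht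
  | cons b l ih => exact ih (hq.tail b _ (by simpa using ht))

theorem a1_long {r : Set (List Bool)} (hr : Perf r) (N : ℕ) : ∃ s ∈ r, N < s.length := by
  induction N with
  | zero =>
    obtain ⟨t, -, ht⟩ := hr.split [] hr.root
    exact ⟨_, ht.1, by simp⟩
  | succ N ih =>
    obtain ⟨s, hs, hl⟩ := ih
    obtain ⟨t, hst, ht⟩ := hr.split s hs
    refine ⟨_, ht.1, ?_⟩
    have := hst.length_le
    simp only [List.length_cons]
    omega

theorem a1_dl_len {q : Set (List Bool)} (l s : List Bool) :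
    (DL q s).length ≤ (DL q (l ++ s)).length := by
  induction l with
  | nil => simp
  | cons b l ih =>
    rw [List.cons_append]
    simp only [DL]
    split_ifs
    · simp only [List.length_cons]; omega
    · exact ih

theorem a1_count {q r : Set (List Bool)} (hr : Perf r) (h : r ⊆ q) (n : ℕ) {s : List Bool}
    (hs : s ∈ r) : ∃ v, s <:+ v ∧ Splits r v ∧ (DL q s).length + n ≤ (DL q v).length := by
  induction n with
  | zero =>
    obtain ⟨t, hst, ht⟩ := hr.split s hs
    obtain ⟨l, rfl⟩ := hst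
    exact ⟨_, ⟨l, rfl⟩, ht, a1_dl_len l s⟩
  | succ n ih =>
    obtain ⟨v, hsv, hv, hl⟩ := ih
    obtain ⟨t, hst, ht⟩ := hr.split _ hv.1
    refine ⟨t, hsv.trans ((List.suffix_cons _ _).trans hst), ht, ?_⟩
    obtain ⟨l, rfl⟩ := hst
    have h1 := a1_dl_len (q := q) l (false :: v)
    have h2 : DL q (false :: v) = (v, false) :: DL q v := by
      simp only [DL]
      rw [if_pos ⟨h hv.1, h hv.2⟩]
    rw [h2, List.length_cons] at h1
    omega

theorem a1_common {q₁ q₂ : Set (List Bool)} {s : List Bool}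
    (hag : ∀ t, s <:+ t → (t ∈ q₁ ↔ t ∈ q₂)) (l : List Bool) :
    ∃ l', DL q₁ (l ++ s) = l' ++ DL q₁ s ∧ DL q₂ (l ++ s) = l' ++ DL q₂ s := by
  induction l with
  | nil => exact ⟨[], by simp, by simp⟩
  | cons b l ih =>
    obtain ⟨l', h1, h2⟩ := ih
    have hs : Splits q₁ (l ++ s) ↔ Splits q₂ (l ++ s) := by
      unfold Splits
      rw [hag (false :: (l ++ s)) ⟨false :: l, rfl⟩, hag (true :: (l ++ s)) ⟨true :: l, rfl⟩]
    rw [List.cons_append]
    by_cases hc : Splits q₁ (l ++ s)
    · refine ⟨(l ++ s, b) :: l', ?_, ?_⟩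
      · simp only [DL]
        rw [if_pos hc, h1]; rfl
      · simp only [DL]
        rw [if_pos (hs.1 hc), h2]; rfl
    · refine ⟨l', ?_, ?_⟩
      · simp only [DL]
        rw [if_neg hc, h1]
      · simp only [DL]
        rw [if_neg (fun h => hc (hs.2 h)), h2]

/-- If `q₁` and `q₂` have the same elements above all long nodes of the perfect set `r`, then the
directions at the `(n+1)`-st last splitting node of `q₁`, respectively `q₂`, of all long splitting
nodes of `r` agree. Proof: choose `s ∈ r` with `s.length > max k K`, go up through `n + 1` splitting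
nodes of `r` above `s` and then to a splitting node `v` of `r`. Every splitting node of `r` is one of
`q₁` and of `q₂`. For `u` with `s <:+ u`, `Splits q₁ u ↔ Splits q₂ u`. Write `v = l ++ s`; then
`DL q₁ v = l₁ ++ DL q₁ s`, `DL q₂ v = l₂ ++ DL q₂ s` with `l₁ = l₂` (induction on `l`), and
`l₁.length ≥ n + 1`. So the entries number `n` of `DL q₁ v` and `DL q₂ v` agree. -/
theorem dir_unique {q₁ q₂ r : Set (List Bool)} (hr : Perf r) (h₁ : r ⊆ q₁) (h₂ : r ⊆ q₂) {k : ℕ}
    (hag : ∀ s ∈ r, k < s.length → ∀ t, s <:+ t → (t ∈ q₁ ↔ t ∈ q₂)) {n K : ℕ} {b₁ b₂ : Bool}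
    (hb₁ : ∀ v ∈ r, K < v.length → Splits r v → Dir q₁ v n b₁)
    (hb₂ : ∀ v ∈ r, K < v.length → Splits r v → Dir q₂ v n b₂) : b₁ = b₂ := by
  obtain ⟨s, hs, hl⟩ := a1_long hr (max k K)
  have hk : k < s.length := lt_of_le_of_lt (le_max_left _ _) hl
  have hK : K < s.length := lt_of_le_of_lt (le_max_right _ _) hl
  obtain ⟨v, hsv, hv, hlen⟩ := a1_count hr h₁ (n + 1) hs
  have hvr : v ∈ r := hr.tail _ _ hv.1
  have hKv : K < v.length := lt_of_lt_of_le hK hsv.length_le
  obtain ⟨u₁, e₁⟩ := hb₁ v hvr hKv hv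
  obtain ⟨u₂, e₂⟩ := hb₂ v hvr hKv hv
  obtain ⟨l, rfl⟩ := hsv
  obtain ⟨l', c₁, c₂⟩ := a1_common (hag s hs hk) l
  rw [c₁, List.length_append] at hlen
  have hn : n < l'.length := by omega
  rw [c₁, List.getElem?_append_left hn] at e₁
  rw [c₂, List.getElem?_append_left hn] at e₂
  rw [e₁] at e₂
  simpa using congrArg (Option.map Prod.snd) e₂

end Pool.Agent.SCG
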