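import Pool.Agent.SCG.Form

/-! [SCG-A2] Admissible next splitting nodes exist (lists only, no models). -/

set_option linter.unusedVariables false
set_option linter.unusedTactic false
set_option linter.unreachableTactic false

namespace Pool.Agent.SCG

open SetModel MP63050e Pool.Agent.SM

universe u

theorem a2_first_aux {q : Set (List Bool)} {s : List Bool} (l : List Bool) :
    (∃ v, Splits q v ∧ s <:+ v ∧ DL q v = DL q s) ∨ DL q (l ++ s) = DL q s := by
  induction l with
  | nil => exact Or.inr rfl
  | cons b l ih =>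
    rcases ih with ih | ih
    · exact Or.inl ih
    · by_cases hc : Splits q (l ++ s)
      · exact Or.inl ⟨l ++ s, hc, ⟨l, rfl⟩, ih⟩
      · right
        rw [List.cons_append]
        simp only [DL]
        rw [if_neg hc, ih]

theorem a2_first {q : Set (List Bool)} (hq : Perf q) {s : List Bool} (hs : s ∈ q) :
    ∃ v, Splits q v ∧ s <:+ v ∧ DL q v = DL q s := by
  obtain ⟨t, ⟨l, rfl⟩, ht⟩ := hq.split s hs
  rcases a2_first_aux (q := q) (s := s) l with h | h
  · exact h
  · exact ⟨_, ht, ⟨l, rfl⟩, h⟩

theorem a2_climb {q : Set (List Bool)} (hq : Perf q) {s : List Bool} (hs : s ∈ q) (m : ℕ) :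
    ∀ c : ℕ → Bool, ∃ v l, Splits q v ∧ s <:+ v ∧ DL q v = l ++ DL q s ∧ l.length = m ∧
      ∀ i < m, ∃ u, l[i]? = some (u, c i) := by
  induction m with
  | zero =>
    intro c
    obtain ⟨v, hv, hsv, he⟩ := a2_first hq hs
    exact ⟨v, [], hv, hsv, by simpa using he, rfl, fun i hi => absurd hi (Nat.not_lt_zero i)⟩
  | succ m ih =>
    intro c
    obtain ⟨v, l, hv, hsv, he, hl, hi⟩ := ih (fun i => c (i + 1))
    have hmem : c 0 :: v ∈ q := by
      cases c 0
      · exact hv.1
      · exact hv.2
    obtain ⟨w, hw, hvw, hew⟩ := a2_first hq hmem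
    refine ⟨w, (v, c 0) :: l, hw, hsv.trans ((List.suffix_cons _ _).trans hvw), ?_, ?_, ?_⟩
    · rw [hew]
      simp only [DL]
      rw [if_pos hv, he]; rfl
    · simp [hl]
    · intro i hm
      cases i with
      | zero => exact ⟨v, by simp⟩
      | succ i =>
        obtain ⟨u, hu⟩ := hi i (by omega)
        exact ⟨u, by simpa using hu⟩

theorem a2_suffix {T : Set (List Bool)} (hT : ∀ b s, b :: s ∈ T → s ∈ T) {s t : List Bool}
    (h : s <:+ t) (ht : t ∈ T) : s ∈ T := by
  obtain ⟨l, rfl⟩ := h
  induction l with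
  | nil => simpa using ht
  | cons b l ih => exact ih (hT b _ (by simpa using ht))

/-- There is an admissible next splitting node above every `s ∈ q`. Proof: first get `s'` with
`s <:+ s' ∈ q` and `Sett q T s'` (take `s' = s` if `∀ t ∈ q, s <:+ t → t ∈ T`, else some `s' ∈ q`
above `s` which is not in `T`); `Sett` is inherited by all `t ∈ q` above `s'` since `T` is closed under
suffixes. Then go up through `n + 1` consecutive splitting nodes `u_n, …, u_0` of `q` above `s'`
(each the first splitting node of `q` above its predecessor: take a splitting node above it of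
least length), taking the direction `c i` at `u_i` for `i = n, …, 0`, and then to the first splitting
node `v`. Suggested lemma, by induction on `m`: for all `s ∈ q` and `m ≤ n + 1` there is `v` with
`Splits q v`, `s <:+ v` and `Dir q v i (c i)` for all `i < m` (induct on `m` generalizing `c` and `s`:
from `s` go to the first splitting node `u`, take the direction `c m`, and apply the induction
hypothesis to `c m :: u`; the splitting nodes of `q` below `v` and at or above `u` come first in
`DL q v`. It may be easier to prove that `DL q v = l ++ (u, c m) :: DL q u` with `l.length = m`.) -/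
theorem exists_nxt {q T : Set (List Bool)} (hq : Perf q) (hT : ∀ b s, b :: s ∈ T → s ∈ T)
    (c : ℕ → Bool) (n : ℕ) {s : List Bool} (hs : s ∈ q) :
    ∃ v, Splits q v ∧ s <:+ v ∧ Sett q T v ∧ ∀ i ≤ n, Dir q v i (c i) := by
  have h1 : ∃ s', s' ∈ q ∧ s <:+ s' ∧ ∀ t ∈ q, s' <:+ t → Sett q T t := by
    by_cases h : ∀ t ∈ q, s <:+ t → t ∈ T
    · exact ⟨s, hs, List.suffix_rfl, fun t ht hst => Or.inr fun t' ht' htt' =>
        h t' ht' (hst.trans htt')⟩
    · push Not at h
      obtain ⟨t, ht, hst, hn⟩ := h
      exact ⟨t, ht, hst, fun t' ht' htt' => Or.inl fun hm => hn (a2_suffix hT htt' hm)⟩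
  obtain ⟨s', hs', hss', hset⟩ := h1
  obtain ⟨v, l, hv, hsv, he, hl, hi⟩ := a2_climb hq hs' (n + 1) c
  refine ⟨v, hv, hss'.trans hsv, hset v (hq.tail _ _ hv.1) hsv, ?_⟩
  intro i hin
  obtain ⟨u, hu⟩ := hi i (by omega)
  refine ⟨u, ?_⟩
  rw [he, List.getElem?_append_left (by omega)]
  exact hu

end Pool.Agent.SCG
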