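import Pool.Agent.SCG.Form

/-! [SCG-A3] The fusion (lists only, no models). -/

set_option linter.unusedVariables false
set_option linter.unusedTactic false
set_option linter.unreachableTactic false

namespace Pool.Agent.SCG

open SetModel MP63050e Pool.Agent.SM

universe u

section

private theorem a3_head {a a' : Bool} {s t : List Bool} (h : a :: s <:+ t) (h' : a' :: s <:+ t) :
    a = a' := by
  have h1 : a :: s <:+ a' :: s := List.suffix_of_suffix_length_le h h' (by simp)
  have h2 := h1.eq_of_length (by simp)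
  exact (List.cons.inj h2).1

private theorem a3_cases (σ τ : List Bool) : σ <:+ τ ∨ τ <:+ σ ∨
    ∃ ρ b, (b :: ρ <:+ σ) ∧ ((!b) :: ρ <:+ τ) := by
  induction σ with
  | nil => exact Or.inl (List.nil_suffix)
  | cons b σ ih =>
    rcases ih with h | h | ⟨ρ, b', h1, h2⟩
    · obtain ⟨l, rfl⟩ := h
      rcases List.eq_nil_or_concat l with rfl | ⟨l', c, rfl⟩
      · right; left
        exact List.suffix_cons b σ
      · by_cases hc : c = b
        · left
          refine ⟨l', ?_⟩
          rw [hc, List.concat_append]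
        · right; right
          refine ⟨σ, b, List.suffix_refl _, l', ?_⟩
          have : c = !b := by
            cases c <;> cases b <;> simp_all
          rw [this, List.concat_append]
    · right; left
      exact h.trans (List.suffix_cons b σ)
    · right; right
      exact ⟨ρ, b', h1.trans (List.suffix_cons b σ), h2⟩

private theorem a3_down {q : Set (List Bool)} (hq : Perf q) {s t : List Bool} (h : s <:+ t)
    (ht : t ∈ q) : s ∈ q := by
  obtain ⟨l, rfl⟩ := h
  induction l with
  | nil => exact ht
  | cons b l ih => exact ih (hq.tail b _ ht)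

end

section

variable {q : Set (List Bool)} {T : ℕ → Set (List Bool)} {c : ℕ → Bool}
  {fr : List Bool → List Bool} (hq : Perf q) (hs : ∀ σ, Splits q (fr σ))
  (hfr : ∀ b σ, Nxt q T c σ.length (b :: fr σ) (fr (b :: σ)))
include hq hs hfr

/-- `fr` is monotone. -/
theorem fr_mono {σ τ : List Bool} (h : σ <:+ τ) : fr σ <:+ fr τ := by
  have key : ∀ τ : List Bool, ∀ σ : List Bool, σ <:+ τ → fr σ <:+ fr τ := by
    intro τ
    induction τ with
    | nil =>
      intro σ h
      rw [List.suffix_nil.1 h]
    | cons b τ ih =>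
      intro σ h
      rcases List.suffix_cons_iff.1 h with rfl | h
      · exact List.suffix_refl _
      · exact ((ih σ h).trans (List.suffix_cons b _)).trans (hfr b τ).2.1
  exact key τ σ h

/-- The set of the initial segments of the nodes `fr σ` is perfect. -/
theorem perf_fusion : Perf {s | ∃ σ, s <:+ fr σ} := by
  refine ⟨⟨[], List.nil_suffix⟩, ?_, ?_⟩
  · rintro b s ⟨σ, hσ⟩
    exact ⟨σ, (List.suffix_cons b s).trans hσ⟩
  · rintro s ⟨σ, hσ⟩
    exact ⟨fr σ, hσ, ⟨false :: σ, (hfr false σ).2.1⟩, ⟨true :: σ, (hfr true σ).2.1⟩⟩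

/-- It is a subset of `q`. -/
theorem fusion_subset : {s | ∃ σ, s <:+ fr σ} ⊆ q := by
  rintro s ⟨σ, hσ⟩
  exact a3_down hq hσ (hq.tail _ _ (hs σ).1)

/-- Its splitting nodes are the nodes `fr σ`: if `false :: s <:+ fr σ` and `true :: s <:+ fr τ`, then
`σ` and `τ` are not suffixes of each other (else `fr_mono`); let `ρ` be their longest common suffix;
then `b :: fr ρ <:+ fr σ` and `b' :: fr ρ <:+ fr τ` with `b ≠ b'`, so `s = fr ρ`. -/
theorem splits_fusion {s : List Bool} (h : Splits {s | ∃ σ, s <:+ fr σ} s) : ∃ σ, s = fr σ := by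
  obtain ⟨⟨σ, hσ⟩, ⟨τ, hτ⟩⟩ := h
  rcases a3_cases σ τ with h | h | ⟨ρ, b, h1, h2⟩
  · exact absurd (a3_head (hσ.trans (fr_mono hq hs hfr h)) hτ) (by decide)
  · exact absurd (a3_head hσ (hτ.trans (fr_mono hq hs hfr h))) (by decide)
  · have e1 : b :: fr ρ <:+ fr σ := (hfr b ρ).2.1.trans (fr_mono hq hs hfr h1)
    have e2 : (!b) :: fr ρ <:+ fr τ := (hfr (!b) ρ).2.1.trans (fr_mono hq hs hfr h2)
    have e3 : s <:+ fr σ := (List.suffix_cons _ _).trans hσ
    have e4 : s <:+ fr τ := (List.suffix_cons _ _).trans hτ
    have e5 : fr ρ <:+ fr σ := (List.suffix_cons _ _).trans e1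
    have e6 : fr ρ <:+ fr τ := (List.suffix_cons _ _).trans e2
    rcases lt_trichotomy s.length (fr ρ).length with hl | hl | hl
    · exfalso
      have f1 : false :: s <:+ fr ρ := List.suffix_of_suffix_length_le hσ e5 (by
        rw [List.length_cons]; omega)
      have f2 : true :: s <:+ fr ρ := List.suffix_of_suffix_length_le hτ e6 (by
        rw [List.length_cons]; omega)
      exact absurd (a3_head f1 f2) (by decide)
    · refine ⟨ρ, ?_⟩
      exact (List.suffix_of_suffix_length_le e3 e5 hl.le).eq_of_length hl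
    · exfalso
      have f1 : b :: fr ρ <:+ s := List.suffix_of_suffix_length_le e1 e3 (by
        rw [List.length_cons]; omega)
      have f2 : (!b) :: fr ρ <:+ s := List.suffix_of_suffix_length_le e2 e4 (by
        rw [List.length_cons]; omega)
      have := a3_head f1 f2
      cases b <;> simp at this

end

end Pool.Agent.SCG
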