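import Pool.Agent.SCG.A3

/-! [SCG-A4] The two properties of the fusion (lists only, no models). -/

set_option linter.unusedVariables false
set_option linter.unusedTactic false
set_option linter.unreachableTactic false

namespace Pool.Agent.SCG

open SetModel MP63050e Pool.Agent.SM

universe u

theorem a4_bound (fr : List Bool → List Bool) (n : ℕ) :
    ∃ K, ∀ σ : List Bool, σ.length ≤ n → (fr σ).length ≤ K := by
  obtain ⟨K, hK⟩ := ((List.finite_length_le Bool n).image (fun σ => (fr σ).length)).bddAbove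
  exact ⟨K, fun σ hσ => hK ⟨σ, hσ, rfl⟩⟩

theorem a4_suffix {A : Set (List Bool)} (hA : ∀ b s, b :: s ∈ A → s ∈ A) {s t : List Bool}
    (h : s <:+ t) (ht : t ∈ A) : s ∈ A := by
  obtain ⟨l, rfl⟩ := h
  induction l with
  | nil => simpa using ht
  | cons a l ih => exact ih (hA a _ ht)

section

variable {q : Set (List Bool)} {T : ℕ → Set (List Bool)} {c : ℕ → Bool}
  {fr : List Bool → List Bool} (hq : Perf q) (hs : ∀ σ, Splits q (fr σ))
  (hfr : ∀ b σ, Nxt q T c σ.length (b :: fr σ) (fr (b :: σ)))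
include hq hs hfr

/-- (i) Take for `K` the maximum of the lengths of the `fr σ` with `σ.length ≤ n + 1`
(`List.finite_length_le`). If `s <:+ fr σ`, wlog `n + 1 ≤ σ.length` (extend `σ`, `fr_mono`); let `ρ` be
the suffix of `σ` of length `n + 1`; then `fr ρ <:+ s` as both are suffixes of `fr σ`; `T n` is settled
at `fr ρ` and hence at `s` (`T n` is closed under suffixes). -/
theorem settle_fusion (hT : ∀ n b s, b :: s ∈ T n → s ∈ T n) (n : ℕ) :
    ∃ K, ∀ s ∈ {s | ∃ σ, s <:+ fr σ}, K < s.length → Sett q (T n) s := by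
  obtain ⟨K, hK⟩ := a4_bound fr (n + 1)
  refine ⟨K, ?_⟩
  rintro s ⟨τ, hτ⟩ hKs
  have hlen : n + 1 < τ.length := by
    by_contra hcon
    have h1 := hK τ (by omega)
    have h2 := hτ.length_le
    omega
  obtain ⟨ρ, hρ, hρl⟩ : ∃ ρ : List Bool, ρ <:+ τ ∧ ρ.length = n + 1 :=
    ⟨τ.drop (τ.length - (n + 1)), List.drop_suffix _ _, by rw [List.length_drop]; omega⟩
  have h1 : fr ρ <:+ fr τ := fr_mono hq hs hfr hρ
  have h2 : fr ρ <:+ s := List.suffix_of_suffix_length_le h1 hτ (by
    have := hK ρ (by omega)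
    omega)
  have h3 : Sett q (T n) (fr ρ) := by
    cases ρ with
    | nil => simp at hρl
    | cons b ρ' =>
      have h4 : ρ'.length = n := by simpa using hρl
      have h5 := (hfr b ρ').2.2.1
      rw [h4] at h5
      exact h5
  rcases h3 with h3 | h3
  · left
    intro h4
    exact h3 (a4_suffix (hT n) h2 h4)
  · right
    intro t ht hst
    exact h3 t ht (h2.trans hst)

/-- (ii) If `v = fr σ` is longer than all `fr ρ` with `ρ.length ≤ n`, then `σ = b :: ρ` with
`n ≤ ρ.length`; use `hfr`. -/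
theorem code_fusion (n : ℕ) :
    ∃ K, ∀ v, K < v.length → Splits {s | ∃ σ, s <:+ fr σ} v → Dir q v n (c n) := by
  obtain ⟨K, hK⟩ := a4_bound fr n
  refine ⟨K, ?_⟩
  intro v hv hsp
  obtain ⟨σ, rfl⟩ := splits_fusion hq hs hfr hsp
  have hlen : n < σ.length := by
    by_contra hcon
    have h1 := hK σ (by omega)
    omega
  cases σ with
  | nil => simp at hlen
  | cons b ρ =>
    have h1 : n ≤ ρ.length := by
      simp only [List.length_cons] at hlen
      omega
    exact (hfr b ρ).2.2.2 n h1

end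

end Pool.Agent.SCG
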