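import Pool.Agent.SCG.A2

/-! [SCG-A5] The fusion function (lists only, no models). -/

set_option linter.unusedVariables false
set_option linter.unusedTactic false
set_option linter.unreachableTactic false

namespace Pool.Agent.SCG

open SetModel MP63050e Pool.Agent.SM

universe u

theorem a5_step {q : Set (List Bool)} {T : ℕ → Set (List Bool)} (hq : Perf q)
    (hT : ∀ n b s, b :: s ∈ T n → s ∈ T n) (c : ℕ → Bool) (bc : List Bool → ℕ) (n : ℕ)
    {s : List Bool} (hs : s ∈ q) : ∃ v, NxtL q T c bc n s v := by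
  obtain ⟨v, h1, h2, h3, h4⟩ := exists_nxt hq (hT n) c n hs
  have hne : {v | Nxt q T c n s v}.Nonempty := ⟨v, h1, h2, h3, h4⟩
  obtain ⟨m, hm, hmin⟩ := (measure bc).wf.has_min _ hne
  exact ⟨m, hm, fun v' hv' => not_lt.1 (hmin v' hv')⟩

/-- The fusion function. Recursion on the list; at `b :: σ` choose among the nodes `v` with
`Nxt q T c σ.length (b :: fr σ) v` one with least `bc v`. (Carry along `Splits q (fr σ)`, which gives
`b :: fr σ ∈ q`.) -/
theorem exists_fusion {q : Set (List Bool)} {T : ℕ → Set (List Bool)} (hq : Perf q)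
    (hT : ∀ n b s, b :: s ∈ T n → s ∈ T n) (c : ℕ → Bool) (bc : List Bool → ℕ) :
    ∃ fr : List Bool → List Bool, (∀ σ, Splits q (fr σ)) ∧
      ∀ b σ, NxtL q T c bc σ.length (b :: fr σ) (fr (b :: σ)) := by
  obtain ⟨v0, -, hv0⟩ := hq.split [] hq.root
  have hstep : ∀ (n : ℕ) (b : Bool) (v : {v // Splits q v}),
      ∃ v' : {v // Splits q v}, NxtL q T c bc n (b :: v.1) v'.1 := by
    intro n b v
    have hb : (b :: v.1) ∈ q := by
      cases b
      · exact v.2.1
      · exact v.2.2
    obtain ⟨v', hv'⟩ := a5_step hq hT c bc n hb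
    exact ⟨⟨v', hv'.1.1⟩, hv'⟩
  choose F hF using hstep
  let G : List Bool → {v // Splits q v} := fun σ =>
    List.rec (motive := fun _ => {v // Splits q v}) ⟨v0, hv0⟩ (fun b σ v => F σ.length b v) σ
  exact ⟨fun σ => (G σ).1, fun σ => (G σ).2, fun b σ => hF σ.length b (G σ)⟩

end Pool.Agent.SCG
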