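import Pool.Agent.SCG.R1

/-! [SCG-P1] A pairing function in `M`. -/

set_option linter.unusedVariables false
set_option linter.unusedTactic false
set_option linter.unreachableTactic false

namespace Pool.Agent.SCG

open SetModel MP63050e Pool.Agent.SM

universe u

variable {M : Type u} {E : M → M → Prop}

/-- The diagonal walk through `ℕ × ℕ`: `(0,0), (1,0), (0,1), (2,0), (1,1), (0,2), …`. -/
def walk : ℕ → ℕ × ℕ
  | 0 => (0, 0)
  | n + 1 => if (walk n).1 = 0 then ((walk n).2 + 1, 0) else ((walk n).1 - 1, (walk n).2 + 1)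

/-- The position of `(i, j)` in the walk. -/
def pos (i j : ℕ) : ℕ := (i + j) * (i + j + 1) / 2 + j

theorem p1_tri (s : ℕ) : (s + 1) * (s + 1 + 1) / 2 = s * (s + 1) / 2 + (s + 1) := by
  have h : (s + 1) * (s + 1 + 1) = s * (s + 1) + (s + 1) * 2 := by ring
  rw [h, Nat.add_mul_div_right _ _ (by norm_num)]

theorem p1_tri_mono {s t : ℕ} (h : s ≤ t) : s * (s + 1) / 2 ≤ t * (t + 1) / 2 :=
  Nat.div_le_div_right (Nat.mul_le_mul h (by omega))

theorem p1_pos_walk (n : ℕ) : pos (walk n).1 (walk n).2 = n := by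
  induction n with
  | zero => rfl
  | succ n ih =>
    rcases hw : walk n with ⟨i, j⟩
    rw [hw] at ih
    simp only [pos] at ih
    simp only [walk, hw]
    rcases i with _ | i
    · simp only [if_true, pos]
      rw [Nat.zero_add] at ih
      rw [Nat.add_zero, Nat.add_zero, p1_tri]
      omega
    · rw [if_neg (Nat.succ_ne_zero i)]
      simp only [pos, Nat.add_sub_cancel]
      have h1 : i + (j + 1) = i + 1 + j := by omega
      rw [h1]
      omega

theorem p1_pos_inj {i j i' j' : ℕ} (h : pos i j = pos i' j') : i = i' ∧ j = j' := by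
  unfold pos at h
  have key : ∀ {s t a b : ℕ}, a ≤ s → s < t → s * (s + 1) / 2 + a = t * (t + 1) / 2 + b → False := by
    intro s t a b ha hst he
    have h1 := p1_tri_mono (s := s + 1) (t := t) hst
    rw [p1_tri] at h1
    omega
  rcases lt_trichotomy (i + j) (i' + j') with h1 | h1 | h1
  · exact (key (by omega) h1 h).elim
  · rw [h1] at h
    omega
  · exact (key (by omega) h1 h.symm).elim

/-- The walk reaches `(i, j)` at time `pos i j`, and `pos` is a left inverse of the walk.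
(For instance first prove `pos (walk n).1 (walk n).2 = n` by induction, then injectivity of `pos`.) -/
theorem walk_iff (n i j : ℕ) : walk n = (i, j) ↔ n = pos i j := by
  constructor
  · intro h
    have := p1_pos_walk n
    rw [h] at this
    exact this.symm
  · rintro h
    have h1 := p1_pos_walk n
    rw [h] at h1
    obtain ⟨h2, h3⟩ := p1_pos_inj h1
    rw [h]
    exact Prod.ext h2 h3

/-- one step of the walk, in the model -/
def p1R (E : M → M → Prop) (x y z : M) : Prop :=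
  ∃ i j i' j', IsPair E y i j ∧ IsPair E z i' j' ∧ ((IsEmp E i ∧ IsSucc E i' j ∧ IsEmp E j') ∨
    (IsSucc E i i' ∧ IsSucc E j' j))

theorem p1_dfnR : Dfn3 E (p1R E) := by
  unfold Dfn3 p1R
  repeat' first
    | apply Dfn.comp1 dfn_isEmp | apply Dfn.comp2 dfn_isSucc | apply Dfn.comp3 dfn_isPair
    | assumption | exact CMap.id | apply CMap.fst | apply CMap.snd | exact CMap.const _
    | apply Dfn.mem | apply Dfn.eq | apply Dfn.not | apply Dfn.and | apply Dfn.or
    | apply Dfn.iff | apply Dfn.imp | refine Dfn.ex ?_ | refine Dfn.all ?_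
    | refine Dfn.exu ?_ | exact Dfn.const _

theorem p1_step (hM : IsModelZF E) (n : ℕ) (z : M) :
    p1R E (nu hM n) (pr E (nu hM (walk n).1) (nu hM (walk n).2)) z ↔
      z = pr E (nu hM (walk (n + 1)).1) (nu hM (walk (n + 1)).2) := by
  unfold p1R
  rcases hw : walk n with ⟨i, j⟩
  simp only [walk, hw]
  constructor
  · rintro ⟨a, b, a', b', h1, h2, h3⟩
    rw [isPair_iff hM] at h1 h2
    obtain ⟨rfl, rfl⟩ := (pr_inj hM).1 h1
    subst h2
    rcases h3 with ⟨h4, h5, h6⟩ | ⟨h4, h5⟩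
    · rw [isEmp_iff hM] at h4 h6
      have h7 : i = 0 := (nu_inj hM (m := i) (n := 0)).1 h4
      rw [succ_nu hM] at h5
      rw [if_pos h7, h5, h6]
      rfl
    · rw [isSucc_nu hM] at h4
      obtain ⟨m, rfl, rfl⟩ := h4
      rw [succ_nu hM] at h5
      rw [if_neg (Nat.succ_ne_zero m), h5]
      rfl
  · rintro rfl
    rcases i with _ | i
    · refine ⟨nu hM 0, nu hM j, nu hM (j + 1), nu hM 0, pr_spec hM _ _, ?_, Or.inl ⟨?_, ?_, ?_⟩⟩
      · rw [isPair_iff hM, if_pos rfl]
      · exact (isEmp_iff hM).2 rfl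
      · exact (succ_nu hM).2 rfl
      · exact (isEmp_iff hM).2 rfl
    · refine ⟨nu hM (i + 1), nu hM j, nu hM i, nu hM (j + 1), pr_spec hM _ _, ?_, Or.inr ⟨?_, ?_⟩⟩
      · rw [isPair_iff hM, if_neg (Nat.succ_ne_zero i)]
        rfl
      · exact (isSucc_nu hM).2 ⟨i, rfl, rfl⟩
      · exact (succ_nu hM).2 rfl

/-- `M` contains a pairing function of the numerals. Apply `exists_recNum` to
`h n = pr E (nu (walk n).1) (nu (walk n).2)`, `Y = ω × ω` and
`R x y z := ∃ i j i' j', IsPair E y i j ∧ IsPair E z i' j' ∧ ((IsEmp E i ∧ IsSucc E i' j ∧ IsEmp E j') ∨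
(IsSucc E i i' ∧ IsSucc E j' j))`; then turn the set of the pairs `(n, (i, j))` into the set of the
triples `(i, (j, n))` (`exists_prod` twice and `sep`). -/
theorem exists_pairing (hM : IsModelZF E) {w : M} (hw : IsOmega E w)
    (hst : ∀ x, E x w → ∃ n, IsNum E n x) :
    ∃ (P : M) (p : ℕ → ℕ → ℕ), (∀ i j i' j', p i j = p i' j' → i = i' ∧ j = j') ∧
      ∀ x y z, Has E P [x, y, z] ↔ ∃ i j, x = nu hM i ∧ y = nu hM j ∧ z = nu hM (p i j) := by
  have hnw : ∀ n, E (nu hM n) w := fun n => (mem_w hM hw hst).2 ⟨n, rfl⟩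
  obtain ⟨D1, hD1⟩ := exists_prod hM w w
  obtain ⟨D2, hD2⟩ := exists_prod hM w D1
  obtain ⟨H, hH⟩ := exists_recNum hM hw hst
    (h := fun n => pr E (nu hM (walk n).1) (nu hM (walk n).2)) (Y := D1)
    (fun n => (hD1 _).2 ⟨_, _, hnw _, hnw _, rfl⟩) p1_dfnR (p1_step hM)
  obtain ⟨P, hP⟩ := sep hM
    (D := fun t => ∃ x y z, IsTuple E t [x, y, z] ∧ ∃ u, IsPair E u x y ∧ Has E H [z, u])
    (by
      unfold Dfn1
      repeat' first
        | apply Dfn.comp3 dfn_isPair | apply Dfn.comp4 dfn_isTuple3 | apply Dfn.comp3 dfn_has2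
        | assumption | exact CMap.id | apply CMap.fst | apply CMap.snd | exact CMap.const _
        | apply Dfn.mem | apply Dfn.eq | apply Dfn.not | apply Dfn.and | apply Dfn.or
        | apply Dfn.iff | apply Dfn.imp | refine Dfn.ex ?_ | refine Dfn.all ?_
        | refine Dfn.exu ?_ | exact Dfn.const _) D2
  refine ⟨P, pos, fun i j i' j' h => p1_pos_inj h, ?_⟩
  intro x y z
  rw [has3_iff hM, hP]
  constructor
  · rintro ⟨-, x', y', z', h1, u, h2, h3⟩
    rw [isTuple3_iff hM, pr_inj hM, pr_inj hM] at h1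
    obtain ⟨rfl, rfl, rfl⟩ := h1
    rw [isPair_iff hM] at h2
    subst h2
    obtain ⟨n, hn, hn2⟩ := (hH _ _).1 h3
    obtain ⟨h4, h5⟩ := (pr_inj hM).1 hn2
    refine ⟨(walk n).1, (walk n).2, h4, h5, ?_⟩
    rw [p1_pos_walk]
    exact hn
  · rintro ⟨i, j, rfl, rfl, rfl⟩
    refine ⟨?_, nu hM i, nu hM j, nu hM (pos i j), (isTuple3_iff hM).2 rfl, _, pr_spec hM _ _, ?_⟩
    · exact (hD2 _).2 ⟨_, _, hnw _, (hD1 _).2 ⟨_, _, hnw _, hnw _, rfl⟩, rfl⟩
    · refine (hH _ _).2 ⟨pos i j, rfl, ?_⟩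
      have h1 := (walk_iff (pos i j) i j).2 rfl
      simp only [h1]

end Pool.Agent.SCG
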