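import Pool.Agent.SCG.R2
import Pool.Agent.SCG.P1

/-! [SCG-B1] Numbering of the nodes in `M`. -/

set_option linter.unusedVariables false
set_option linter.unusedTactic false
set_option linter.unreachableTactic false

namespace Pool.Agent.SCG

open SetModel MP63050e Pool.Agent.SM

universe u

variable {M : Type u} {E : M → M → Prop}

/-- The number of a node. -/
def bc (p : ℕ → ℕ → ℕ) : List Bool → ℕ
  | [] => 0
  | b :: s => p (bc p s) b.toNat + 1

theorem bc_inj {p : ℕ → ℕ → ℕ} (hp : ∀ i j i' j', p i j = p i' j' → i = i' ∧ j = j') :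
    Function.Injective (bc p) := by
  intro s
  induction s with
  | nil =>
    intro t h
    cases t with
    | nil => rfl
    | cons b t => simp [bc] at h
  | cons b s ih =>
    intro t h
    cases t with
    | nil => simp [bc] at h
    | cons b' t =>
      simp only [bc, Nat.add_right_cancel_iff] at h
      obtain ⟨h1, h2⟩ := hp _ _ _ _ h
      rw [ih h1]
      congr 1
      cases b <;> cases b' <;> simp_all

/-- Apply `exists_recNode` to `h s = nu (bc p s)`, `Y = w`, `R m b y z := ∃ k, Has E P [y, b, k] ∧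
IsSucc E z k`. -/
theorem exists_numbering (hM : IsModelZF E) {w P : M} (hw : IsOmega E w)
    (hst : ∀ x, E x w → ∃ n, IsNum E n x) {p : ℕ → ℕ → ℕ}
    (hp : ∀ i j i' j', p i j = p i' j' → i = i' ∧ j = j')
    (hP : ∀ x y z, Has E P [x, y, z] ↔ ∃ i j, x = nu hM i ∧ y = nu hM j ∧ z = nu hM (p i j)) :
    ∃ (B : M) (b : List Bool → ℕ), Function.Injective b ∧
      ∀ x z, Has E B [x, z] ↔ ∃ s, x = nd hM s ∧ z = nu hM (b s) := by
  obtain ⟨H, hH⟩ := exists_recNode hM hw hst (h := fun s => nu hM (bc p s)) (Y := w)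
    (fun s => (mem_w hM hw hst).2 ⟨_, rfl⟩)
    (R := fun m b y z => ∃ k, Has E P [y, b, k] ∧ IsSucc E z k)
    (by
      unfold Dfn4
      repeat' first
        | apply Dfn.comp4 dfn_has3 | apply Dfn.comp2 dfn_isSucc
        | assumption | exact CMap.id | apply CMap.fst | apply CMap.snd | exact CMap.const _
        | apply Dfn.mem | apply Dfn.eq | apply Dfn.not | apply Dfn.and | apply Dfn.or
        | apply Dfn.iff | apply Dfn.imp | refine Dfn.ex ?_ | refine Dfn.all ?_
        | refine Dfn.exu ?_ | exact Dfn.const _)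
    (by
      intro s b z
      constructor
      · rintro ⟨k, hk, hz⟩
        obtain ⟨i, j, hi, hj, rfl⟩ := (hP _ _ _).1 hk
        obtain rfl := (nu_inj hM).1 hi
        obtain rfl := (nu_inj hM).1 hj
        exact (succ_nu hM).1 hz
      · rintro rfl
        exact ⟨_, (hP _ _ _).2 ⟨_, _, rfl, rfl, rfl⟩, (succ_nu hM).2 rfl⟩)
  exact ⟨H, bc p, bc_inj hp, hH⟩

end Pool.Agent.SCG
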