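import Pool.Agent.SCG.Def
import Pool.Agent.Lib.helper63.SM

/-! Basic constructions inside an arbitrary model `(M, E)` of ZF. -/

set_option linter.unusedVariables false
set_option linter.unusedTactic false
set_option linter.unreachableTactic false

namespace Pool.Agent.SCG

open SetModel MP63050e Pool.Agent.SM

universe u v

variable {M : Type u} {E : M → M → Prop}

theorem ext (hM : IsModelZF E) {x y : M} (h : ∀ z, E z x ↔ E z y) : x = y :=
  hM.extensionality x y h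

theorem sep (hM : IsModelZF E) {D : M → Prop} (hD : Dfn1 E D) (x : M) :
    ∃ y, ∀ z, E z y ↔ E z x ∧ D z := by
  refine hM.separation D ?_ x
  let _ := memStructure E
  obtain ⟨φ, hφ⟩ := hD
  change (Set.univ : Set M).Definable memLang {x : Fin 1 → M | x 0 ∈ {x | D x}}
  rw [Set.definable_iff_exists_formula_sum]
  refine ⟨φ.relabel (Sum.elim (fun c => Sum.inl ⟨c, trivial⟩) (fun _ => Sum.inr 0)), ?_⟩
  ext v
  simp only [Set.mem_ofPred_eq]
  rw [FirstOrder.Language.Formula.realize_relabel]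
  refine (hφ (v 0)).trans ?_
  have : (Sum.elim id (Ctx.enc (v 0)) : M ⊕ ℕ → M) =
      Sum.elim (fun a : (Set.univ : Set M) => (a : M)) v ∘
        Sum.elim (fun c => Sum.inl ⟨c, trivial⟩) (fun _ => Sum.inr 0) := by
    funext a
    rcases a with a | a
    · rfl
    · rfl
  rw [this]

theorem upair_unique (hM : IsModelZF E) {p q a b : M} (hp : IsUPair E p a b)
    (hq : IsUPair E q a b) : p = q := ext hM fun z => (hp z).trans (hq z).symm

theorem pair_unique (hM : IsModelZF E) {p q a b : M} (hp : IsPair E p a b)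
    (hq : IsPair E q a b) : p = q := by
  obtain ⟨s, t, hs, ht, hp⟩ := hp
  obtain ⟨s', t', hs', ht', hq⟩ := hq
  obtain rfl := upair_unique hM hs hs'
  obtain rfl := upair_unique hM ht ht'
  exact upair_unique hM hp hq

theorem exists_upair (hM : IsModelZF E) (a b : M) : ∃ p, IsUPair E p a b := hM.pairing a b

theorem exists_pair (hM : IsModelZF E) (a b : M) : ∃ p, IsPair E p a b := by
  obtain ⟨s, hs⟩ := hM.pairing a a
  obtain ⟨t, ht⟩ := hM.pairing a b
  obtain ⟨p, hp⟩ := hM.pairing s t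
  exact ⟨p, s, t, hs, ht, hp⟩

theorem upair_inj (hM : IsModelZF E) {p a b c d : M} (hp : IsUPair E p a b)
    (hq : IsUPair E p c d) : (a = c ∧ b = d) ∨ (a = d ∧ b = c) := by
  have h1 : a = c ∨ a = d := (hq a).1 ((hp a).2 (Or.inl rfl))
  have h2 : b = c ∨ b = d := (hq b).1 ((hp b).2 (Or.inr rfl))
  have h3 : c = a ∨ c = b := (hp c).1 ((hq c).2 (Or.inl rfl))
  have h4 : d = a ∨ d = b := (hp d).1 ((hq d).2 (Or.inr rfl))
  clear hp hq
  grind

theorem pair_inj (hM : IsModelZF E) {p a b c d : M} (hp : IsPair E p a b)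
    (hq : IsPair E p c d) : a = c ∧ b = d := by
  obtain ⟨s, t, hs, ht, hp⟩ := hp
  obtain ⟨s', t', hs', ht', hq⟩ := hq
  have key : ∀ {s t : M}, IsUPair E s a a → IsUPair E s c d → a = c ∧ a = d := by
    intro s _ h1 h2
    rcases upair_inj hM h1 h2 with ⟨h, h'⟩ | ⟨h, h'⟩ <;> exact ⟨by assumption, by assumption⟩
  rcases upair_inj hM hp hq with ⟨rfl, rfl⟩ | ⟨rfl, rfl⟩
  · have h1 : a = c := by
      rcases upair_inj hM hs hs' with ⟨h, _⟩ | ⟨h, _⟩ <;> exact h
    subst h1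
    refine ⟨rfl, ?_⟩
    rcases upair_inj hM ht ht' with ⟨_, h⟩ | ⟨h, h'⟩
    · exact h
    · exact h'.trans h
  · -- s = {a} = {c,d}, t = {a,b} = {c}
    rcases upair_inj hM hs ht' with ⟨h1, h2⟩ | ⟨h1, h2⟩ <;>
      rcases upair_inj hM ht hs' with ⟨h3, h4⟩ | ⟨h3, h4⟩ <;>
      simp_all

/-- The ordered pair. -/
noncomputable def pr (E : M → M → Prop) (a b : M) : M :=
  open Classical in if h : ∃ p, IsPair E p a b then h.choose else a

theorem pr_spec (hM : IsModelZF E) (a b : M) : IsPair E (pr E a b) a b := by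
  have h := exists_pair hM a b
  rw [pr, dif_pos h]
  exact h.choose_spec

theorem isPair_iff (hM : IsModelZF E) {p a b : M} : IsPair E p a b ↔ p = pr E a b :=
  ⟨fun h => pair_unique hM h (pr_spec hM a b), fun h => h ▸ pr_spec hM a b⟩

theorem pr_inj (hM : IsModelZF E) {a b c d : M} : pr E a b = pr E c d ↔ a = c ∧ b = d := by
  constructor
  · intro h
    refine pair_inj hM (pr_spec hM a b) ?_
    rw [h]; exact pr_spec hM c d
  · rintro ⟨rfl, rfl⟩; rfl

theorem has2_iff (hM : IsModelZF E) {f a b : M} : Has E f [a, b] ↔ E (pr E a b) f := by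
  constructor
  · rintro ⟨t, ⟨s, rfl, ht⟩, htf⟩
    rw [isPair_iff hM] at ht
    rwa [← ht]
  · intro h
    exact ⟨_, ⟨b, rfl, pr_spec hM a b⟩, h⟩

theorem isTuple3_iff (hM : IsModelZF E) {t a b c : M} :
    IsTuple E t [a, b, c] ↔ t = pr E a (pr E b c) := by
  constructor
  · rintro ⟨s, ⟨s', rfl, hs⟩, ht⟩
    rw [isPair_iff hM] at hs ht
    rw [ht, hs]
  · rintro rfl
    exact ⟨_, ⟨c, rfl, pr_spec hM b c⟩, pr_spec hM a _⟩

theorem has3_iff (hM : IsModelZF E) {f a b c : M} :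
    Has E f [a, b, c] ↔ E (pr E a (pr E b c)) f := by
  constructor
  · rintro ⟨t, ht, htf⟩
    rw [isTuple3_iff hM] at ht
    rwa [← ht]
  · intro h
    exact ⟨_, (isTuple3_iff hM).2 rfl, h⟩

theorem isTuple4_iff (hM : IsModelZF E) {t a b c d : M} :
    IsTuple E t [a, b, c, d] ↔ t = pr E a (pr E b (pr E c d)) := by
  constructor
  · rintro ⟨s, hs, ht⟩
    have hs' := (isTuple3_iff hM).1 hs
    rw [isPair_iff hM] at ht
    rw [ht, hs']
  · rintro rfl
    exact ⟨_, (isTuple3_iff hM).2 rfl, pr_spec hM a _⟩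

theorem has4_iff (hM : IsModelZF E) {f a b c d : M} :
    Has E f [a, b, c, d] ↔ E (pr E a (pr E b (pr E c d))) f := by
  constructor
  · rintro ⟨t, ht, htf⟩
    rw [isTuple4_iff hM] at ht
    rwa [← ht]
  · intro h
    exact ⟨_, (isTuple4_iff hM).2 rfl, h⟩

theorem exists_union2 (hM : IsModelZF E) (a b : M) : ∃ u, ∀ z, E z u ↔ E z a ∨ E z b := by
  obtain ⟨p, hp⟩ := hM.pairing a b
  obtain ⟨u, hu⟩ := hM.union p
  refine ⟨u, fun z => ?_⟩
  rw [hu]
  constructor
  · rintro ⟨y, hy, hz⟩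
    rcases (hp y).1 hy with rfl | rfl
    · exact Or.inl hz
    · exact Or.inr hz
  · rintro (h | h)
    · exact ⟨a, (hp a).2 (Or.inl rfl), h⟩
    · exact ⟨b, (hp b).2 (Or.inr rfl), h⟩

theorem exists_prod (hM : IsModelZF E) (A C : M) :
    ∃ D, ∀ z, E z D ↔ ∃ a c, E a A ∧ E c C ∧ z = pr E a c := by
  obtain ⟨U, hU⟩ := exists_union2 hM A C
  obtain ⟨V, hV⟩ := hM.powerset U
  obtain ⟨W, hW⟩ := hM.powerset V
  obtain ⟨D, hD⟩ := sep hM (D := fun z => ∃ a c, E a A ∧ E c C ∧ IsPair E z a c)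
    (by unfold Dfn1; (repeat' first
        | apply Dfn.comp2 dfn_injects | apply Dfn.comp3 dfn_isFun
        | apply Dfn.comp4 dfn_isTuple3 | apply Dfn.comp5 dfn_has4 | apply Dfn.comp4 dfn_has3
        | apply Dfn.comp3 dfn_has2 | apply Dfn.comp3 dfn_isPair | apply Dfn.comp3 dfn_isUPair
        | assumption | exact CMap.id | apply CMap.fst | apply CMap.snd | exact CMap.const _
        | apply Dfn.mem | apply Dfn.eq | apply Dfn.not | apply Dfn.and | apply Dfn.or
        | apply Dfn.iff | apply Dfn.imp | refine Dfn.ex ?_ | refine Dfn.all ?_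
        | refine Dfn.exu ?_ | exact Dfn.const _)) W
  refine ⟨D, fun z => ?_⟩
  rw [hD]
  constructor
  · rintro ⟨-, a, c, ha, hc, hz⟩
    exact ⟨a, c, ha, hc, (isPair_iff hM).1 hz⟩
  · rintro ⟨a, c, ha, hc, rfl⟩
    refine ⟨?_, a, c, ha, hc, pr_spec hM a c⟩
    obtain ⟨s, t, hs, ht, hp⟩ := pr_spec hM a c
    rw [hW]
    intro w hw
    rw [hV]
    intro y hy
    rw [hU]
    rcases (hp w).1 hw with rfl | rfl
    · rcases (hs y).1 hy with rfl | rfl <;> exact Or.inl ha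
    · rcases (ht y).1 hy with rfl | rfl
      · exact Or.inl ha
      · exact Or.inr hc

theorem exists_rel (hM : IsModelZF E) {R : M → M → Prop} (hR : Dfn2 E R) (A C : M) :
    ∃ r, (∀ z, E z r → ∃ a c, E a A ∧ E c C ∧ IsPair E z a c) ∧
      ∀ a c, Has E r [a, c] ↔ E a A ∧ E c C ∧ R a c := by
  obtain ⟨D, hD⟩ := exists_prod hM A C
  obtain ⟨r, hr⟩ := sep hM (D := fun z => ∃ a c, IsPair E z a c ∧ R a c)
    (by unfold Dfn1
        refine Dfn.ex (Dfn.ex (Dfn.and ?_ (Dfn.comp2 hR ?_ ?_))) <;> (repeat' first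
            | apply Dfn.comp2 dfn_injects | apply Dfn.comp3 dfn_isFun
            | apply Dfn.comp4 dfn_isTuple3 | apply Dfn.comp5 dfn_has4
            | apply Dfn.comp4 dfn_has3 | apply Dfn.comp3 dfn_has2 | apply Dfn.comp3 dfn_isPair
            | apply Dfn.comp3 dfn_isUPair | assumption | exact CMap.id | apply CMap.fst
            | apply CMap.snd | exact CMap.const _ | apply Dfn.mem | apply Dfn.eq
            | apply Dfn.not | apply Dfn.and | apply Dfn.or | apply Dfn.iff | apply Dfn.imp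
            | refine Dfn.ex ?_ | refine Dfn.all ?_ | refine Dfn.exu ?_ | exact Dfn.const _)) D
  refine ⟨r, fun z hz => ?_, fun a c => ?_⟩
  · obtain ⟨a, c, ha, hc, rfl⟩ := (hD z).1 ((hr z).1 hz).1
    exact ⟨a, c, ha, hc, pr_spec hM a c⟩
  · rw [has2_iff hM, hr, hD]
    constructor
    · rintro ⟨⟨a', c', ha, hc, h⟩, a'', c'', h2, h3⟩
      rw [isPair_iff hM] at h2
      obtain ⟨rfl, rfl⟩ := (pr_inj hM).1 h
      obtain ⟨rfl, rfl⟩ := (pr_inj hM).1 h2
      exact ⟨ha, hc, h3⟩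
    · rintro ⟨ha, hc, h⟩
      exact ⟨⟨a, c, ha, hc, rfl⟩, a, c, pr_spec hM a c, h⟩

theorem exists_fun (hM : IsModelZF E) {R : M → M → Prop} (hR : Dfn2 E R) (A C : M)
    (h : ∀ a, E a A → ∃! c, E c C ∧ R a c) :
    ∃ f, IsFun E f A C ∧ ∀ a c, Has E f [a, c] ↔ E a A ∧ E c C ∧ R a c := by
  obtain ⟨f, hf1, hf2⟩ := exists_rel hM hR A C
  refine ⟨f, ⟨hf1, fun a ha => ?_⟩, hf2⟩
  obtain ⟨c, hc, hu⟩ := h a ha
  exact ⟨c, (hf2 a c).2 ⟨ha, hc⟩, fun c' hc' => hu c' ((hf2 a c').1 hc').2⟩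

theorem has_dom (hM : IsModelZF E) {f A C a c : M} (hf : IsFun E f A C) (h : Has E f [a, c]) :
    E a A ∧ E c C := by
  rw [has2_iff hM] at h
  obtain ⟨a', c', ha, hc, hp⟩ := hf.1 _ h
  rw [isPair_iff hM, pr_inj hM] at hp
  obtain ⟨rfl, rfl⟩ := hp
  exact ⟨ha, hc⟩

theorem fun_ex {f A C a : M} (hf : IsFun E f A C) (ha : E a A) : ∃ c, Has E f [a, c] :=
  (hf.2 a ha).exists

theorem fun_uniq (hM : IsModelZF E) {f A C a c c' : M} (hf : IsFun E f A C)
    (h : Has E f [a, c]) (h' : Has E f [a, c']) : c = c' :=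
  (hf.2 a (has_dom hM hf h).1).unique h h'


end Pool.Agent.SCG
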