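import Pool.Agent.MP_63050e_lc.Statement

/-! Sacks forcing, interpreted in a model `(M, E)` of ZF. All quantifiers range over the model. -/

namespace Pool.Agent.SCG

open MP63050e SetModel

universe u

variable {M : Type u} (E : M → M → Prop)

/-- `(M, E)` is a model of ZF. -/
structure IsModelZF : Prop where
  extensionality : ∀ x y, (∀ z, E z x ↔ E z y) → x = y
  foundation : ∀ x, (∃ y, E y x) → ∃ y, E y x ∧ ∀ z, E z y → ¬ E z x
  pairing : ∀ a b, ∃ p, ∀ z, E z p ↔ z = a ∨ z = b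
  union : ∀ x, ∃ u, ∀ z, E z u ↔ ∃ y, E y x ∧ E z y
  powerset : ∀ x, ∃ p, ∀ z, E z p ↔ ∀ w, E w z → E w x
  infinity : ∃ w, (∃ e, (∀ z, ¬ E z e) ∧ E e w) ∧
    ∀ x, E x w → ∃ y, E y w ∧ ∀ z, E z y ↔ E z x ∨ z = x
  separation : ∀ D : M → Prop, Def₁ E D → ∀ x, ∃ y, ∀ z, E z y ↔ E z x ∧ D z
  replacement : ∀ R : M → M → Prop, Def₂ E R → ∀ x, (∀ y, E y x → ∃! z, R y z) →
    ∃ w, ∀ z, E z w ↔ ∃ y, E y x ∧ R y z

/-- `x` is the (standard) natural number `n`, a von Neumann ordinal. -/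
def IsNum : ℕ → M → Prop
  | 0, x => IsEmp E x
  | n + 1, x => ∃ y, IsNum n y ∧ IsSucc E x y

/-- `x ⊆ y`. -/
def Sub (x y : M) : Prop := ∀ z, E z x → E z y

/-- `s ∈ 2^{<ω}` (`w = ω`): `s` is a function from some `n ∈ ω` to `2 = {0, 1}`. -/
def IsNode (w s : M) : Prop := ∃ n t, E n w ∧ IsNum E 2 t ∧ IsFun E s n t

/-- `T` is a perfect tree `T ⊆ 2^{<ω}` (`w = ω`): it is nonempty, closed under initial segments,
and each `s ∈ T` has two incompatible extensions in `T`. -/
def IsPerfect (w T : M) : Prop :=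
  (∃ s, E s T) ∧ (∀ s, E s T → IsNode E w s) ∧
    (∀ s t, E s T → IsNode E w t → Sub E t s → E t T) ∧
    ∀ s, E s T → ∃ t t', E t T ∧ E t' T ∧ Sub E s t ∧ Sub E s t' ∧ ¬ Sub E t t' ∧ ¬ Sub E t' t

/-- `S` is Sacks forcing: the set of all perfect trees (ordered by inclusion; `w = ω`). -/
def IsSacks (w S : M) : Prop := ∀ T, E T S ↔ IsPerfect E w T

/-- `k` has countable cofinality: there is a function `f : ω → k` such that each element of `k`
is an element of some `f(n)` (`w = ω`, `k` a limit ordinal). -/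
def CountableCof (w k : M) : Prop :=
  ∃ f, IsFun E f w k ∧ ∀ a, E a k → ∃ n b, Has E f [n, b] ∧ E a b

/-- The set of reals `𝒫(ω)` is the union of a well-ordered family of countable sets (`w = ω`):
there are an ordinal `h` and a function `C` with domain `h` such that each `C(a)` injects into `ω`
and each `x ⊆ ω` belongs to some `C(a)`. -/
def WOUnionOfCountable (w : M) : Prop :=
  ∃ h C Y, IsOrd E h ∧ IsFun E C h Y ∧ (∀ a X, Has E C [a, X] → Injects E X w) ∧
    ∀ x, Sub E x w → ∃ a X, Has E C [a, X] ∧ E x X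

/-- The forcing `(S, ⊆)` collapses `k` to `w` (below every condition): there is an `S`-name `N`
for an injective function from `k` to `w`. Here `N` is a set of triples `(q, a, n)`, read as
`q ⊩ N(a) = n`: every condition `q` and `a ∈ k` have a `q' ≤ q` and an `n` with `(q', a, n) ∈ N`,
and if `(q, a, n), (q', a', n') ∈ N` and `q`, `q'` are compatible, then `a = a'` iff `n = n'`. -/
def Collapses (w k S : M) : Prop :=
  ∃ N, (∀ q a n, Has E N [q, a, n] → E q S ∧ E a k ∧ E n w) ∧
    (∀ q a, E q S → E a k → ∃ q' n, Sub E q' q ∧ Has E N [q', a, n]) ∧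
    ∀ r q q' a a' n n', E r S → Sub E r q → Sub E r q' → Has E N [q, a, n] →
      Has E N [q', a', n'] → (a = a' ↔ n = n')

end Pool.Agent.SCG
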