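import Pool.Agent.SCG.N3

/-! [SCG-F1] Translation of the formulas `Spl`, `LS`, `Bk`, `DirM`. -/

set_option linter.unusedVariables false
set_option linter.unusedTactic false
set_option linter.unreachableTactic false

namespace Pool.Agent.SCG

open SetModel MP63050e Pool.Agent.SM

universe u

variable {M : Type u} {E : M → M → Prop}

/-- From `child_iff`, `isNum_iff`, `bt_inj`, `nd_inj` (`bt hM false = nu hM 0` and
`bt hM true = nu hM 1` by `rfl`). -/
theorem spl_iff (hM : IsModelZF E) {w q : M} (hw : IsOmega E w)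
    (hst : ∀ x, E x w → ∃ n, IsNum E n x) {x : M} :
    Spl E w q x ↔ ∃ s, x = nd hM s ∧ Splits (tr hM q) s := by
  constructor
  · rintro ⟨z, o, u0, u1, hz, ho, h0, h1, hq0, hq1⟩
    rw [isNum_iff hM] at hz ho
    obtain ⟨s, b, rfl, rfl, hb⟩ := (child_iff hM hw hst).1 h0
    obtain ⟨s', b', hs', rfl, hb'⟩ := (child_iff hM hw hst).1 h1
    obtain rfl := (nd_inj hM).1 hs'
    have e1 : b = false := (bt_inj hM).1 (hb.symm.trans hz)
    have e2 : b' = true := (bt_inj hM).1 (hb'.symm.trans ho)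
    subst e1 e2
    exact ⟨s, rfl, hq0, hq1⟩
  · rintro ⟨s, rfl, h0, h1⟩
    exact ⟨nu hM 0, nu hM 1, nd hM (false :: s), nd hM (true :: s), (isNum_iff hM).2 rfl,
      (isNum_iff hM).2 rfl, (child_iff hM hw hst).2 ⟨s, false, rfl, rfl, rfl⟩,
      (child_iff hM hw hst).2 ⟨s, true, rfl, rfl, rfl⟩, h0, h1⟩

theorem f1_suffix_cons {u s : List Bool} {b : Bool} (h : u <:+ b :: s) (hne : u ≠ b :: s) :
    u <:+ s := by
  rcases List.suffix_cons_iff.1 h with h | h
  · exact (hne h).elim
  · exact h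

theorem f1_ne_cons {u s : List Bool} {b : Bool} (h : u <:+ s) : u ≠ b :: s := by
  rintro rfl
  have := h.length_le
  simp at this

theorem f1_DL (Q : Set (List Bool)) (v : List Bool) : ∀ u : List Bool,
    (∃ b, DL Q v = (u, b) :: DL Q u) ↔ (u <:+ v ∧ u ≠ v ∧ Splits Q u ∧
      ∀ u', u <:+ u' → u ≠ u' → u' <:+ v → u' ≠ v → ¬ Splits Q u') := by
  induction v with
  | nil =>
    intro u
    constructor
    · rintro ⟨b, h⟩
      simp [DL] at h
    · rintro ⟨h1, h2, -⟩
      exact (h2 (List.suffix_nil.1 h1)).elim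
  | cons b s ih =>
    intro u
    by_cases hs : Splits Q s
    · have e : DL Q (b :: s) = (s, b) :: DL Q s := by rw [DL, if_pos hs]
      constructor
      · rintro ⟨b', h⟩
        rw [e] at h
        simp only [List.cons.injEq, Prod.mk.injEq] at h
        obtain ⟨⟨rfl, -⟩, -⟩ := h
        refine ⟨List.suffix_cons _ _, f1_ne_cons (List.suffix_refl _), hs, ?_⟩
        intro u' h1 h2 h3 h4
        have h5 := f1_suffix_cons h3 h4
        exact (h2 (h1.eq_of_length (le_antisymm h1.length_le h5.length_le))).elim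
      · rintro ⟨h1, h2, h3, h4⟩
        have h5 := f1_suffix_cons h1 h2
        have h6 : u = s := by
          by_contra hne
          exact h4 s h5 hne (List.suffix_cons _ _) (f1_ne_cons (List.suffix_refl _)) hs
        subst h6
        exact ⟨b, e⟩
    · have e : DL Q (b :: s) = DL Q s := by rw [DL, if_neg hs]
      rw [e, ih u]
      constructor
      · rintro ⟨h1, h2, h3, h4⟩
        refine ⟨h1.trans (List.suffix_cons _ _), f1_ne_cons h1, h3, ?_⟩
        intro u' k1 k2 k3 k4 k5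
        have k6 := f1_suffix_cons k3 k4
        by_cases hus : u' = s
        · subst hus; exact hs k5
        · exact h4 u' k1 k2 k6 hus k5
      · rintro ⟨h1, h2, h3, h4⟩
        refine ⟨f1_suffix_cons h1 h2, ?_, h3, ?_⟩
        · rintro rfl; exact hs h3
        · intro u' k1 k2 k3 k4
          exact h4 u' k1 k2 (k3.trans (List.suffix_cons _ _)) (f1_ne_cons k3)

/-- `LS` picks the first entry of the list `DL`. Lemma (lists only, induction on `v`): for a set `Q`,
the head of `DL Q v` is `(u, b)` iff `b :: u <:+ v`, `Splits Q u`, and no `u'` with `u <:+ u'`, `u ≠ u'`,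
`u' <:+ v`, `u' ≠ v` splits; and then the tail of `DL Q v` is `DL Q u`. -/
theorem LS_iff (hM : IsModelZF E) {w q : M} (hw : IsOmega E w)
    (hst : ∀ x, E x w → ∃ n, IsNum E n x) {v : List Bool} {x : M} :
    LS E w q (nd hM v) x ↔ ∃ u b, DL (tr hM q) v = (u, b) :: DL (tr hM q) u ∧ x = nd hM u := by
  have key : ∀ u : List Bool, LS E w q (nd hM v) (nd hM u) ↔ (u <:+ v ∧ u ≠ v ∧
      Splits (tr hM q) u ∧
      ∀ u', u <:+ u' → u ≠ u' → u' <:+ v → u' ≠ v → ¬ Splits (tr hM q) u') := by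
    intro u
    unfold LS
    rw [sub_nd hM, spl_iff hM hw hst]
    have e1 : nd hM u ≠ nd hM v ↔ u ≠ v := not_congr (nd_inj hM)
    have e2 : (∃ s, nd hM u = nd hM s ∧ Splits (tr hM q) s) ↔ Splits (tr hM q) u := by
      constructor
      · rintro ⟨s, hs, h⟩
        obtain rfl := (nd_inj hM).1 hs
        exact h
      · intro h; exact ⟨u, rfl, h⟩
    rw [e1, e2]
    refine and_congr_right fun _ => and_congr_right fun _ => and_congr_right fun _ => ?_
    constructor
    · intro h u' k1 k2 k3 k4 k5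
      exact h (nd hM u') ((isNode_iff hM hw hst).2 ⟨u', rfl⟩) ((sub_nd hM).2 k1)
        (fun e => k2 ((nd_inj hM).1 e)) ((sub_nd hM).2 k3) (fun e => k4 ((nd_inj hM).1 e))
        ((spl_iff hM hw hst).2 ⟨u', rfl, k5⟩)
    · intro h x' k0 k1 k2 k3 k4 k5
      obtain ⟨u', rfl, k6⟩ := (spl_iff hM hw hst).1 k5
      exact h u' ((sub_nd hM).1 k1) (fun e => k2 (by rw [e])) ((sub_nd hM).1 k3)
        (fun e => k4 (by rw [e])) k6
  constructor
  · intro h
    obtain ⟨u, rfl, -⟩ := (spl_iff hM hw hst).1 h.2.2.1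
    obtain ⟨b, hb⟩ := (f1_DL _ v u).2 ((key u).1 h)
    exact ⟨u, b, hb, rfl⟩
  · rintro ⟨u, b, hb, rfl⟩
    exact (key u).2 ((f1_DL _ v u).1 ⟨b, hb⟩)

end Pool.Agent.SCG
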