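import Pool.Agent.SCG.F1

/-! [SCG-F1b] Translation of the formulas `Bk`, `DirM`. -/

set_option linter.unusedVariables false
set_option linter.unusedTactic false
set_option linter.unreachableTactic false

namespace Pool.Agent.SCG

open SetModel MP63050e Pool.Agent.SM

universe u

variable {M : Type u} {E : M → M → Prop}

theorem f1b_dl_pos (Q : Set (List Bool)) (s : List Bool) (c : Bool) (h : Splits Q s) :
    DL Q (c :: s) = (s, c) :: DL Q s := by
  rw [DL, if_pos h]

theorem f1b_dl_neg (Q : Set (List Bool)) (s : List Bool) (c : Bool) (h : ¬ Splits Q s) :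
    DL Q (c :: s) = DL Q s := by
  rw [DL, if_neg h]

/-- What comes after an entry of `DL`. -/
theorem f1b_drop (Q : Set (List Bool)) (v : List Bool) : ∀ (m : ℕ) (u : List Bool) (b : Bool),
    (DL Q v)[m]? = some (u, b) → (DL Q v).drop (m + 1) = DL Q u := by
  induction v with
  | nil =>
    intro m u b h
    simp [DL] at h
  | cons c s ih =>
    intro m u b h
    by_cases hs : Splits Q s
    · have e := f1b_dl_pos Q s c hs
      rw [e] at h ⊢
      cases m with
      | zero =>
        rw [List.getElem?_cons_zero, Option.some.injEq, Prod.mk.injEq] at h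
        rw [← h.1]
        rfl
      | succ m =>
        rw [List.getElem?_cons_succ] at h
        rw [List.drop_succ_cons]
        exact ih m u b h
    · have e := f1b_dl_neg Q s c hs
      rw [e] at h ⊢
      exact ih m u b h

theorem f1b_suffix (Q : Set (List Bool)) (v : List Bool) : ∀ (m : ℕ) (u : List Bool) (b : Bool),
    (DL Q v)[m]? = some (u, b) → b :: u <:+ v := by
  induction v with
  | nil =>
    intro m u b h
    simp [DL] at h
  | cons c s ih =>
    intro m u b h
    by_cases hs : Splits Q s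
    · have e := f1b_dl_pos Q s c hs
      rw [e] at h
      cases m with
      | zero =>
        rw [List.getElem?_cons_zero, Option.some.injEq, Prod.mk.injEq] at h
        rw [← h.1, ← h.2]
      | succ m =>
        rw [List.getElem?_cons_succ] at h
        exact (ih m u b h).trans (List.suffix_cons c s)
    · have e := f1b_dl_neg Q s c hs
      rw [e] at h
      exact (ih m u b h).trans (List.suffix_cons c s)

/-- The next entry of `DL`. -/
theorem f1b_next (Q : Set (List Bool)) {v : List Bool} {m : ℕ} {u u' : List Bool} {b b' : Bool}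
    (h : (DL Q v)[m]? = some (u, b)) :
    (DL Q v)[m + 1]? = some (u', b') ↔ DL Q u = (u', b') :: DL Q u' := by
  have h1 := f1b_drop Q v m u b h
  have h2 : (DL Q v)[m + 1]? = (DL Q u)[0]? := by
    rw [← h1, List.getElem?_drop, add_zero]
  rw [h2]
  constructor
  · intro h3
    have h4 := f1b_drop Q u 0 u' b' h3
    cases h5 : DL Q u with
    | nil => rw [h5] at h3; simp at h3
    | cons p l =>
      rw [h5] at h3 h4
      rw [List.getElem?_cons_zero, Option.some.injEq] at h3
      rw [h3]
      congr 1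
  · intro h3
    rw [h3, List.getElem?_cons_zero]

theorem f1b_first (Q : Set (List Bool)) {v : List Bool} {u' : List Bool} {b' : Bool} :
    (DL Q v)[0]? = some (u', b') ↔ DL Q v = (u', b') :: DL Q u' := by
  constructor
  · intro h3
    have h4 := f1b_drop Q v 0 u' b' h3
    cases h5 : DL Q v with
    | nil => rw [h5] at h3; simp at h3
    | cons p l =>
      rw [h5] at h3 h4
      rw [List.getElem?_cons_zero, Option.some.injEq] at h3
      rw [h3]
      congr 1
  · intro h3
    rw [h3, List.getElem?_cons_zero]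

/-- By induction on `n` (generalizing `x`). For the direction from right to left take for `A` the
finite set of the pairs `pr E (nu m) (nd (u_m))`, `m ≤ n`, where `u_m` is the `m`-th entry of
`DL (tr hM q) v` (build it with `emp`, `ins` inside the induction: from the set for `n` add one pair). -/
theorem Bk_iff (hM : IsModelZF E) {w q : M} (hw : IsOmega E w)
    (hst : ∀ x, E x w → ∃ n, IsNum E n x) {v : List Bool} {n : ℕ} {x : M} :
    Bk E w q (nd hM v) (nu hM n) x ↔ ∃ u b, (DL (tr hM q) v)[n]? = some (u, b) ∧ x = nd hM u := by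
  constructor
  · rintro ⟨A, hA1, hA2⟩
    induction n generalizing x with
    | zero =>
      rcases hA2 _ _ hA1 with ⟨-, h⟩ | ⟨m', y', h, -⟩
      · obtain ⟨u, b, h1, h2⟩ := (LS_iff hM hw hst).1 h
        exact ⟨u, b, (f1b_first _).2 h1, h2⟩
      · obtain ⟨m, h1, -⟩ := (isSucc_nu hM).1 h
        omega
    | succ n ih =>
      rcases hA2 _ _ hA1 with ⟨h, -⟩ | ⟨m', y', h, h1, h2⟩
      · have h3 : nu hM (n + 1) = nu hM 0 := (isEmp_iff hM).1 h
        have h4 := (nu_inj hM).1 h3
        omega
      · obtain ⟨m, h3, rfl⟩ := (isSucc_nu hM).1 h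
        obtain rfl : n = m := by omega
        obtain ⟨u, b, h4, rfl⟩ := ih h1
        obtain ⟨u', b', h5, h6⟩ := (LS_iff hM hw hst).1 h2
        exact ⟨u', b', (f1b_next _ h4).2 h5, h6⟩
  · rintro ⟨u, b, h, rfl⟩
    induction n generalizing u b with
    | zero =>
      refine ⟨ins hM (emp hM) (pr E (nu hM 0) (nd hM u)), ?_, ?_⟩
      · rw [has2_iff hM, mem_ins hM]
        exact Or.inr rfl
      · intro m y hmy
        rw [has2_iff hM, mem_ins hM] at hmy
        rcases hmy with h1 | h1
        · exact (emp_spec hM _ h1).elim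
        · obtain ⟨rfl, rfl⟩ := (pr_inj hM).1 h1
          exact Or.inl ⟨emp_spec hM, (LS_iff hM hw hst).2 ⟨u, b, (f1b_first _).1 h, rfl⟩⟩
    | succ n ih =>
      have hlt : n + 1 < (DL (tr hM q) v).length := by
        by_contra h1
        rw [List.getElem?_eq_none (by omega)] at h
        cases h
      obtain ⟨⟨u', b'⟩, hu'⟩ : ∃ p, (DL (tr hM q) v)[n]? = some p :=
        ⟨_, List.getElem?_eq_getElem (by omega)⟩
      obtain ⟨A, hA1, hA2⟩ := ih u' b' hu'
      have hsub : ∀ m y, Has E A [m, y] →
          Has E (ins hM A (pr E (nu hM (n + 1)) (nd hM u))) [m, y] := by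
        intro m y h1
        rw [has2_iff hM] at h1 ⊢
        exact (mem_ins hM).2 (Or.inl h1)
      refine ⟨ins hM A (pr E (nu hM (n + 1)) (nd hM u)), ?_, ?_⟩
      · rw [has2_iff hM, mem_ins hM]
        exact Or.inr rfl
      · intro m y hmy
        rw [has2_iff hM, mem_ins hM] at hmy
        rcases hmy with h1 | h1
        · rcases hA2 m y ((has2_iff hM).2 h1) with h2 | ⟨m', y', h2, h3, h4⟩
          · exact Or.inl h2
          · exact Or.inr ⟨m', y', h2, hsub _ _ h3, h4⟩
        · obtain ⟨rfl, rfl⟩ := (pr_inj hM).1 h1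
          refine Or.inr ⟨nu hM n, nd hM u', (isSucc_nu hM).2 ⟨n, rfl, rfl⟩, hsub _ _ hA1, ?_⟩
          exact (LS_iff hM hw hst).2 ⟨u, b, (f1b_next _ hu').1 h, rfl⟩

/-- The entry `(u, b)` of `DL Q v` satisfies `b :: u <:+ v`. -/
theorem dirM_iff (hM : IsModelZF E) {w q : M} (hw : IsOmega E w)
    (hst : ∀ x, E x w → ∃ n, IsNum E n x) {v : List Bool} {n : ℕ} {y : M} :
    DirM E w q (nd hM v) (nu hM n) y ↔ ∃ b, y = bt hM b ∧ Dir (tr hM q) v n b := by
  constructor
  · rintro ⟨x, x', h1, h2, h3⟩
    obtain ⟨u, b, h4, rfl⟩ := (Bk_iff hM hw hst).1 h1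
    obtain ⟨s, b', h5, rfl, rfl⟩ := (child_iff hM hw hst).1 h2
    obtain rfl := (nd_inj hM).1 h5
    refine ⟨b', rfl, u, ?_⟩
    have h6 := (sub_nd hM).1 h3
    have h7 := f1b_suffix _ _ _ _ _ h4
    have h8 : b' :: u = b :: u := by
      have h9 := List.suffix_of_suffix_length_le h6 h7 (by simp)
      exact h9.eq_of_length (by simp)
    rw [List.cons.injEq] at h8
    rw [h8.1]
    exact h4
  · rintro ⟨b, rfl, u, h⟩
    exact ⟨nd hM u, nd hM (b :: u), (Bk_iff hM hw hst).2 ⟨u, b, h, rfl⟩,
      (child_iff hM hw hst).2 ⟨u, b, rfl, rfl, rfl⟩, (sub_nd hM).2 (f1b_suffix _ _ _ _ _ h)⟩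

end Pool.Agent.SCG
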