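import Pool.Agent.SCG.F1b

/-! [SCG-F2] Translation of the formulas `Settled`, `Settle`, `CodeM`. -/

set_option linter.unusedVariables false
set_option linter.unusedTactic false
set_option linter.unreachableTactic false

namespace Pool.Agent.SCG

open SetModel MP63050e Pool.Agent.SM

universe u

variable {M : Type u} {E : M → M → Prop}

theorem settled_iff (hM : IsModelZF E) {q T : M} (hq : ∀ x, E x q → ∃ s, x = nd hM s)
    {s : List Bool} : Settled E q T (nd hM s) ↔ Sett (tr hM q) (tr hM T) s := by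
  constructor
  · rintro (h | h)
    · exact Or.inl h
    · exact Or.inr fun t ht hst => h _ ht ((sub_nd hM).2 hst)
  · rintro (h | h)
    · exact Or.inl h
    · refine Or.inr fun x hx hsx => ?_
      obtain ⟨t, rfl⟩ := hq x hx
      exact h t hx ((sub_nd hM).1 hsx)

theorem settle_iff (hM : IsModelZF E) {w q r T : M} (hw : IsOmega E w)
    (hst : ∀ x, E x w → ∃ n, IsNum E n x) (hq : ∀ x, E x q → ∃ s, x = nd hM s)
    (hr : ∀ x, E x r → ∃ s, x = nd hM s) :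
    Settle E w q r T ↔ ∃ K, ∀ s ∈ tr hM r, K < s.length → Sett (tr hM q) (tr hM T) s := by
  constructor
  · rintro ⟨k, hk, h⟩
    obtain ⟨K, rfl⟩ := (mem_w hM hw hst).1 hk
    exact ⟨K, fun s hs hK => (settled_iff hM hq).1 (h _ hs ((inDom_iff hM).2 ⟨K, hK, rfl⟩))⟩
  · rintro ⟨K, h⟩
    refine ⟨nu hM K, (mem_w hM hw hst).2 ⟨K, rfl⟩, fun x hx hKx => ?_⟩
    obtain ⟨s, rfl⟩ := hr x hx
    obtain ⟨K', hK', h1⟩ := (inDom_iff hM).1 hKx
    obtain rfl := (nu_inj hM).1 h1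
    exact (settled_iff hM hq).2 (h s hx hK')

/-- Here `c` is a function from `ω` to `2` given by `f : ℕ → Bool`. -/
theorem codeM_iff (hM : IsModelZF E) {w q r c : M} (hw : IsOmega E w)
    (hst : ∀ x, E x w → ∃ n, IsNum E n x) (hr : ∀ x, E x r → ∃ s, x = nd hM s) {f : ℕ → Bool}
    (hf : ∀ x y, Has E c [x, y] ↔ ∃ n, x = nu hM n ∧ y = bt hM (f n)) :
    CodeM E w q r c ↔ ∀ n, ∃ K, ∀ v ∈ tr hM r, K < v.length → Splits (tr hM r) v →
      Dir (tr hM q) v n (f n) := by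
  constructor
  · intro h n
    obtain ⟨k, hk, h1⟩ := h (nu hM n) (bt hM (f n)) ((hf _ _).2 ⟨n, rfl, rfl⟩)
    obtain ⟨K, rfl⟩ := (mem_w hM hw hst).1 hk
    refine ⟨K, fun v hv hK hsp => ?_⟩
    have h2 := h1 _ hv ((inDom_iff hM).2 ⟨K, hK, rfl⟩) ((spl_iff hM hw hst).2 ⟨v, rfl, hsp⟩)
    obtain ⟨b, h3, h4⟩ := (dirM_iff hM hw hst).1 h2
    rw [(bt_inj hM).1 h3]
    exact h4
  · intro h x y hxy
    obtain ⟨n, rfl, rfl⟩ := (hf _ _).1 hxy
    obtain ⟨K, h1⟩ := h n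
    refine ⟨nu hM K, (mem_w hM hw hst).2 ⟨K, rfl⟩, fun z hz hKz hsp => ?_⟩
    obtain ⟨v, rfl⟩ := hr z hz
    obtain ⟨K', hK', h2⟩ := (inDom_iff hM).1 hKz
    obtain rfl := (nu_inj hM).1 h2
    obtain ⟨v', h3, h4⟩ := (spl_iff hM hw hst).1 hsp
    obtain rfl := (nd_inj hM).1 h3
    exact (dirM_iff hM hw hst).2 ⟨f n, rfl, h1 v hz hK' h4⟩

end Pool.Agent.SCG
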