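import Pool.Agent.SCG.Num

/-! Definitions: the formulas (interpreted in `M`) and the notions for lists of bits, and the first
order definability of the formulas. -/

set_option linter.unusedVariables false
set_option linter.unusedTactic false
set_option linter.unreachableTactic false

namespace Pool.Agent.SCG

open SetModel MP63050e Pool.Agent.SM

universe u

section Native

/-- `s` is a splitting node of `q`. Nodes are lists with the most recent bit first; `s <:+ t`
means that `s` is an initial segment of the node `t`. -/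
def Splits (q : Set (List Bool)) (s : List Bool) : Prop := (false :: s) ∈ q ∧ (true :: s) ∈ q

/-- Perfect trees. -/
structure Perf (q : Set (List Bool)) : Prop where
  root : [] ∈ q
  tail : ∀ b s, b :: s ∈ q → s ∈ q
  split : ∀ s ∈ q, ∃ t, s <:+ t ∧ Splits q t

open Classical in
/-- The splitting nodes of `q` which are proper initial segments of a node, each with the direction
taken there; most recent first. -/
noncomputable def DL (q : Set (List Bool)) : List Bool → List (List Bool × Bool)
  | [] => []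
  | b :: s => if Splits q s then (s, b) :: DL q s else DL q s

/-- At its `(n+1)`-st last splitting node of `q`, the node `s` takes the direction `b`. -/
def Dir (q : Set (List Bool)) (s : List Bool) (n : ℕ) (b : Bool) : Prop :=
  ∃ u, (DL q s)[n]? = some (u, b)

/-- The tree `T` is settled at `s` (relative to `q`). -/
def Sett (q T : Set (List Bool)) (s : List Bool) : Prop := s ∉ T ∨ ∀ t ∈ q, s <:+ t → t ∈ T

/-- `v` is an admissible next splitting node above `s` at stage `n`. -/
def Nxt (q : Set (List Bool)) (T : ℕ → Set (List Bool)) (c : ℕ → Bool) (n : ℕ)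
    (s v : List Bool) : Prop :=
  Splits q v ∧ s <:+ v ∧ Sett q (T n) v ∧ ∀ i ≤ n, Dir q v i (c i)

/-- `v` is the admissible next node with the least code. -/
def NxtL (q : Set (List Bool)) (T : ℕ → Set (List Bool)) (c : ℕ → Bool) (bc : List Bool → ℕ)
    (n : ℕ) (s v : List Bool) : Prop :=
  Nxt q T c n s v ∧ ∀ v', Nxt q T c n s v' → bc v ≤ bc v'

end Native

variable {M : Type u}

/-- The set of nodes which belong to `T`. -/
def tr {E : M → M → Prop} (hM : IsModelZF E) (T : M) : Set (List Bool) := {s | E (nd hM s) T}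

variable (E : M → M → Prop)

/-- `s` is a node of length `n`. -/
def Len (w s n : M) : Prop := ∃ t, E n w ∧ IsNum E 2 t ∧ IsFun E s n t

/-- `s` is a node, `b ∈ 2`, and `s'` is the node `s ⌢ b`. -/
def Child (w s s' b : M) : Prop :=
  ∃ n t, E n w ∧ IsNum E 2 t ∧ E b t ∧ IsFun E s n t ∧ ∀ z, E z s' ↔ E z s ∨ IsPair E z n b

/-- `k` is smaller than the length of the node `s`. -/
def InDom (k s : M) : Prop := ∃ b, Has E s [k, b]

/-- `u` is a splitting node of `q`. -/
def Spl (w q u : M) : Prop :=
  ∃ z o u0 u1, IsNum E 0 z ∧ IsNum E 1 o ∧ Child E w u u0 z ∧ Child E w u u1 o ∧ E u0 q ∧ E u1 q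

/-- `u` is the last splitting node of `q` which is a proper initial segment of `v`. -/
def LS (w q v u : M) : Prop :=
  Sub E u v ∧ u ≠ v ∧ Spl E w q u ∧
    ∀ u', IsNode E w u' → Sub E u u' → u ≠ u' → Sub E u' v → u' ≠ v → ¬ Spl E w q u'

/-- `u` is the `(n+1)`-st last splitting node of `q` which is a proper initial segment of `v`. -/
def Bk (w q v n u : M) : Prop :=
  ∃ A, Has E A [n, u] ∧ ∀ m y, Has E A [m, y] → (IsEmp E m ∧ LS E w q v y) ∨
    ∃ m' y', IsSucc E m m' ∧ Has E A [m', y'] ∧ LS E w q y' y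

/-- At its `(n+1)`-st last splitting node of `q`, the node `v` takes the direction `b`. -/
def DirM (w q v n b : M) : Prop := ∃ u u', Bk E w q v n u ∧ Child E w u u' b ∧ Sub E u' v

/-- The tree `T` is settled at `s` (relative to `q`). -/
def Settled (q T s : M) : Prop := ¬ E s T ∨ ∀ t, E t q → Sub E s t → E t T

/-- The tree `T` is settled at all sufficiently long nodes of `r`. -/
def Settle (w q r T : M) : Prop :=
  ∃ k, E k w ∧ ∀ s, E s r → InDom E k s → Settled E q T s

/-- The splitting nodes of `r` code the function `c : ω → 2` (relative to `q`). -/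
def CodeM (w q r c : M) : Prop :=
  ∀ n b, Has E c [n, b] → ∃ k, E k w ∧ ∀ v, E v r → InDom E k v → Spl E w r v →
    DirM E w q v n b

/-- `x` is the set of the codes of the elements of `T`. -/
def CodeOf (B T x : M) : Prop := ∀ m, E m x ↔ ∃ s, E s T ∧ Has E B [s, m]

/-- The code of `T` belongs to `X`. -/
def InX (B X T : M) : Prop := ∃ x, CodeOf E B T x ∧ E x X

/-- `r` is good for `a` and `c`. -/
def Gd (w S B C a r c : M) : Prop :=
  ∃ X q, Has E C [a, X] ∧ E q S ∧ InX E B X q ∧ Sub E r q ∧
    (∀ T, E T S → InX E B X T → Settle E w q r T) ∧ CodeM E w q r c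

/-- All trees `T ∈ S` whose code has number `n` are settled at `v`. -/
def SettN (S B X g q n v : M) : Prop :=
  ∀ T x, E T S → CodeOf E B T x → E x X → Has E g [x, n] → Settled E q T v

/-- The formula for `Nxt`. -/
def NxM (w S B X g q c n s v : M) : Prop :=
  Spl E w q v ∧ Sub E s v ∧ SettN E S B X g q n v ∧
    ∀ i b, E i n ∨ i = n → Has E c [i, b] → DirM E w q v i b

/-- The formula for `NxtL`. -/
def NxLM (w S B X g q c n s v : M) : Prop :=
  NxM E w S B X g q c n s v ∧ ∀ v' x x', NxM E w S B X g q c n s v' → Has E B [v, x] →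
    Has E B [v', x'] → E x x' ∨ x = x'

/-- `c : ω → 2` codes the injective function `f : k → ω` (via the pairing `P`). -/
def ZC (w P c k f : M) : Prop :=
  (∃ t, IsNum E 2 t ∧ IsFun E c w t) ∧ IsFun E f k w ∧
    (∀ a a' i, Has E f [a, i] → Has E f [a', i] → a = a') ∧
    ∀ i j n, Has E P [i, j, n] → ((∃ o, IsNum E 1 o ∧ Has E c [n, o]) ↔
      ∃ a b, Has E f [a, i] ∧ Has E f [b, j] ∧ (E a b ∨ a = b))

/-- `l` is the least number with `a ∈ L(l)`, and `k = L(l)`. -/
def LeastL (L l k a : M) : Prop :=
  Has E L [l, k] ∧ E a k ∧ ∀ l' k', E l' l → Has E L [l', k'] → ¬ E a k'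

/-- `r` decides a code of an injection of `k` into `ω` at stage `a`. -/
def GZ (w S B C P a r k : M) : Prop := ∃ c f, Gd E w S B C a r c ∧ ZC E w P c k f

/-- The name of an injection of `ω₁` into `ω`. -/
def NN (w S B C P L q a n : M) : Prop :=
  ∃ l k x c f i, LeastL E L l k a ∧ Gd E w S B C x q c ∧ ZC E w P c k f ∧
    (∀ x' r, E x' x → E r S → Sub E r q → ¬ GZ E w S B C P x' r k) ∧
    Has E f [a, i] ∧ Has E P [l, i, n]

variable {E}

theorem dfn_sub : Dfn2 E (Sub E) := by
  unfold Dfn2 Sub
  repeat' first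
    | assumption | exact CMap.id | apply CMap.fst | apply CMap.snd | exact CMap.const _
    | apply Dfn.mem | apply Dfn.eq | apply Dfn.not | apply Dfn.and | apply Dfn.or
    | apply Dfn.iff | apply Dfn.imp | refine Dfn.ex ?_ | refine Dfn.all ?_
    | refine Dfn.exu ?_ | exact Dfn.const _

theorem dfn_isEmp : Dfn1 E (IsEmp E) := by
  unfold Dfn1 IsEmp
  repeat' first
    | assumption | exact CMap.id | apply CMap.fst | apply CMap.snd | exact CMap.const _
    | apply Dfn.mem | apply Dfn.eq | apply Dfn.not | apply Dfn.and | apply Dfn.or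
    | apply Dfn.iff | apply Dfn.imp | refine Dfn.ex ?_ | refine Dfn.all ?_
    | refine Dfn.exu ?_ | exact Dfn.const _

theorem dfn_isSucc : Dfn2 E (IsSucc E) := by
  unfold Dfn2 IsSucc
  repeat' first
    | assumption | exact CMap.id | apply CMap.fst | apply CMap.snd | exact CMap.const _
    | apply Dfn.mem | apply Dfn.eq | apply Dfn.not | apply Dfn.and | apply Dfn.or
    | apply Dfn.iff | apply Dfn.imp | refine Dfn.ex ?_ | refine Dfn.all ?_
    | refine Dfn.exu ?_ | exact Dfn.const _

theorem dfn_isNum (n : ℕ) : Dfn1 E (IsNum E n) := by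
  induction n with
  | zero => exact dfn_isEmp
  | succ n ih =>
    unfold Dfn1 IsNum
    repeat' first
      | apply Dfn.comp1 ih | apply Dfn.comp2 dfn_isSucc
      | assumption | exact CMap.id | apply CMap.fst | apply CMap.snd | exact CMap.const _
      | apply Dfn.mem | apply Dfn.eq | apply Dfn.not | apply Dfn.and | apply Dfn.or
      | apply Dfn.iff | apply Dfn.imp | refine Dfn.ex ?_ | refine Dfn.all ?_
      | refine Dfn.exu ?_ | exact Dfn.const _

theorem dfn_isNode : Dfn2 E (IsNode E) := by
  unfold Dfn2 IsNode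
  repeat' first
    | apply Dfn.comp1 (dfn_isNum _) | apply Dfn.comp3 dfn_isFun
    | assumption | exact CMap.id | apply CMap.fst | apply CMap.snd | exact CMap.const _
    | apply Dfn.mem | apply Dfn.eq | apply Dfn.not | apply Dfn.and | apply Dfn.or
    | apply Dfn.iff | apply Dfn.imp | refine Dfn.ex ?_ | refine Dfn.all ?_
    | refine Dfn.exu ?_ | exact Dfn.const _

theorem dfn_len : Dfn3 E (Len E) := by
  unfold Dfn3 Len
  repeat' first
    | apply Dfn.comp1 (dfn_isNum _) | apply Dfn.comp3 dfn_isFun
    | assumption | exact CMap.id | apply CMap.fst | apply CMap.snd | exact CMap.const _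
    | apply Dfn.mem | apply Dfn.eq | apply Dfn.not | apply Dfn.and | apply Dfn.or
    | apply Dfn.iff | apply Dfn.imp | refine Dfn.ex ?_ | refine Dfn.all ?_
    | refine Dfn.exu ?_ | exact Dfn.const _

theorem dfn_child : Dfn4 E (Child E) := by
  unfold Dfn4 Child
  repeat' first
    | apply Dfn.comp1 (dfn_isNum _) | apply Dfn.comp3 dfn_isFun | apply Dfn.comp3 dfn_isPair
    | assumption | exact CMap.id | apply CMap.fst | apply CMap.snd | exact CMap.const _
    | apply Dfn.mem | apply Dfn.eq | apply Dfn.not | apply Dfn.and | apply Dfn.or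
    | apply Dfn.iff | apply Dfn.imp | refine Dfn.ex ?_ | refine Dfn.all ?_
    | refine Dfn.exu ?_ | exact Dfn.const _

theorem dfn_inDom : Dfn2 E (InDom E) := by
  unfold Dfn2 InDom
  repeat' first
    | apply Dfn.comp3 dfn_has2
    | assumption | exact CMap.id | apply CMap.fst | apply CMap.snd | exact CMap.const _
    | apply Dfn.mem | apply Dfn.eq | apply Dfn.not | apply Dfn.and | apply Dfn.or
    | apply Dfn.iff | apply Dfn.imp | refine Dfn.ex ?_ | refine Dfn.all ?_
    | refine Dfn.exu ?_ | exact Dfn.const _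

theorem dfn_spl : Dfn3 E (Spl E) := by
  unfold Dfn3 Spl
  repeat' first
    | apply Dfn.comp1 (dfn_isNum _) | apply Dfn.comp4 dfn_child
    | assumption | exact CMap.id | apply CMap.fst | apply CMap.snd | exact CMap.const _
    | apply Dfn.mem | apply Dfn.eq | apply Dfn.not | apply Dfn.and | apply Dfn.or
    | apply Dfn.iff | apply Dfn.imp | refine Dfn.ex ?_ | refine Dfn.all ?_
    | refine Dfn.exu ?_ | exact Dfn.const _

theorem dfn_LS : Dfn4 E (LS E) := by
  unfold Dfn4 LS Ne
  repeat' first
    | apply Dfn.comp2 dfn_sub | apply Dfn.comp2 dfn_isNode | apply Dfn.comp3 dfn_spl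
    | assumption | exact CMap.id | apply CMap.fst | apply CMap.snd | exact CMap.const _
    | apply Dfn.mem | apply Dfn.eq | apply Dfn.not | apply Dfn.and | apply Dfn.or
    | apply Dfn.iff | apply Dfn.imp | refine Dfn.ex ?_ | refine Dfn.all ?_
    | refine Dfn.exu ?_ | exact Dfn.const _

theorem dfn_Bk : Dfn5 E (Bk E) := by
  unfold Dfn5 Bk
  repeat' first
    | apply Dfn.comp1 dfn_isEmp | apply Dfn.comp2 dfn_isSucc | apply Dfn.comp3 dfn_has2
    | apply Dfn.comp4 dfn_LS
    | assumption | exact CMap.id | apply CMap.fst | apply CMap.snd | exact CMap.const _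
    | apply Dfn.mem | apply Dfn.eq | apply Dfn.not | apply Dfn.and | apply Dfn.or
    | apply Dfn.iff | apply Dfn.imp | refine Dfn.ex ?_ | refine Dfn.all ?_
    | refine Dfn.exu ?_ | exact Dfn.const _

theorem dfn_dirM : Dfn5 E (DirM E) := by
  unfold Dfn5 DirM
  repeat' first
    | apply Dfn.comp5 dfn_Bk | apply Dfn.comp4 dfn_child | apply Dfn.comp2 dfn_sub
    | assumption | exact CMap.id | apply CMap.fst | apply CMap.snd | exact CMap.const _
    | apply Dfn.mem | apply Dfn.eq | apply Dfn.not | apply Dfn.and | apply Dfn.or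
    | apply Dfn.iff | apply Dfn.imp | refine Dfn.ex ?_ | refine Dfn.all ?_
    | refine Dfn.exu ?_ | exact Dfn.const _

theorem dfn_settled : Dfn3 E (Settled E) := by
  unfold Dfn3 Settled
  repeat' first
    | apply Dfn.comp2 dfn_sub
    | assumption | exact CMap.id | apply CMap.fst | apply CMap.snd | exact CMap.const _
    | apply Dfn.mem | apply Dfn.eq | apply Dfn.not | apply Dfn.and | apply Dfn.or
    | apply Dfn.iff | apply Dfn.imp | refine Dfn.ex ?_ | refine Dfn.all ?_
    | refine Dfn.exu ?_ | exact Dfn.const _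

theorem dfn_settle : Dfn4 E (Settle E) := by
  unfold Dfn4 Settle
  repeat' first
    | apply Dfn.comp3 dfn_settled | apply Dfn.comp2 dfn_inDom
    | assumption | exact CMap.id | apply CMap.fst | apply CMap.snd | exact CMap.const _
    | apply Dfn.mem | apply Dfn.eq | apply Dfn.not | apply Dfn.and | apply Dfn.or
    | apply Dfn.iff | apply Dfn.imp | refine Dfn.ex ?_ | refine Dfn.all ?_
    | refine Dfn.exu ?_ | exact Dfn.const _

theorem dfn_codeM : Dfn4 E (CodeM E) := by
  unfold Dfn4 CodeM
  repeat' first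
    | apply Dfn.comp5 dfn_dirM | apply Dfn.comp3 dfn_spl | apply Dfn.comp2 dfn_inDom
    | apply Dfn.comp3 dfn_has2
    | assumption | exact CMap.id | apply CMap.fst | apply CMap.snd | exact CMap.const _
    | apply Dfn.mem | apply Dfn.eq | apply Dfn.not | apply Dfn.and | apply Dfn.or
    | apply Dfn.iff | apply Dfn.imp | refine Dfn.ex ?_ | refine Dfn.all ?_
    | refine Dfn.exu ?_ | exact Dfn.const _

theorem dfn_codeOf : Dfn3 E (CodeOf E) := by
  unfold Dfn3 CodeOf
  repeat' first
    | apply Dfn.comp3 dfn_has2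
    | assumption | exact CMap.id | apply CMap.fst | apply CMap.snd | exact CMap.const _
    | apply Dfn.mem | apply Dfn.eq | apply Dfn.not | apply Dfn.and | apply Dfn.or
    | apply Dfn.iff | apply Dfn.imp | refine Dfn.ex ?_ | refine Dfn.all ?_
    | refine Dfn.exu ?_ | exact Dfn.const _

theorem dfn_inX : Dfn3 E (InX E) := by
  unfold Dfn3 InX
  repeat' first
    | apply Dfn.comp3 dfn_codeOf
    | assumption | exact CMap.id | apply CMap.fst | apply CMap.snd | exact CMap.const _
    | apply Dfn.mem | apply Dfn.eq | apply Dfn.not | apply Dfn.and | apply Dfn.or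
    | apply Dfn.iff | apply Dfn.imp | refine Dfn.ex ?_ | refine Dfn.all ?_
    | refine Dfn.exu ?_ | exact Dfn.const _

/-- With parameters `w, S, B, C`. -/
theorem dfn_gd (w S B C : M) : Dfn3 E (Gd E w S B C) := by
  unfold Dfn3 Gd
  repeat' first
    | apply Dfn.comp3 dfn_has2 | apply Dfn.comp3 dfn_inX | apply Dfn.comp2 dfn_sub
    | apply Dfn.comp4 dfn_settle | apply Dfn.comp4 dfn_codeM
    | assumption | exact CMap.id | apply CMap.fst | apply CMap.snd | exact CMap.const _
    | apply Dfn.mem | apply Dfn.eq | apply Dfn.not | apply Dfn.and | apply Dfn.or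
    | apply Dfn.iff | apply Dfn.imp | refine Dfn.ex ?_ | refine Dfn.all ?_
    | refine Dfn.exu ?_ | exact Dfn.const _

/-- With parameters `S, B, X, g, q`. -/
theorem dfn_settN (S B X g q : M) : Dfn2 E (SettN E S B X g q) := by
  unfold Dfn2 SettN
  repeat' first
    | apply Dfn.comp3 dfn_has2 | apply Dfn.comp3 dfn_codeOf | apply Dfn.comp3 dfn_settled
    | assumption | exact CMap.id | apply CMap.fst | apply CMap.snd | exact CMap.const _
    | apply Dfn.mem | apply Dfn.eq | apply Dfn.not | apply Dfn.and | apply Dfn.or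
    | apply Dfn.iff | apply Dfn.imp | refine Dfn.ex ?_ | refine Dfn.all ?_
    | refine Dfn.exu ?_ | exact Dfn.const _

/-- With parameters `w, S, B, X, g, q, c`. -/
theorem dfn_nxM (w S B X g q c : M) : Dfn3 E (NxM E w S B X g q c) := by
  unfold Dfn3 NxM
  repeat' first
    | apply Dfn.comp3 dfn_has2 | apply Dfn.comp3 dfn_spl | apply Dfn.comp2 dfn_sub
    | apply Dfn.comp5 dfn_dirM | apply Dfn.comp2 (dfn_settN S B X g q)
    | assumption | exact CMap.id | apply CMap.fst | apply CMap.snd | exact CMap.const _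
    | apply Dfn.mem | apply Dfn.eq | apply Dfn.not | apply Dfn.and | apply Dfn.or
    | apply Dfn.iff | apply Dfn.imp | refine Dfn.ex ?_ | refine Dfn.all ?_
    | refine Dfn.exu ?_ | exact Dfn.const _

/-- With parameters `w, S, B, X, g, q, c`. -/
theorem dfn_nxLM (w S B X g q c : M) : Dfn3 E (NxLM E w S B X g q c) := by
  unfold Dfn3 NxLM
  repeat' first
    | apply Dfn.comp3 dfn_has2 | apply Dfn.comp3 (dfn_nxM w S B X g q c)
    | assumption | exact CMap.id | apply CMap.fst | apply CMap.snd | exact CMap.const _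
    | apply Dfn.mem | apply Dfn.eq | apply Dfn.not | apply Dfn.and | apply Dfn.or
    | apply Dfn.iff | apply Dfn.imp | refine Dfn.ex ?_ | refine Dfn.all ?_
    | refine Dfn.exu ?_ | exact Dfn.const _

/-- With parameters `w, P`. -/
theorem dfn_ZC (w P : M) : Dfn3 E (ZC E w P) := by
  unfold Dfn3 ZC
  repeat' first
    | apply Dfn.comp1 (dfn_isNum _) | apply Dfn.comp3 dfn_isFun | apply Dfn.comp3 dfn_has2
    | apply Dfn.comp4 dfn_has3
    | assumption | exact CMap.id | apply CMap.fst | apply CMap.snd | exact CMap.const _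
    | apply Dfn.mem | apply Dfn.eq | apply Dfn.not | apply Dfn.and | apply Dfn.or
    | apply Dfn.iff | apply Dfn.imp | refine Dfn.ex ?_ | refine Dfn.all ?_
    | refine Dfn.exu ?_ | exact Dfn.const _

theorem dfn_leastL (L : M) : Dfn3 E (LeastL E L) := by
  unfold Dfn3 LeastL
  repeat' first
    | apply Dfn.comp3 dfn_has2
    | assumption | exact CMap.id | apply CMap.fst | apply CMap.snd | exact CMap.const _
    | apply Dfn.mem | apply Dfn.eq | apply Dfn.not | apply Dfn.and | apply Dfn.or
    | apply Dfn.iff | apply Dfn.imp | refine Dfn.ex ?_ | refine Dfn.all ?_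
    | refine Dfn.exu ?_ | exact Dfn.const _

theorem dfn_GZ (w S B C P : M) : Dfn3 E (GZ E w S B C P) := by
  unfold Dfn3 GZ
  repeat' first
    | apply Dfn.comp3 (dfn_gd w S B C) | apply Dfn.comp3 (dfn_ZC w P)
    | assumption | exact CMap.id | apply CMap.fst | apply CMap.snd | exact CMap.const _
    | apply Dfn.mem | apply Dfn.eq | apply Dfn.not | apply Dfn.and | apply Dfn.or
    | apply Dfn.iff | apply Dfn.imp | refine Dfn.ex ?_ | refine Dfn.all ?_
    | refine Dfn.exu ?_ | exact Dfn.const _

theorem dfn_NN (w S B C P L : M) : Dfn3 E (NN E w S B C P L) := by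
  unfold Dfn3 NN
  repeat' first
    | apply Dfn.comp3 (dfn_gd w S B C) | apply Dfn.comp3 (dfn_ZC w P)
    | apply Dfn.comp3 (dfn_GZ w S B C P) | apply Dfn.comp3 (dfn_leastL L)
    | apply Dfn.comp3 dfn_has2 | apply Dfn.comp4 dfn_has3 | apply Dfn.comp2 dfn_sub
    | assumption | exact CMap.id | apply CMap.fst | apply CMap.snd | exact CMap.const _
    | apply Dfn.mem | apply Dfn.eq | apply Dfn.not | apply Dfn.and | apply Dfn.or
    | apply Dfn.iff | apply Dfn.imp | refine Dfn.ex ?_ | refine Dfn.all ?_
    | refine Dfn.exu ?_ | exact Dfn.const _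

end Pool.Agent.SCG
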