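import Pool.Agent.SCG.N3

/-! [SCG-T1] Perfect trees of `M` and perfect sets of lists. -/

set_option linter.unusedVariables false
set_option linter.unusedTactic false
set_option linter.unreachableTactic false

namespace Pool.Agent.SCG

open SetModel MP63050e Pool.Agent.SM

universe u

variable {M : Type u} {E : M → M → Prop}

theorem t1_fork_aux (l₁ : List Bool) : ∀ (l₂ s : List Bool), ¬ (l₁ ++ s <:+ l₂ ++ s) →
    ¬ (l₂ ++ s <:+ l₁ ++ s) → ∃ t, s <:+ t ∧ ((false :: t <:+ l₁ ++ s ∧ true :: t <:+ l₂ ++ s) ∨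
      (true :: t <:+ l₁ ++ s ∧ false :: t <:+ l₂ ++ s)) := by
  induction l₁ using List.reverseRecOn with
  | nil => intro l₂ s h1 _; exact (h1 (List.suffix_append l₂ s)).elim
  | append_singleton l₁ a ih =>
    intro l₂ s h1 h2
    rcases List.eq_nil_or_concat l₂ with rfl | ⟨l₂, b, rfl⟩
    · exact (h2 (List.suffix_append _ s)).elim
    · simp only [List.append_assoc, List.singleton_append, List.concat_eq_append] at h1 h2 ⊢
      by_cases hab : a = b
      · subst hab
        obtain ⟨t, ht, h⟩ := ih l₂ (a :: s) h1 h2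
        exact ⟨t, (List.suffix_cons a s).trans ht, h⟩
      · refine ⟨s, List.suffix_refl s, ?_⟩
        have ha : a :: s <:+ l₁ ++ a :: s := List.suffix_append _ _
        have hb : b :: s <:+ l₂ ++ b :: s := List.suffix_append _ _
        cases a <;> cases b
        · exact (hab rfl).elim
        · exact Or.inl ⟨ha, hb⟩
        · exact Or.inr ⟨ha, hb⟩
        · exact (hab rfl).elim

theorem t1_fork {s t₁ t₂ : List Bool} (h₁ : s <:+ t₁) (h₂ : s <:+ t₂) (n₁ : ¬ t₁ <:+ t₂)
    (n₂ : ¬ t₂ <:+ t₁) : ∃ t, s <:+ t ∧ ((false :: t <:+ t₁ ∧ true :: t <:+ t₂) ∨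
      (true :: t <:+ t₁ ∧ false :: t <:+ t₂)) := by
  obtain ⟨l₁, rfl⟩ := h₁
  obtain ⟨l₂, rfl⟩ := h₂
  exact t1_fork_aux l₁ l₂ s n₁ n₂

/-- A perfect set of lists is closed under suffixes. -/
theorem Perf.suffix {q : Set (List Bool)} (hq : Perf q) {s t : List Bool} (h : s <:+ t)
    (ht : t ∈ q) : s ∈ q := by
  obtain ⟨l, rfl⟩ := h
  induction l with
  | nil => exact ht
  | cons b l ih => exact ih (hq.tail b _ ht)

/-- Translation of `IsPerfect`. For the forward direction, `split`: two incompatible extensions of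
`s` in `T` are not suffixes of each other; their longest common suffix `t` has both children in `T`.
(Lemma: if `t₁, t₂` are lists with `s <:+ t₁`, `s <:+ t₂` and neither is a suffix of the other, then
there is `t` with `s <:+ t` and `false :: t <:+ t₁ ∧ true :: t <:+ t₂` or the other way round.)
`root`: `[] <:+ s`. Backward: `false :: t` and `true :: t` are incompatible extensions. -/
theorem isPerfect_iff (hM : IsModelZF E) {w T : M} (hw : IsOmega E w)
    (hst : ∀ x, E x w → ∃ n, IsNum E n x) :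
    IsPerfect E w T ↔ (∀ x, E x T → ∃ s, x = nd hM s) ∧ Perf (tr hM T) := by
  constructor
  · rintro ⟨h1, h2, h3, h4⟩
    have hnd : ∀ x, E x T → ∃ s, x = nd hM s := fun x hx => (isNode_iff hM hw hst).1 (h2 x hx)
    have hsuf : ∀ s t : List Bool, s <:+ t → t ∈ tr hM T → s ∈ tr hM T := by
      intro s t hst' ht
      exact h3 (nd hM t) (nd hM s) ht ((isNode_iff hM hw hst).2 ⟨s, rfl⟩) ((sub_nd hM).2 hst')
    refine ⟨hnd, ?_, ?_, ?_⟩
    · obtain ⟨x, hx⟩ := h1
      obtain ⟨s, rfl⟩ := hnd x hx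
      exact hsuf [] s (List.nil_suffix) hx
    · intro b s hs
      exact hsuf s (b :: s) (List.suffix_cons b s) hs
    · intro s hs
      obtain ⟨x, y, hx, hy, h5, h6, h7, h8⟩ := h4 (nd hM s) hs
      obtain ⟨t₁, rfl⟩ := hnd x hx
      obtain ⟨t₂, rfl⟩ := hnd y hy
      rw [sub_nd hM] at h5 h6 h7 h8
      obtain ⟨t, ht, h | h⟩ := t1_fork h5 h6 h7 h8
      · exact ⟨t, ht, hsuf _ _ h.1 hx, hsuf _ _ h.2 hy⟩
      · exact ⟨t, ht, hsuf _ _ h.2 hy, hsuf _ _ h.1 hx⟩
  · rintro ⟨hnd, hP⟩
    refine ⟨⟨nd hM [], hP.root⟩, fun s hs => (isNode_iff hM hw hst).2 (hnd s hs), ?_, ?_⟩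
    · intro s t hs ht hts
      obtain ⟨s, rfl⟩ := hnd s hs
      obtain ⟨t, rfl⟩ := (isNode_iff hM hw hst).1 ht
      exact hP.suffix ((sub_nd hM).1 hts) hs
    · intro s hs
      obtain ⟨s, rfl⟩ := hnd s hs
      obtain ⟨t, ht, h⟩ := hP.split s hs
      have hne : ∀ a b : Bool, a ≠ b → ¬ (a :: t <:+ b :: t) := by
        intro a b hab h
        have := h.eq_of_length (by simp)
        simp only [List.cons.injEq, and_true] at this
        exact hab this
      refine ⟨nd hM (false :: t), nd hM (true :: t), h.1, h.2, ?_, ?_, ?_, ?_⟩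
      · exact (sub_nd hM).2 (ht.trans (List.suffix_cons _ _))
      · exact (sub_nd hM).2 (ht.trans (List.suffix_cons _ _))
      · rw [sub_nd hM]; exact hne _ _ (by decide)
      · rw [sub_nd hM]; exact hne _ _ (by decide)

end Pool.Agent.SCG
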