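import Pool.Agent.SCG.Sys
import Pool.Agent.SCG.T1

/-! [SCG-G1] Codes of trees, and simple properties of `Gd`. -/

set_option linter.unusedVariables false
set_option linter.unusedTactic false
set_option linter.unreachableTactic false

namespace Pool.Agent.SCG

open SetModel MP63050e Pool.Agent.SM

universe u

variable {M : Type u} {E : M → M → Prop} {hM : IsModelZF E} {w S B : M} {b : List Bool → ℕ}

/-- The elements of `S` are sets of nodes and perfect (`isPerfect_iff`). -/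
theorem Sys.nodes (h : Sys hM w S B b) {T : M} (hT : E T S) : ∀ x, E x T → ∃ s, x = nd hM s := by
  have h1 := (h.hS T).1 hT
  rw [isPerfect_iff hM h.hw h.hst] at h1
  exact h1.1

theorem Sys.perf (h : Sys hM w S B b) {T : M} (hT : E T S) : Perf (tr hM T) := by
  have h1 := (h.hS T).1 hT
  rw [isPerfect_iff hM h.hw h.hst] at h1
  exact h1.2

/-- Conversely. -/
theorem Sys.mem_S (h : Sys hM w S B b) {T : M} (h1 : ∀ x, E x T → ∃ s, x = nd hM s)
    (h2 : Perf (tr hM T)) : E T S := by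
  rw [h.hS T, isPerfect_iff hM h.hw h.hst]
  exact ⟨h1, h2⟩

/-- The code determines the tree. -/
theorem Sys.codeOf_inj (h : Sys hM w S B b) {T T' x : M} (hT : ∀ x, E x T → ∃ s, x = nd hM s)
    (hT' : ∀ x, E x T' → ∃ s, x = nd hM s) (h1 : CodeOf E B T x) (h2 : CodeOf E B T' x) :
    T = T' := by
  have key : ∀ U U' : M, (∀ x, E x U → ∃ s, x = nd hM s) → CodeOf E B U x →
      CodeOf E B U' x → ∀ z, E z U → E z U' := by
    intro U U' hU h3 h4 z hz
    obtain ⟨s, rfl⟩ := hU z hz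
    have h5 : E (nu hM (b s)) x := (h3 _).2 ⟨_, hz, (h.hB _ _).2 ⟨s, rfl, rfl⟩⟩
    obtain ⟨s', hs', h6⟩ := (h4 _).1 h5
    obtain ⟨t, rfl, h7⟩ := (h.hB _ _).1 h6
    rw [nu_inj hM] at h7
    rwa [h.hb h7]
  exact ext hM fun z => ⟨key T T' hT h1 h2 z, key T' T hT' h2 h1 z⟩

/-- Every `T` has a code `x ⊆ ω`: separate from `w` (`dfn_has2`). -/
theorem Sys.exists_code (h : Sys hM w S B b) {T : M} (hT : ∀ x, E x T → ∃ s, x = nd hM s) :
    ∃ x, Sub E x w ∧ CodeOf E B T x := by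
  obtain ⟨x, hx⟩ := sep hM (D := fun m => ∃ s, E s T ∧ Has E B [s, m])
    (by unfold Dfn1
        repeat' first
          | apply Dfn.comp3 dfn_has2
          | assumption | exact CMap.id | apply CMap.fst | apply CMap.snd | exact CMap.const _
          | apply Dfn.mem | apply Dfn.eq | apply Dfn.not | apply Dfn.and | apply Dfn.or
          | apply Dfn.iff | apply Dfn.imp | refine Dfn.ex ?_ | refine Dfn.all ?_
          | refine Dfn.exu ?_ | exact Dfn.const _) w
  refine ⟨x, fun z hz => ((hx z).1 hz).1, fun m => ⟨fun hm => ((hx m).1 hm).2, ?_⟩⟩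
  rintro ⟨s, hs, hm⟩
  refine (hx m).2 ⟨?_, s, hs, hm⟩
  obtain ⟨t, -, rfl⟩ := (h.hB _ _).1 hm
  exact (mem_w hM h.hw h.hst).2 ⟨_, rfl⟩

/-- `Gd` is inherited by subsets (directly from the definitions; `Spl` is monotone). -/
theorem gd_mono {w S B C a r r' c : M} (h : Gd E w S B C a r c) (hr : Sub E r' r) :
    Gd E w S B C a r' c := by
  obtain ⟨X, q, h1, h2, h3, h4, h5, h6⟩ := h
  refine ⟨X, q, h1, h2, h3, fun z hz => h4 z (hr z hz), fun T hT hX => ?_, fun n b hn => ?_⟩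
  · obtain ⟨k, hk, h7⟩ := h5 T hT hX
    exact ⟨k, hk, fun s hs => h7 s (hr s hs)⟩
  · obtain ⟨k, hk, h7⟩ := h6 n b hn
    refine ⟨k, hk, fun v hv hd hs => h7 v (hr v hv) hd ?_⟩
    obtain ⟨z, o, u0, u1, a1, a2, a3, a4, a5, a6⟩ := hs
    exact ⟨z, o, u0, u1, a1, a2, a3, a4, hr _ a5, hr _ a6⟩

end Pool.Agent.SCG
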