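import Pool.Agent.SCG.G1
import Pool.Agent.SCG.F2
import Pool.Agent.SCG.A1

/-! [SCG-G2] Uniqueness of the decoded real. -/

set_option linter.unusedVariables false
set_option linter.unusedTactic false
set_option linter.unreachableTactic false

namespace Pool.Agent.SCG

open SetModel MP63050e Pool.Agent.SM

universe u

variable {M : Type u} {E : M → M → Prop} {hM : IsModelZF E} {w S B : M} {b : List Bool → ℕ}

theorem Sys.g2_aux (h : Sys hM w S B b) {X r q q' : M} (hr : E r S) (hq : E q S) (hq' : E q' S)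
    (hX : InX E B X q') (hsub : Sub E r q') (hset : ∀ T, E T S → InX E B X T → Settle E w q r T) :
    ∃ K, ∀ s ∈ tr hM r, K < s.length → ∀ t, s <:+ t → t ∈ tr hM q → t ∈ tr hM q' := by
  obtain ⟨K, hK⟩ := (settle_iff hM h.hw h.hst (h.nodes hq) (h.nodes hr)).1 (hset q' hq' hX)
  refine ⟨K, ?_⟩
  intro s hs hKs t hst ht
  rcases hK s hs hKs with h1 | h1
  · exact (h1 (hsub _ hs)).elim
  · exact h1 t ht hst

theorem g2_sub {r q : M} (hsub : Sub E r q) : tr hM r ⊆ tr hM q := fun s hs => hsub _ hs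

theorem g2_ext {c₁ c₂ : M} {f : ℕ → Bool} (hc₁ : IsFun E c₁ w (nu hM 2))
    (h₁ : ∀ x y, Has E c₁ [x, y] ↔ ∃ n, x = nu hM n ∧ y = bt hM (f n))
    (h₂ : ∀ x y, Has E c₂ [x, y] ↔ ∃ n, x = nu hM n ∧ y = bt hM (f n)) {z : M} (hz : E z c₁) :
    E z c₂ := by
  obtain ⟨x, y, -, -, hp⟩ := hc₁.1 z hz
  rw [isPair_iff hM] at hp
  subst hp
  have h3 : Has E c₁ [x, y] := (has2_iff hM).2 hz
  exact (has2_iff hM).1 ((h₂ x y).2 ((h₁ x y).1 h3))

/-- Let `X, q₁` and `X', q₂` witness the two hypotheses; `X = X'` by `hC`. As `q₂ ∈ S` and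
`InX E B X q₂`, `Settle E w q₁ r q₂`; by `settle_iff` all long `s ∈ r` satisfy `Sett (tr q₁) (tr q₂) s`,
and `s ∈ r ⊆ q₂`, so all `t ∈ tr q₁` above `s` belong to `tr q₂`. By symmetry `hag` of `dir_unique` holds.
Get `f₁, f₂ : ℕ → Bool` from `exists_bits`, use `codeM_iff` and `dir_unique` for every `n` to get
`f₁ = f₂`, and conclude with `ext` (the elements of `c₁` are pairs). -/
theorem Sys.gd_unique (h : Sys hM w S B b) {C a r c₁ c₂ : M}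
    (hC : ∀ a X X', Has E C [a, X] → Has E C [a, X'] → X = X') (hr : E r S)
    (hc₁ : IsFun E c₁ w (nu hM 2)) (hc₂ : IsFun E c₂ w (nu hM 2))
    (h₁ : Gd E w S B C a r c₁) (h₂ : Gd E w S B C a r c₂) : c₁ = c₂ := by
  obtain ⟨X, q₁, hX, hq₁, hXq₁, hsub₁, hset₁, hcode₁⟩ := h₁
  obtain ⟨X', q₂, hX', hq₂, hXq₂, hsub₂, hset₂, hcode₂⟩ := h₂
  obtain rfl := hC a X X' hX hX'
  obtain ⟨f₁, hf₁⟩ := exists_bits hM h.hw h.hst hc₁
  obtain ⟨f₂, hf₂⟩ := exists_bits hM h.hw h.hst hc₂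
  obtain ⟨K₁, hK₁⟩ := h.g2_aux hr hq₁ hq₂ hXq₂ hsub₂ hset₁
  obtain ⟨K₂, hK₂⟩ := h.g2_aux hr hq₂ hq₁ hXq₁ hsub₁ hset₂
  have hag : ∀ s ∈ tr hM r, max K₁ K₂ < s.length → ∀ t, s <:+ t → (t ∈ tr hM q₁ ↔ t ∈ tr hM q₂) := by
    intro s hs hKs t hst
    exact ⟨hK₁ s hs (lt_of_le_of_lt (le_max_left _ _) hKs) t hst,
      hK₂ s hs (lt_of_le_of_lt (le_max_right _ _) hKs) t hst⟩
  rw [codeM_iff hM h.hw h.hst (h.nodes hr) hf₁] at hcode₁
  rw [codeM_iff hM h.hw h.hst (h.nodes hr) hf₂] at hcode₂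
  have hff : f₁ = f₂ := by
    funext n
    obtain ⟨A₁, hA₁⟩ := hcode₁ n
    obtain ⟨A₂, hA₂⟩ := hcode₂ n
    refine dir_unique (K := max A₁ A₂) (h.perf hr) (g2_sub hsub₁) (g2_sub hsub₂) hag (n := n)
      (fun v hv hKv hsp => hA₁ v hv (lt_of_le_of_lt (le_max_left _ _) hKv) hsp)
      (fun v hv hKv hsp => hA₂ v hv (lt_of_le_of_lt (le_max_right _ _) hKv) hsp)
  subst hff
  exact ext hM fun z => ⟨fun hz => g2_ext hc₁ hf₁ hf₂ hz, fun hz => g2_ext hc₂ hf₂ hf₁ hz⟩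

end Pool.Agent.SCG
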