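import Pool.Agent.SCG.G1
import Pool.Agent.SCG.F2

/-! [SCG-G3] Translation of the formulas `SettN`, `NxM`, `NxLM`. -/

set_option linter.unusedVariables false
set_option linter.unusedTactic false
set_option linter.unreachableTactic false

namespace Pool.Agent.SCG

open SetModel MP63050e Pool.Agent.SM

universe u

variable {M : Type u} {E : M → M → Prop} {hM : IsModelZF E} {w S B : M} {b : List Bool → ℕ}

/-- `T ∈ S` is closed under initial segments. -/
theorem Sys.TT_tail (h : Sys hM w S B b) {X g : M} (n : ℕ) (β : Bool) (s : List Bool)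
    (hs : β :: s ∈ TT hM S B X g n) : s ∈ TT hM S B X g n := by
  intro T x hT hx hX hg
  exact (h.perf hT).tail β s (hs T x hT hx hX hg)

/-- As `g` is injective and codes determine trees, `T` is the only tree with number `n`. -/
theorem Sys.TT_eq (h : Sys hM w S B b) {X g T x : M} {n : ℕ}
    (hinj : ∀ x x' y, E x X → E x' X → Has E g [x, y] → Has E g [x', y] → x = x') (hT : E T S)
    (hx : CodeOf E B T x) (hX : E x X) (hg : Has E g [x, nu hM n]) :
    TT hM S B X g n = tr hM T := by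
  ext s
  constructor
  · intro hs
    exact hs T x hT hx hX hg
  · intro hs T' x' hT' hx' hX' hg'
    obtain rfl := hinj x x' _ hX hX' hg hg'
    obtain rfl := h.codeOf_inj (h.nodes hT) (h.nodes hT') hx hx'
    exact hs

/-- If there is no tree with number `n`, both sides are true. Otherwise use `TT_eq`, `settled_iff`. -/
theorem Sys.settN_iff (h : Sys hM w S B b) {X g q : M} {n : ℕ} {v : List Bool}
    (hinj : ∀ x x' y, E x X → E x' X → Has E g [x, y] → Has E g [x', y] → x = x') (hq : E q S) :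
    SettN E S B X g q (nu hM n) (nd hM v) ↔ Sett (tr hM q) (TT hM S B X g n) v := by
  constructor
  · intro h1
    by_cases hex : ∃ T x, E T S ∧ CodeOf E B T x ∧ E x X ∧ Has E g [x, nu hM n]
    · obtain ⟨T, x, hT, hx, hX, hg⟩ := hex
      rw [h.TT_eq hinj hT hx hX hg]
      exact (settled_iff hM (h.nodes hq)).1 (h1 T x hT hx hX hg)
    · right
      intro t _ _ T x hT hx hX hg
      exact (hex ⟨T, x, hT, hx, hX, hg⟩).elim
  · intro h1 T x hT hx hX hg
    rw [h.TT_eq hinj hT hx hX hg] at h1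
    exact (settled_iff hM (h.nodes hq)).2 h1

/-- From `spl_iff`, `sub_nd`, `settN_iff`, `dirM_iff`, `mem_nu`, `hf`. -/
theorem Sys.nxM_iff (h : Sys hM w S B b) {X g q c x : M} {n : ℕ} {s : List Bool} {f : ℕ → Bool}
    (hinj : ∀ x x' y, E x X → E x' X → Has E g [x, y] → Has E g [x', y] → x = x') (hq : E q S)
    (hf : ∀ x y, Has E c [x, y] ↔ ∃ n, x = nu hM n ∧ y = bt hM (f n)) :
    NxM E w S B X g q c (nu hM n) (nd hM s) x ↔
      ∃ v, x = nd hM v ∧ Nxt (tr hM q) (TT hM S B X g) f n s v := by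
  constructor
  · rintro ⟨h1, h2, h3, h4⟩
    obtain ⟨v, rfl, h5⟩ := (spl_iff hM h.hw h.hst).1 h1
    refine ⟨v, rfl, h5, (sub_nd hM).1 h2, (h.settN_iff hinj hq).1 h3, ?_⟩
    intro i hi
    have h6 : E (nu hM i) (nu hM n) ∨ nu hM i = nu hM n := by
      rcases hi.lt_or_eq with h7 | h7
      · exact Or.inl (nu_mem_nu hM h7)
      · exact Or.inr (by rw [h7])
    obtain ⟨b', hb', hd⟩ := (dirM_iff hM h.hw h.hst).1
      (h4 (nu hM i) (bt hM (f i)) h6 ((hf _ _).2 ⟨i, rfl, rfl⟩))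
    rw [bt_inj hM] at hb'
    rw [hb']
    exact hd
  · rintro ⟨v, rfl, h1, h2, h3, h4⟩
    refine ⟨(spl_iff hM h.hw h.hst).2 ⟨v, rfl, h1⟩, (sub_nd hM).2 h2,
      (h.settN_iff hinj hq).2 h3, ?_⟩
    intro i b' hi hc
    obtain ⟨m, hm, rfl⟩ : ∃ m, m ≤ n ∧ i = nu hM m := by
      rcases hi with hi | hi
      · obtain ⟨m, hm, rfl⟩ := (mem_nu hM).1 hi
        exact ⟨m, hm.le, rfl⟩
      · exact ⟨n, le_rfl, hi⟩
    obtain ⟨m', hm', rfl⟩ := (hf _ _).1 hc
    rw [nu_inj hM] at hm'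
    subst hm'
    exact (dirM_iff hM h.hw h.hst).2 ⟨f m, rfl, h4 m hm⟩

theorem Sys.nxLM_iff (h : Sys hM w S B b) {X g q c x : M} {n : ℕ} {s : List Bool} {f : ℕ → Bool}
    (hinj : ∀ x x' y, E x X → E x' X → Has E g [x, y] → Has E g [x', y] → x = x') (hq : E q S)
    (hf : ∀ x y, Has E c [x, y] ↔ ∃ n, x = nu hM n ∧ y = bt hM (f n)) :
    NxLM E w S B X g q c (nu hM n) (nd hM s) x ↔
      ∃ v, x = nd hM v ∧ NxtL (tr hM q) (TT hM S B X g) f b n s v := by
  constructor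
  · rintro ⟨h1, h2⟩
    obtain ⟨v, rfl, h3⟩ := (h.nxM_iff hinj hq hf).1 h1
    refine ⟨v, rfl, h3, ?_⟩
    intro v' hv'
    have h4 := h2 (nd hM v') (nu hM (b v)) (nu hM (b v')) ((h.nxM_iff hinj hq hf).2 ⟨v', rfl, hv'⟩)
      ((h.hB _ _).2 ⟨v, rfl, rfl⟩) ((h.hB _ _).2 ⟨v', rfl, rfl⟩)
    rcases h4 with h4 | h4
    · exact ((nu_mem_iff hM).1 h4).le
    · exact ((nu_inj hM).1 h4).le
  · rintro ⟨v, rfl, h1, h2⟩
    refine ⟨(h.nxM_iff hinj hq hf).2 ⟨v, rfl, h1⟩, ?_⟩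
    intro y z z' hy hz hz'
    obtain ⟨u, rfl, hu⟩ := (h.nxM_iff hinj hq hf).1 hy
    obtain ⟨v', hv', rfl⟩ := (h.hB _ _).1 hz
    obtain ⟨u', hu', rfl⟩ := (h.hB _ _).1 hz'
    rw [nd_inj hM] at hv' hu'
    subst hv' hu'
    rcases (h2 u hu).lt_or_eq with h3 | h3
    · exact Or.inl (nu_mem_nu hM h3)
    · exact Or.inr (by rw [h3])

end Pool.Agent.SCG
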