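import Pool.Agent.SCG.R1

/-! [SCG-R2] Recursion along the nodes. -/

set_option linter.unusedVariables false
set_option linter.unusedTactic false
set_option linter.unreachableTactic false

namespace Pool.Agent.SCG

open SetModel MP63050e Pool.Agent.SM

universe u

variable {M : Type u} {E : M → M → Prop}

/-- Recursion along `2^{<ω}`: if the step from `h s` to `h (b :: s)` is definable (relation `R`), and
all values belong to some `Y`, then the graph of `h` belongs to `M`.
Proof: separate from `W × Y` (`exists_nodes`) with the formula `Q p := ∃ x z, IsPair E p x z ∧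
∃ A, Has E A [x, z] ∧ ∀ m y, Has E A [m, y] → (IsEmp E m ∧ y = h []) ∨
∃ m' y' b, Child E w m' m b ∧ Has E A [m', y'] ∧ R m' b y' y`. Soundness: by induction on `s`,
`Has E A [nd s, y] → y = h s` (`child_iff`, `nd_inj`, `hstep`). Completeness: take for `A` the finite
set of the pairs `pr E (nd t) (h t)`, `t <:+ s` (`exists_finite`; finiteness: `s.tails`). -/
theorem exists_recNode (hM : IsModelZF E) {w : M} (hw : IsOmega E w)
    (hst : ∀ x, E x w → ∃ n, IsNum E n x) {h : List Bool → M} {Y : M} (hY : ∀ s, E (h s) Y)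
    {R : M → M → M → M → Prop} (hR : Dfn4 E R)
    (hstep : ∀ s b z, R (nd hM s) (bt hM b) (h s) z ↔ z = h (b :: s)) :
    ∃ H, ∀ x z, Has E H [x, z] ↔ ∃ s, x = nd hM s ∧ z = h s := by
  obtain ⟨W, hW⟩ := exists_nodes hM hw hst
  obtain ⟨D, hD⟩ := exists_prod hM W Y
  obtain ⟨H, hH⟩ := sep hM (D := fun p => ∃ x z, IsPair E p x z ∧
    ∃ A, Has E A [x, z] ∧ ∀ m y, Has E A [m, y] → (IsEmp E m ∧ y = h []) ∨
      ∃ m' y' b, Child E w m' m b ∧ Has E A [m', y'] ∧ R m' b y' y)
    (by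
      unfold Dfn1
      repeat' first
        | apply Dfn.comp4 hR | apply Dfn.comp4 dfn_child | apply Dfn.comp1 dfn_isEmp
        | apply Dfn.comp3 dfn_has2 | apply Dfn.comp3 dfn_isPair
        | assumption | exact CMap.id | apply CMap.fst | apply CMap.snd | exact CMap.const _
        | apply Dfn.mem | apply Dfn.eq | apply Dfn.not | apply Dfn.and | apply Dfn.or
        | apply Dfn.iff | apply Dfn.imp | refine Dfn.ex ?_ | refine Dfn.all ?_
        | refine Dfn.exu ?_ | exact Dfn.const _) D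
  have sound : ∀ A : M, (∀ m y, Has E A [m, y] → (IsEmp E m ∧ y = h []) ∨
      ∃ m' y' b, Child E w m' m b ∧ Has E A [m', y'] ∧ R m' b y' y) →
      ∀ (s : List Bool) (y : M), Has E A [nd hM s, y] → y = h s := by
    intro A hA s
    induction s with
    | nil =>
      intro y hy
      rcases hA _ _ hy with ⟨-, h1⟩ | ⟨m', y', b, hc, -, -⟩
      · exact h1
      · obtain ⟨s, b', -, h2, -⟩ := (child_iff hM hw hst).1 hc
        exact absurd ((nd_inj hM).1 h2) (by simp)
    | cons b s ih =>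
      intro y hy
      rcases hA _ _ hy with ⟨h1, -⟩ | ⟨m', y', b', hc, hy', hR'⟩
      · have h2 : nd hM (b :: s) = nd hM [] := (isEmp_iff hM).1 h1
        exact absurd ((nd_inj hM).1 h2) (by simp)
      · obtain ⟨s', b'', h1, h2, h3⟩ := (child_iff hM hw hst).1 hc
        have h4 := (nd_inj hM).1 h2
        obtain ⟨rfl, rfl⟩ := List.cons.inj h4
        subst h1 h3
        rw [ih _ hy'] at hR'
        exact (hstep _ _ _).1 hR'
  have complete : ∀ s : List Bool, ∃ A, Has E A [nd hM s, h s] ∧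
      ∀ m y, Has E A [m, y] → (IsEmp E m ∧ y = h []) ∨
        ∃ m' y' b, Child E w m' m b ∧ Has E A [m', y'] ∧ R m' b y' y := by
    intro s
    have hfin : ((fun t => pr E (nd hM t) (h t)) '' {t | t <:+ s}).Finite := by
      refine Set.Finite.image _ (Set.Finite.subset (List.finite_toSet s.tails) ?_)
      intro t ht
      exact (List.mem_tails t s).2 ht
    obtain ⟨A, hA⟩ := exists_finite hM hfin
    have hA' : ∀ t, t <:+ s → Has E A [nd hM t, h t] := fun t ht =>
      (has2_iff hM).2 ((hA _).2 ⟨t, ht, rfl⟩)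
    refine ⟨A, hA' s (List.suffix_refl s), fun m y hmy => ?_⟩
    obtain ⟨t, ht, h1⟩ := (hA _).1 ((has2_iff hM).1 hmy)
    obtain ⟨rfl, rfl⟩ := (pr_inj hM).1 h1
    rcases t with _ | ⟨b, t⟩
    · exact Or.inl ⟨emp_spec hM, rfl⟩
    · exact Or.inr ⟨nd hM t, h t, bt hM b, (child_iff hM hw hst).2 ⟨t, b, rfl, rfl, rfl⟩,
        hA' t ((List.suffix_cons b t).trans ht), (hstep _ _ _).2 rfl⟩
  refine ⟨H, fun x z => ?_⟩
  rw [has2_iff hM, hH, hD]
  constructor
  · rintro ⟨⟨a, c, ha, -, h1⟩, x', z', h2, A, h3, h4⟩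
    obtain ⟨rfl, rfl⟩ := (pr_inj hM).1 h1
    obtain ⟨rfl, rfl⟩ := (pr_inj hM).1 ((isPair_iff hM).1 h2)
    obtain ⟨s, rfl⟩ := (hW _).1 ha
    exact ⟨s, rfl, sound A h4 s _ h3⟩
  · rintro ⟨s, rfl, rfl⟩
    obtain ⟨A, h3, h4⟩ := complete s
    exact ⟨⟨_, _, (hW _).2 ⟨s, rfl⟩, hY s, rfl⟩, _, _, pr_spec hM _ _, A, h3, h4⟩

end Pool.Agent.SCG
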