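import Pool.Agent.SCG.G3
import Pool.Agent.SCG.R2
import Pool.Agent.SCG.A5
import Pool.Agent.SCG.A4

/-! [SCG-G4] The fusion inside `M`. -/

set_option linter.unusedVariables false
set_option linter.unusedTactic false
set_option linter.unreachableTactic false

namespace Pool.Agent.SCG

open SetModel MP63050e Pool.Agent.SM

universe u

variable {M : Type u} {E : M → M → Prop} {hM : IsModelZF E} {w S B : M} {b : List Bool → ℕ}

/-- Let `g : X → ω` be injective, `f` from `exists_bits`, `fr` from `exists_fusion` (with `q = tr hM q`,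
`T = TT hM S B X g`, `c = f`, `bc = b`). Apply `exists_recNode` to `h σ = nd hM (fr σ)`, `Y = q`,
`R τ β y z := ∃ n y', Len E w τ n ∧ Child E w y y' β ∧ NxLM E w S B X g q c n y' z` (definable by
`dfn_len`, `dfn_child`, `dfn_nxLM`; the step property from `len_iff`, `child_iff`, `nxLM_iff`, and two
nodes `v, v'` with `NxtL` have `b v = b v'`, so are equal). Let `H` be the graph, and `r` the set of
the `x ∈ q` with `∃ σ v, Has E H [σ, v] ∧ Sub E x v` (`sep`). Then
`tr hM r = {s | ∃ σ, s <:+ fr σ}` (`fusion_subset`), `r ∈ S` by `Sys.mem_S` and `perf_fusion`. The two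
conditions follow from `settle_iff`, `settle_fusion`, `TT_eq` (if the code `x ∈ X` of `T` has
`Has E g [x, nu n]`, then `TT … n = tr hM T`) and `codeM_iff`, `code_fusion`. -/
theorem Sys.exists_thin (h : Sys hM w S B b) {q X c : M} (hq : E q S) (hX : Injects E X w)
    (hc : IsFun E c w (nu hM 2)) :
    ∃ r, E r S ∧ Sub E r q ∧ (∀ T, E T S → InX E B X T → Settle E w q r T) ∧
      CodeM E w q r c := by
  obtain ⟨g, hg, hinj⟩ := hX
  obtain ⟨f, hf⟩ := exists_bits hM h.hw h.hst hc
  have hperf : Perf (tr hM q) := h.perf hq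
  have hnod : ∀ x, E x q → ∃ s, x = nd hM s := h.nodes hq
  have hT : ∀ n β s, β :: s ∈ TT hM S B X g n → s ∈ TT hM S B X g n :=
    fun n β s hs => h.TT_tail n β s hs
  obtain ⟨fr, hs, hfrL⟩ := exists_fusion (T := TT hM S B X g) hperf hT f b
  have hfr : ∀ β σ, Nxt (tr hM q) (TT hM S B X g) f σ.length (β :: fr σ) (fr (β :: σ)) :=
    fun β σ => (hfrL β σ).1
  have hfq : ∀ σ, E (nd hM (fr σ)) q := fun σ => hperf.tail _ _ (hs σ).1
  have huniq : ∀ n s v v', NxtL (tr hM q) (TT hM S B X g) f b n s v →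
      NxtL (tr hM q) (TT hM S B X g) f b n s v' → v = v' := by
    intro n s v v' h1 h2
    exact h.hb (le_antisymm (h1.2 v' h2.1) (h2.2 v h1.1))
  obtain ⟨H, hH⟩ := exists_recNode hM h.hw h.hst (h := fun σ => nd hM (fr σ)) (Y := q) hfq
    (R := fun τ β y z => ∃ n y', Len E w τ n ∧ Child E w y y' β ∧ NxLM E w S B X g q c n y' z)
    (by
      unfold Dfn4
      repeat' first
        | apply Dfn.comp3 dfn_len | apply Dfn.comp4 dfn_child
        | apply Dfn.comp3 (dfn_nxLM w S B X g q c)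
        | assumption | exact CMap.id | apply CMap.fst | apply CMap.snd | exact CMap.const _
        | apply Dfn.mem | apply Dfn.eq | apply Dfn.not | apply Dfn.and | apply Dfn.or
        | apply Dfn.iff | apply Dfn.imp | refine Dfn.ex ?_ | refine Dfn.all ?_
        | refine Dfn.exu ?_ | exact Dfn.const _)
    (by
      intro σ β z
      constructor
      · rintro ⟨n, y', h1, h2, h3⟩
        rw [len_iff hM h.hw h.hst] at h1
        obtain ⟨s, e1, rfl⟩ := h1
        rw [nd_inj hM] at e1
        subst e1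
        rw [child_iff hM h.hw h.hst] at h2
        obtain ⟨s', β', e2, rfl, e3⟩ := h2
        rw [nd_inj hM] at e2
        subst e2
        rw [bt_inj hM] at e3
        subst e3
        rw [h.nxLM_iff hinj hq hf] at h3
        obtain ⟨v, rfl, hv⟩ := h3
        rw [huniq _ _ _ _ hv (hfrL β σ)]
      · rintro rfl
        refine ⟨nu hM σ.length, nd hM (β :: fr σ), ?_, ?_, ?_⟩
        · rw [len_iff hM h.hw h.hst]
          exact ⟨σ, rfl, rfl⟩
        · rw [child_iff hM h.hw h.hst]
          exact ⟨fr σ, β, rfl, rfl, rfl⟩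
        · rw [h.nxLM_iff hinj hq hf]
          exact ⟨fr (β :: σ), rfl, hfrL β σ⟩)
  obtain ⟨r, hr⟩ := sep hM (D := fun x => ∃ σ v, Has E H [σ, v] ∧ Sub E x v)
    (by
      unfold Dfn1
      repeat' first
        | apply Dfn.comp3 dfn_has2 | apply Dfn.comp2 dfn_sub
        | assumption | exact CMap.id | apply CMap.fst | apply CMap.snd | exact CMap.const _
        | apply Dfn.mem | apply Dfn.eq | apply Dfn.not | apply Dfn.and | apply Dfn.or
        | apply Dfn.iff | apply Dfn.imp | refine Dfn.ex ?_ | refine Dfn.all ?_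
        | refine Dfn.exu ?_ | exact Dfn.const _) q
  have htr : tr hM r = {s | ∃ σ, s <:+ fr σ} := by
    ext s
    show E (nd hM s) r ↔ ∃ σ, s <:+ fr σ
    rw [hr]
    constructor
    · rintro ⟨-, σ', v', h1, h2⟩
      rw [hH] at h1
      obtain ⟨σ, -, rfl⟩ := h1
      exact ⟨σ, (sub_nd hM).1 h2⟩
    · rintro ⟨σ, h1⟩
      refine ⟨fusion_subset hperf hs hfr ⟨σ, h1⟩, nd hM σ, nd hM (fr σ), ?_, (sub_nd hM).2 h1⟩
      rw [hH]
      exact ⟨σ, rfl, rfl⟩
  have hrnod : ∀ x, E x r → ∃ s, x = nd hM s := fun x hx => hnod x ((hr x).1 hx).1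
  refine ⟨r, ?_, fun x hx => ((hr x).1 hx).1, ?_, ?_⟩
  · refine h.mem_S hrnod ?_
    rw [htr]
    exact perf_fusion hperf hs hfr
  · rintro T hTS ⟨x, hx, hxX⟩
    obtain ⟨y, hy⟩ := fun_ex hg hxX
    obtain ⟨n, rfl⟩ := (mem_w hM h.hw h.hst).1 (has_dom hM hg hy).2
    have hTT : TT hM S B X g n = tr hM T := h.TT_eq hinj hTS hx hxX hy
    rw [settle_iff hM h.hw h.hst hnod hrnod, htr, ← hTT]
    exact settle_fusion hperf hs hfr hT n
  · rw [codeM_iff hM h.hw h.hst hrnod hf]
    intro n
    obtain ⟨K, hK⟩ := code_fusion hperf hs hfr n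
    refine ⟨K, fun v _ hv1 hv2 => hK v hv1 ?_⟩
    rw [htr] at hv2
    exact hv2

end Pool.Agent.SCG
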