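import Pool.Agent.SCG.G4

/-! [SCG-G5] Density of the good conditions. -/

set_option linter.unusedVariables false
set_option linter.unusedTactic false
set_option linter.unreachableTactic false

namespace Pool.Agent.SCG

open SetModel MP63050e Pool.Agent.SM

universe u

variable {M : Type u} {E : M → M → Prop} {hM : IsModelZF E} {w S B : M} {b : List Bool → ℕ}

/-- `q` has a code `x ⊆ ω` (`exists_code`), which belongs to some `X = C(a)`; apply `exists_thin`. -/
theorem Sys.exists_gd (h : Sys hM w S B b) {C k Y q c : M} (hC : IsFun E C k Y)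
    (hcount : ∀ a X, Has E C [a, X] → Injects E X w)
    (hcov : ∀ x, Sub E x w → ∃ a X, Has E C [a, X] ∧ E x X) (hq : E q S)
    (hc : IsFun E c w (nu hM 2)) :
    ∃ a r, E a k ∧ E r S ∧ Sub E r q ∧ Gd E w S B C a r c := by
  obtain ⟨x, hx1, hx2⟩ := h.exists_code (h.nodes hq)
  obtain ⟨a, X, haX, hxX⟩ := hcov x hx1
  obtain ⟨r, hr1, hr2, hr3, hr4⟩ := h.exists_thin hq (hcount a X haX) hc
  exact ⟨a, r, (has_dom hM hC haX).1, hr1, hr2, X, q, haX, hq, ⟨x, hx2, hxX⟩, hr2, hr3, hr4⟩

end Pool.Agent.SCG
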