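import Pool.Agent.SCG.Form

/-! The collapse in terms of generic filters. -/

set_option linter.unusedVariables false
set_option linter.unusedTactic false
set_option linter.unreachableTactic false

namespace Pool.Agent.SCG

open SetModel MP63050e Pool.Agent.SM

universe u

variable {M : Type u}

/-- `G ⊆ S` is an `M`-generic filter of the forcing `(S, ⊆)`: a filter which meets each dense
subset `D ∈ M` of `S`. -/
structure IsGeneric (E : M → M → Prop) (S : M) (G : M → Prop) : Prop where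
  sub : ∀ q, G q → E q S
  up : ∀ q r, G q → E r S → Sub E q r → G r
  dir : ∀ q r, G q → G r → ∃ s, G s ∧ Sub E s q ∧ Sub E s r
  gen : ∀ D, (∀ q, E q D → E q S) → (∀ q, E q S → ∃ r, E r D ∧ Sub E r q) → ∃ q, G q ∧ E q D

/-- The evaluation `N_G` of `N` by `G`: the pair `(a, n)` belongs to it if `(q, a, n) ∈ N` for some
`q ∈ G`. -/
def Val (E : M → M → Prop) (N : M) (G : M → Prop) (a n : M) : Prop := ∃ q, G q ∧ Has E N [q, a, n]

/-- Some `N ∈ M` is evaluated by every generic filter to an injective function from `k` to `w`. -/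
def GenCollapses (E : M → M → Prop) (w k S : M) : Prop :=
  ∃ N : M, ∀ G, IsGeneric E S G →
    (∀ a n, Val E N G a n → E a k ∧ E n w) ∧ (∀ a, E a k → ∃ n, Val E N G a n) ∧
    ∀ a a' n n', Val E N G a n → Val E N G a' n' → (a = a' ↔ n = n')

variable {E : M → M → Prop}

theorem Collapses.gen (hM : IsModelZF E) {w k S : M} (h : Collapses E w k S) :
    GenCollapses E w k S := by
  obtain ⟨N, h1, h2, h3⟩ := h
  refine ⟨N, fun G hG => ⟨?_, ?_, ?_⟩⟩
  · rintro a n ⟨q, -, hq⟩
    exact (h1 q a n hq).2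
  · intro a ha
    obtain ⟨D, hD⟩ := sep hM (D := fun q => ∃ n, Has E N [q, a, n]) (by
      unfold Dfn1
      refine Dfn.ex ?_
      apply Dfn.comp4 dfn_has3
      repeat' first
        | exact CMap.const _ | exact CMap.id | apply CMap.snd | apply CMap.fst) S
    obtain ⟨q, hq, hqD⟩ := hG.gen D (fun q hq => ((hD q).1 hq).1) (fun q hq => by
      obtain ⟨q', n, hs, hn⟩ := h2 q a hq ha
      exact ⟨q', (hD q').2 ⟨(h1 _ _ _ hn).1, n, hn⟩, hs⟩)
    obtain ⟨-, n, hn⟩ := (hD q).1 hqD
    exact ⟨n, q, hq, hn⟩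
  · rintro a a' n n' ⟨q, hq, hn⟩ ⟨q', hq', hn'⟩
    obtain ⟨r, hr, hrq, hrq'⟩ := hG.dir q q' hq hq'
    exact h3 r q q' a a' n n' (hG.sub r hr) hrq hrq' hn hn'

end Pool.Agent.SCG
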