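import Pool.Agent.SCG.Form

/-! [SCG-O1] Ordinals. -/

set_option linter.unusedVariables false
set_option linter.unusedTactic false
set_option linter.unreachableTactic false

namespace Pool.Agent.SCG

open SetModel MP63050e Pool.Agent.SM

universe u

variable {M : Type u} {E : M → M → Prop}

/-- Minimal elements of definable classes: `sep` and `hM.foundation`. -/
theorem exists_min (hM : IsModelZF E) {D : M → Prop} (hD : Dfn1 E D) {k : M}
    (h : ∃ a, E a k ∧ D a) : ∃ a, E a k ∧ D a ∧ ∀ a', E a' a → E a' k → ¬ D a' := by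
  obtain ⟨y, hy⟩ := sep hM hD k
  obtain ⟨a, ha, haD⟩ := h
  obtain ⟨m, hm, hm2⟩ := hM.foundation y ⟨a, (hy a).2 ⟨ha, haD⟩⟩
  obtain ⟨hmk, hmD⟩ := (hy m).1 hm
  exact ⟨m, hmk, hmD, fun a' h1 h2 h3 => hm2 a' h1 ((hy a').2 ⟨h2, h3⟩)⟩

/-- An element of an ordinal is an ordinal. -/
theorem ord_mem {h a : M} (hh : IsOrd E h) (ha : E a h) : IsOrd E a :=
  ⟨hh.2 a ha, fun y hy => hh.2 y (hh.1 a y ha hy)⟩

/-- The elements of an ordinal are linearly ordered by `E`. Standard proof: suppose not; take a
minimal `a ∈ h` for which some `b ∈ h` is incomparable with `a` (`exists_min`), then a minimal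
`b ∈ h` incomparable with `a`; show `a = b` by `ext`: `z ∈ a` is comparable with `b` by the
minimality of `a`, and `z = b` or `b ∈ z` would give `b ∈ a` (`a` is transitive); so `z ∈ b`. If `z ∈ b`,
then `z` is comparable with `a` by the minimality of `b`, and `z = a` or `a ∈ z` would give `a ∈ b`. -/
theorem ord_lin (hM : IsModelZF E) {h a b : M} (hh : IsOrd E h) (ha : E a h) (hb : E b h) :
    E a b ∨ a = b ∨ E b a := by
  by_contra hcon
  -- the class of all `a` for which some `b ∈ h` is incomparable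
  have hD : Dfn1 E (fun a => ∃ b, E b h ∧ ¬ (E a b ∨ a = b ∨ E b a)) := by
    unfold Dfn1
    repeat' first
      | assumption | exact CMap.id | apply CMap.fst | apply CMap.snd | exact CMap.const _
      | apply Dfn.mem | apply Dfn.eq | apply Dfn.not | apply Dfn.and | apply Dfn.or
      | apply Dfn.iff | apply Dfn.imp | refine Dfn.ex ?_ | refine Dfn.all ?_
      | refine Dfn.exu ?_ | exact Dfn.const _
  obtain ⟨a, ha, ⟨b, hb, hab⟩, hmin⟩ := exists_min hM hD (k := h) ⟨a, ha, b, hb, hcon⟩
  have hD' : Dfn1 E (fun b => ¬ (E a b ∨ a = b ∨ E b a)) := by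
    unfold Dfn1
    repeat' first
      | assumption | exact CMap.id | apply CMap.fst | apply CMap.snd | exact CMap.const _
      | apply Dfn.mem | apply Dfn.eq | apply Dfn.not | apply Dfn.and | apply Dfn.or
      | apply Dfn.iff | apply Dfn.imp | refine Dfn.ex ?_ | refine Dfn.all ?_
      | refine Dfn.exu ?_ | exact Dfn.const _
  obtain ⟨b, hb, hab, hminb⟩ := exists_min hM hD' (k := h) ⟨b, hb, hab⟩
  refine hab (Or.inr (Or.inl (ext hM fun z => ⟨fun hz => ?_, fun hz => ?_⟩)))
  · have hzh := hh.1 a z ha hz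
    by_contra hzb
    refine hmin z hz hzh ⟨b, hb, ?_⟩
    rintro (h1 | h1 | h1)
    · exact hzb h1
    · subst h1
      exact hab (Or.inr (Or.inr hz))
    · exact hab (Or.inr (Or.inr (hh.2 a ha z b hz h1)))
  · have hzh := hh.1 b z hb hz
    by_contra hza
    refine hminb z hz hzh ?_
    rintro (h1 | h1 | h1)
    · exact hab (Or.inl (hh.2 b hb z a hz h1))
    · subst h1
      exact hab (Or.inl hz)
    · exact hza h1

end Pool.Agent.SCG
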