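import Pool.Agent.SCG.Form

/-! [SCG-Z1] Coding injections `k → ω` by functions `ω → 2`. -/

set_option linter.unusedVariables false
set_option linter.unusedTactic false
set_option linter.unreachableTactic false

namespace Pool.Agent.SCG

open SetModel MP63050e Pool.Agent.SM

universe u

variable {M : Type u} {E : M → M → Prop}

/-- The pair of numbers coded by `n` is in the order relation transported by `f`. -/
def z1_Q (E : M → M → Prop) (P f n : M) : Prop :=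
  ∃ i j, Has E P [i, j, n] ∧ ∃ a b, Has E f [a, i] ∧ Has E f [b, j] ∧ (E a b ∨ a = b)

theorem z1_dfn (P f : M) : Dfn2 E (fun n y => (IsNum E 1 y ∧ z1_Q E P f n) ∨
    (IsNum E 0 y ∧ ¬ z1_Q E P f n)) := by
  unfold Dfn2 z1_Q
  repeat' first
    | apply Dfn.comp1 (dfn_isNum _) | apply Dfn.comp3 dfn_has2 | apply Dfn.comp4 dfn_has3
    | assumption | exact CMap.id | apply CMap.fst | apply CMap.snd | exact CMap.const _
    | apply Dfn.mem | apply Dfn.eq | apply Dfn.not | apply Dfn.and | apply Dfn.or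
    | apply Dfn.iff | apply Dfn.imp | refine Dfn.ex ?_ | refine Dfn.all ?_
    | refine Dfn.exu ?_ | exact Dfn.const _

/-- The code exists: `exists_fun` with `A = w`, `C = nu 2` and
`R n y := (IsNum E 1 y ∧ Q n) ∨ (IsNum E 0 y ∧ ¬ Q n)`, where
`Q n := ∃ i j, Has E P [i, j, n] ∧ ∃ a b, Has E f [a, i] ∧ Has E f [b, j] ∧ (E a b ∨ a = b)`;
`p` is injective, so the pair `(i, j)` is determined by `n`. -/
theorem exists_ZC (hM : IsModelZF E) {w P k f : M} (hw : IsOmega E w)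
    (hst : ∀ x, E x w → ∃ n, IsNum E n x) (hmem : ∀ n, E (nu hM n) w) {p : ℕ → ℕ → ℕ}
    (hp : ∀ i j i' j', p i j = p i' j' → i = i' ∧ j = j')
    (hP : ∀ x y z, Has E P [x, y, z] ↔ ∃ i j, x = nu hM i ∧ y = nu hM j ∧ z = nu hM (p i j))
    (hf : IsFun E f k w) (hinj : ∀ a a' i, Has E f [a, i] → Has E f [a', i] → a = a') :
    ∃ c, IsFun E c w (nu hM 2) ∧ ZC E w P c k f := by
  have hR := z1_dfn (E := E) P f
  have h01 : nu hM 1 ≠ nu hM 0 := by
    intro h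
    have := (nu_inj hM).1 h
    omega
  obtain ⟨c, hc1, hc2⟩ := exists_fun hM hR w (nu hM 2) (by
    intro n _
    by_cases hQ : z1_Q E P f n
    · refine ⟨nu hM 1, ⟨nu_mem_nu hM (by norm_num), Or.inl ⟨(isNum_iff hM).2 rfl, hQ⟩⟩, ?_⟩
      rintro y ⟨-, ⟨h1, -⟩ | ⟨-, h2⟩⟩
      · exact (isNum_iff hM).1 h1
      · exact absurd hQ h2
    · refine ⟨nu hM 0, ⟨nu_mem_nu hM (by norm_num), Or.inr ⟨(isNum_iff hM).2 rfl, hQ⟩⟩, ?_⟩
      rintro y ⟨-, ⟨-, h2⟩ | ⟨h1, -⟩⟩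
      · exact absurd h2 hQ
      · exact (isNum_iff hM).1 h1)
  refine ⟨c, hc1, ⟨nu hM 2, (isNum_iff hM).2 rfl, hc1⟩, hf, hinj, ?_⟩
  intro i j n hijn
  constructor
  · rintro ⟨o, ho, hno⟩
    rw [isNum_iff hM] at ho
    subst ho
    obtain ⟨-, -, ⟨-, i', j', hP', hab⟩ | ⟨h1, -⟩⟩ := (hc2 _ _).1 hno
    · obtain ⟨i0, j0, rfl, rfl, rfl⟩ := (hP _ _ _).1 hijn
      obtain ⟨i1, j1, rfl, rfl, h3⟩ := (hP _ _ _).1 hP'
      obtain ⟨rfl, rfl⟩ := hp _ _ _ _ ((nu_inj hM).1 h3)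
      exact hab
    · exact absurd ((isNum_iff hM).1 h1) h01
  · intro hab
    refine ⟨nu hM 1, (isNum_iff hM).2 rfl, (hc2 _ _).2 ⟨?_, nu_mem_nu hM (by norm_num), Or.inl
      ⟨(isNum_iff hM).2 rfl, i, j, hijn, hab⟩⟩⟩
    obtain ⟨i0, j0, rfl, rfl, rfl⟩ := (hP _ _ _).1 hijn
    exact hmem _

end Pool.Agent.SCG
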