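import Pool.Agent.SCG.Form

/-! [SCG-Z2] The code determines the injection. -/

set_option linter.unusedVariables false
set_option linter.unusedTactic false
set_option linter.unreachableTactic false

namespace Pool.Agent.SCG

open SetModel MP63050e Pool.Agent.SM

universe u

variable {M : Type u} {E : M → M → Prop}

theorem z2_code (hM : IsModelZF E) {w P k c f f' : M} (hst : ∀ x, E x w → ∃ n, IsNum E n x)
    {p : ℕ → ℕ → ℕ}
    (hP : ∀ x y z, Has E P [x, y, z] ↔ ∃ i j, x = nu hM i ∧ y = nu hM j ∧ z = nu hM (p i j))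
    (h : ZC E w P c k f) (h' : ZC E w P c k f') {i j : M} (hi : E i w) (hj : E j w)
    (hc : ∃ a b, Has E f [a, i] ∧ Has E f [b, j] ∧ (E a b ∨ a = b)) :
    ∃ a b, Has E f' [a, i] ∧ Has E f' [b, j] ∧ (E a b ∨ a = b) := by
  obtain ⟨m, hm⟩ := hst i hi
  obtain ⟨n, hn⟩ := hst j hj
  rw [isNum_iff hM] at hm hn
  have hp : Has E P [i, j, nu hM (p m n)] := (hP _ _ _).2 ⟨m, n, hm, hn, rfl⟩
  exact (h'.2.2.2 i j _ hp).1 ((h.2.2.2 i j _ hp).2 hc)

theorem z2_sub (hM : IsModelZF E) {w P k c f f' : M} (hst : ∀ x, E x w → ∃ n, IsNum E n x)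
    {p : ℕ → ℕ → ℕ}
    (hP : ∀ x y z, Has E P [x, y, z] ↔ ∃ i j, x = nu hM i ∧ y = nu hM j ∧ z = nu hM (p i j))
    (hk : IsTrans E k) (h : ZC E w P c k f) (h' : ZC E w P c k f') {a i : M}
    (hai : Has E f [a, i]) : Has E f' [a, i] := by
  by_contra hcon
  have hf := h.2.1
  have hf' := h'.2.1
  have hinj := h.2.2.1
  have hinj' := h'.2.2.1
  have hD : Dfn1 E (fun a => ∃ i, Has E f [a, i] ∧ ¬ Has E f' [a, i]) := by
    unfold Dfn1
    repeat' first
      | apply Dfn.comp3 dfn_has2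
      | assumption | exact CMap.id | apply CMap.fst | apply CMap.snd | exact CMap.const _
      | apply Dfn.mem | apply Dfn.eq | apply Dfn.not | apply Dfn.and | apply Dfn.or
      | apply Dfn.iff | apply Dfn.imp | refine Dfn.ex ?_ | refine Dfn.all ?_
      | refine Dfn.exu ?_ | exact Dfn.const _
  obtain ⟨y, hy⟩ := sep hM hD k
  obtain ⟨m, hm, hm2⟩ := hM.foundation y
    ⟨a, (hy a).2 ⟨(has_dom hM hf hai).1, i, hai, hcon⟩⟩
  obtain ⟨hmk, i, hmi, hmi'⟩ := (hy m).1 hm
  have hmin : ∀ z, E z m → ∀ j, Has E f [z, j] → Has E f' [z, j] := by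
    intro z hz j hzj
    by_contra hzj'
    exact hm2 z hz ((hy z).2 ⟨hk m z hmk hz, j, hzj, hzj'⟩)
  have hiw := (has_dom hM hf hmi).2
  obtain ⟨a', -, ha', -, -⟩ := z2_code hM hst hP h h' hiw hiw ⟨m, m, hmi, hmi, Or.inr rfl⟩
  have hak' := (has_dom hM hf' ha').1
  have heq : m = a' := by
    refine ext hM fun z => ⟨fun hz => ?_, fun hz => ?_⟩
    · obtain ⟨j, hj⟩ := fun_ex hf (hk m z hmk hz)
      have hj' := hmin z hz j hj
      obtain ⟨z1, a1, h1, h2, h3⟩ := z2_code hM hst hP h h' (has_dom hM hf hj).2 hiw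
        ⟨z, m, hj, hmi, Or.inl hz⟩
      have e1 : z1 = z := hinj' _ _ _ h1 hj'
      have e2 : a1 = a' := hinj' _ _ _ h2 ha'
      subst e1; subst e2
      rcases h3 with h3 | h3
      · exact h3
      · subst h3
        have e3 : j = i := fun_uniq hM hf' hj' ha'
        subst e3
        have e4 : z1 = m := hinj _ _ _ hj hmi
        subst e4
        exact (not_mem_self hM _ hz).elim
    · obtain ⟨j, hj⟩ := fun_ex hf' (hk a' z hak' hz)
      obtain ⟨z1, a1, h1, h2, h3⟩ := z2_code hM hst hP h' h (has_dom hM hf' hj).2 hiw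
        ⟨z, a', hj, ha', Or.inl hz⟩
      have e2 : a1 = m := hinj _ _ _ h2 hmi
      subst e2
      rcases h3 with h3 | h3
      · have e1 : z1 = z := hinj' _ _ _ (hmin z1 h3 j h1) hj
        subst e1
        exact h3
      · subst h3
        have e3 : j = i := fun_uniq hM hf h1 hmi
        subst e3
        have e4 : z = a' := hinj' _ _ _ hj ha'
        subst e4
        exact (not_mem_self hM _ hz).elim
  subst heq
  exact hmi' ha'

/-- The code determines the injection. Prove that for all `a ∈ k` and `i`,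
`Has E f [a, i] → Has E f' [a, i]`: else take by `sep` and `hM.foundation` an `E`-minimal
counterexample `a`, with `Has E f [a, i]`. The pair `(i, i)` is coded, so `Has E f' [a', i]` for some
`a' ∈ k`. Then `a = a'` by `ext`: if `z ∈ a`, then `z ∈ k`, say `Has E f [z, j]`, so `Has E f' [z, j]`
by minimality; the pair `(j, i)` is coded by `f`, so by `f'`: `z ∈ a'` or `z = a'`, and `z = a'` gives
`j = i`, `z = a`, contradiction to `not_mem_self`. If `z ∈ a'`, say `Has E f' [z, j]`, then `(j, i)` is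
coded by `f'`, so by `f`: `Has E f [z', j]` with `z' ∈ a` or `z' = a`; `z' = a` gives `j = i`, `z = a'`,
contradiction; so `z' ∈ a`, `Has E f' [z', j]` by minimality, `z' = z`. Hence `a = a'` and
`Has E f' [a, i]`, a contradiction. By symmetry (or since both are functions on `k`) `f = f'`. -/
theorem ZC_unique (hM : IsModelZF E) {w P k c f f' : M} (hmem : ∀ n, E (nu hM n) w)
    (hst : ∀ x, E x w → ∃ n, IsNum E n x) {p : ℕ → ℕ → ℕ}
    (hP : ∀ x y z, Has E P [x, y, z] ↔ ∃ i j, x = nu hM i ∧ y = nu hM j ∧ z = nu hM (p i j))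
    (hk : IsTrans E k) (h : ZC E w P c k f) (h' : ZC E w P c k f') : f = f' := by
  have key : ∀ g g' : M, ZC E w P c k g → ZC E w P c k g' → ∀ t, E t g → E t g' := by
    intro g g' hg hg' t ht
    obtain ⟨a, i, -, -, hp⟩ := hg.2.1.1 t ht
    rw [isPair_iff hM] at hp
    subst hp
    exact (has2_iff hM).1 (z2_sub hM hst hP hk hg hg' ((has2_iff hM).2 ht))
  exact ext hM fun t => ⟨key f f' h h' t, key f' f h' h t⟩

end Pool.Agent.SCG
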