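import Pool.Agent.SCG.G2
import Pool.Agent.SCG.G5
import Pool.Agent.SCG.Z1
import Pool.Agent.SCG.Z2
import Pool.Agent.SCG.O1
import Pool.Agent.SCG.B1

/-! [SCG-H1] The assumptions for the final argument. -/

set_option linter.unusedVariables false
set_option linter.unusedTactic false
set_option linter.unreachableTactic false

namespace Pool.Agent.SCG

open SetModel MP63050e Pool.Agent.SM

universe u

variable {M : Type u} {E : M → M → Prop} {hM : IsModelZF E} {w S B : M} {b : List Bool → ℕ}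

/-- The assumptions for the final argument. -/
structure Stp (hM : IsModelZF E) (w S B : M) (b : List Bool → ℕ) (k C h Y P L : M)
    (p : ℕ → ℕ → ℕ) : Prop extends Sys hM w S B b where
  hk : IsOmega1 E k
  hh : IsOrd E h
  hC : IsFun E C h Y
  hcount : ∀ a X, Has E C [a, X] → Injects E X w
  hcov : ∀ x, Sub E x w → ∃ a X, Has E C [a, X] ∧ E x X
  hp : ∀ i j i' j', p i j = p i' j' → i = i' ∧ j = j'
  hP : ∀ x y z, Has E P [x, y, z] ↔ ∃ i j, x = nu hM i ∧ y = nu hM j ∧ z = nu hM (p i j)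
  hL : IsFun E L w k
  hLc : ∀ a, E a k → ∃ n b, Has E L [n, b] ∧ E a b

variable {k C h Y P L : M} {p : ℕ → ℕ → ℕ}

/-- [H1a] `(q, a, n)` with `NN`: `a ∈ k` and `n ∈ w`. (`a ∈ k' ∈ k` and `k` is transitive; `n = nu (p ..)`.) -/
theorem Stp.dom (hF : Stp hM w S B b k C h Y P L p) {q a n : M}
    (hN : NN E w S B C P L q a n) : E a k ∧ E n w := by
  obtain ⟨l, k', x, c, f, i, ⟨hl, hak, -⟩, -, -, -, -, hPn⟩ := hN
  obtain ⟨w', -, hord, -⟩ := hF.hk
  refine ⟨hord.1 k' a (has_dom hM hF.hL hl).2 hak, ?_⟩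
  obtain ⟨i', j', -, -, rfl⟩ := (hF.hP l i n).1 hPn
  exact (mem_w hM hF.hw hF.hst).2 ⟨_, rfl⟩

/-- [H1c] Two sets with `IsOmega` are equal, if one of them is standard. -/
theorem omega_unique (hM : IsModelZF E) {w w' : M} (hw : IsOmega E w)
    (hst : ∀ x, E x w → ∃ n, IsNum E n x) (hw' : IsOmega E w') : w' = w := by
  have h1 : ∀ n, E (nu hM n) w' := by
    intro n
    induction n with
    | zero =>
      obtain ⟨e, he, hew⟩ := hw'.2.1
      rw [isEmp_iff hM] at he
      rwa [he] at hew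
    | succ n ih =>
      obtain ⟨y, hy, hs⟩ := hw'.2.2.1 _ ih
      rw [isSucc_iff hM] at hs
      rwa [hs] at hy
  refine ext hM fun z => ⟨fun hz => ?_, fun hz => ?_⟩
  · by_contra hzw
    have hD : Dfn1 E (fun z => ¬ E z w) := by
      unfold Dfn1
      exact Dfn.not (Dfn.mem CMap.id (CMap.const _))
    obtain ⟨a, ha, haw, hmin⟩ := exists_min hM hD ⟨z, hz, hzw⟩
    rcases hw'.2.2.2 a ha with he | ⟨y, hy, hs⟩
    · rw [isEmp_iff hM] at he
      exact haw ((mem_w hM hw hst).2 ⟨0, he⟩)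
    · have hyw : E y w := by
        by_contra hyw
        exact hmin y ((hs y).2 (Or.inr rfl)) hy hyw
      obtain ⟨n, rfl⟩ := (mem_w hM hw hst).1 hyw
      exact haw ((mem_w hM hw hst).2 ⟨n + 1, (isSucc_iff hM).1 hs⟩)
  · obtain ⟨n, rfl⟩ := (mem_w hM hw hst).1 hz
    exact h1 n

end Pool.Agent.SCG
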