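import Pool.Agent.SCG.H1

/-! [SCG-H2] Density. -/

set_option linter.unusedVariables false
set_option linter.unusedTactic false
set_option linter.unreachableTactic false

namespace Pool.Agent.SCG

open SetModel MP63050e Pool.Agent.SM

universe u

variable {M : Type u} {E : M → M → Prop} {hM : IsModelZF E} {w S B : M} {b : List Bool → ℕ}

variable {k C h Y P L : M} {p : ℕ → ℕ → ℕ}

/-- [H1b] Density. Given `q ∈ S` and `a ∈ k`: by `exists_min` (on `w`) there is a least `l` with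
`∃ k', Has E L [l, k'] ∧ E a k'`. As `k' ∈ k = ω₁`, `Injects E k' w` (`hk`; `w` is unique: two sets with
`IsOmega` are equal, see `omega_unique` below), so by `exists_ZC` there are `c, f` with
`ZC E w P c k' f`, and by `exists_gd` there are `x, r` with `x ∈ h`, `r ≤ q` and `Gd E w S B C x r c`.
By `exists_min` (on `h`, `D x := ∃ r, E r S ∧ Sub E r q ∧ GZ E w S B C P x r k'`) take a minimal such
`x`, with `r, c, f`. Then the minimality clause in `NN` holds for `r` (`h` is transitive), and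
`Has E f [a, i]` for some `i ∈ w`, `Has E P [l, i, n]` for some `n`. -/
theorem Stp.dense (hF : Stp hM w S B b k C h Y P L p) {q a : M} (hq : E q S) (ha : E a k) :
    ∃ q' n, E q' S ∧ Sub E q' q ∧ NN E w S B C P L q' a n := by
  obtain ⟨l0, k0, hl0, ha0⟩ := hF.hLc a ha
  obtain ⟨l, hlw, ⟨k', hlk, hak⟩, hlmin⟩ := exists_min hM
    (D := fun l => ∃ k', Has E L [l, k'] ∧ E a k') (k := w)
    (by
      unfold Dfn1
      repeat' first
        | apply Dfn.comp3 dfn_has2
        | assumption | exact CMap.id | apply CMap.fst | apply CMap.snd | exact CMap.const _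
        | apply Dfn.mem | apply Dfn.eq | apply Dfn.not | apply Dfn.and | apply Dfn.or
        | apply Dfn.iff | apply Dfn.imp | refine Dfn.ex ?_ | refine Dfn.all ?_
        | refine Dfn.exu ?_ | exact Dfn.const _)
    ⟨l0, (has_dom hM hF.hL hl0).1, k0, hl0, ha0⟩
  have hk'k : E k' k := (has_dom hM hF.hL hlk).2
  have hleast : LeastL E L l k' a := ⟨hlk, hak, fun l' k'' hl' hL' ha' =>
    hlmin l' hl' (has_dom hM hF.hL hL').1 ⟨k'', hL', ha'⟩⟩
  obtain ⟨w', hw', hnext⟩ := hF.hk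
  have e : w' = w := omega_unique hM hF.hw hF.hst hw'
  rw [e] at hnext
  obtain ⟨f0, hf0, hfi⟩ := hnext.2.1 k' hk'k
  have hinj : ∀ a a' i, Has E f0 [a, i] → Has E f0 [a', i] → a = a' := fun a a' i h1 h2 =>
    hfi a a' i (has_dom hM hf0 h1).1 (has_dom hM hf0 h2).1 h1 h2
  obtain ⟨c0, hc0, hZ0⟩ := exists_ZC hM hF.hw hF.hst
    (fun n => (mem_w hM hF.hw hF.hst).2 ⟨n, rfl⟩) hF.hp hF.hP hf0 hinj
  obtain ⟨x0, r0, hxh0, hr0, hrq0, hG0⟩ := hF.toSys.exists_gd hF.hC hF.hcount hF.hcov hq hc0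
  obtain ⟨x, hxh, ⟨r, hr, hrq, c, f, hG, hZ⟩, hxmin⟩ := exists_min hM
    (D := fun x => ∃ r, E r S ∧ Sub E r q ∧ GZ E w S B C P x r k') (k := h)
    (by
      unfold Dfn1
      repeat' first
        | apply Dfn.comp3 (dfn_GZ w S B C P) | apply Dfn.comp2 dfn_sub
        | assumption | exact CMap.id | apply CMap.fst | apply CMap.snd | exact CMap.const _
        | apply Dfn.mem | apply Dfn.eq | apply Dfn.not | apply Dfn.and | apply Dfn.or
        | apply Dfn.iff | apply Dfn.imp | refine Dfn.ex ?_ | refine Dfn.all ?_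
        | refine Dfn.exu ?_ | exact Dfn.const _)
    ⟨x0, hxh0, r0, hr0, hrq0, c0, f0, hG0, hZ0⟩
  have hfw : IsFun E f k' w := hZ.2.1
  obtain ⟨i, hi⟩ := fun_ex hfw hak
  obtain ⟨i', hi'⟩ := (mem_w hM hF.hw hF.hst).1 (has_dom hM hfw hi).2
  obtain ⟨l', hl'⟩ := (mem_w hM hF.hw hF.hst).1 hlw
  refine ⟨r, nu hM (p l' i'), hr, hrq, l, k', x, c, f, i, hleast, hG, hZ, ?_, hi, ?_⟩
  · intro x' r' hx' hr' hsub hGZ
    exact hxmin x' hx' (hF.hh.1 x x' hxh hx') ⟨r', hr', fun z hz => hrq z (hsub z hz), hGZ⟩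
  · exact (hF.hP _ _ _).2 ⟨l', i', hl', hi', rfl⟩

end Pool.Agent.SCG
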