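import Pool.Agent.SCG.H1

/-! [SCG-H3] Compatibility. -/

set_option linter.unusedVariables false
set_option linter.unusedTactic false
set_option linter.unreachableTactic false

namespace Pool.Agent.SCG

open SetModel MP63050e Pool.Agent.SM

universe u

variable {M : Type u} {E : M → M → Prop} {hM : IsModelZF E} {w S B : M} {b : List Bool → ℕ}

variable {k C h Y P L : M} {p : ℕ → ℕ → ℕ}

private theorem h3_key (hF : Stp hM w S B b k C h Y P L p) {r q q' a a' x x' c c' f f' l k₁ k₁' : M}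
    (hr : E r S) (h1 : Sub E r q) (h2 : Sub E r q') (hL : LeastL E L l k₁ a)
    (hL' : LeastL E L l k₁' a') (hG : Gd E w S B C x q c) (hG' : Gd E w S B C x' q' c')
    (hZ : ZC E w P c k₁ f) (hZ' : ZC E w P c' k₁' f')
    (hm : ∀ x' r, E x' x → E r S → Sub E r q → ¬ GZ E w S B C P x' r k₁)
    (hm' : ∀ x'' r, E x'' x' → E r S → Sub E r q' → ¬ GZ E w S B C P x'' r k₁') : f = f' := by
  obtain rfl : k₁ = k₁' := fun_uniq hM hF.hL hL.1 hL'.1
  have hx : E x h := by
    obtain ⟨X, q0, hX, -⟩ := hG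
    exact (has_dom hM hF.hC hX).1
  have hx' : E x' h := by
    obtain ⟨X, q0, hX, -⟩ := hG'
    exact (has_dom hM hF.hC hX).1
  have hGr := gd_mono hG h1
  have hGr' := gd_mono hG' h2
  obtain rfl : x = x' := by
    rcases ord_lin hM hF.hh hx hx' with hlt | he | hlt
    · exact absurd ⟨c, f, hGr, hZ⟩ (hm' x r hlt hr h2)
    · exact he
    · exact absurd ⟨c', f', hGr', hZ'⟩ (hm x' r hlt hr h1)
  have hcf : IsFun E c w (nu hM 2) := by
    obtain ⟨t, ht, hcf⟩ := hZ.1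
    rw [isNum_iff hM] at ht
    rwa [ht] at hcf
  have hcf' : IsFun E c' w (nu hM 2) := by
    obtain ⟨t, ht, hcf⟩ := hZ'.1
    rw [isNum_iff hM] at ht
    rwa [ht] at hcf
  obtain rfl : c = c' := hF.toSys.gd_unique (fun a X X' h1 h2 => fun_uniq hM hF.hC h1 h2) hr hcf
    hcf' hGr hGr'
  have hk1 : E k₁ k := (has_dom hM hF.hL hL.1).2
  obtain ⟨w₀, -, hord, -⟩ := hF.hk
  exact ZC_unique hM (fun n => (mem_w hM hF.hw hF.hst).2 ⟨n, rfl⟩) hF.hst hF.hP (hord.2 k₁ hk1)
    hZ hZ'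

/-- [H1d] Let `r ∈ S` with `r ⊆ q`, `r ⊆ q'`. Let `l, k₁, x, c, f, i` and `l', k₁', x', c', f', i'` witness
`NN` for `(q, a, n)` and `(q', a', n')`.
If `l = l'` then `k₁ = k₁'` (`L` is a function), `x = x'`: else by `ord_lin` (both are in `h` by `hC`,
`has_dom`), say, `x ∈ x'`; `r ⊆ q` so `Gd .. x r c` (`gd_mono`), `r ⊆ q'`, contradicting the minimality
clause for `q'`. Then `Gd .. x r c` and `Gd .. x r c'` so `c = c'` (`gd_unique`), `f = f'` (`ZC_unique`;
`k₁ ∈ k` is transitive).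
If `a = a'` then `l = l'` (both are least: elements of `w` are comparable, `mem_w`, `nu_mem_iff`), so
`f = f'`, `i = i'`, `n = n'`. If `n = n'` then `l = l'` and `i = i'` by `hP`, `hp`, so `f = f'` and
`a = a'` by the injectivity of `f`. -/
theorem Stp.compat (hF : Stp hM w S B b k C h Y P L p) {r q q' a a' n n' : M} (hr : E r S)
    (h1 : Sub E r q) (h2 : Sub E r q') (hN : NN E w S B C P L q a n)
    (hN' : NN E w S B C P L q' a' n') : a = a' ↔ n = n' := by
  obtain ⟨l, k₁, x, c, f, i, hL, hG, hZ, hm, hf, hP⟩ := hN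
  obtain ⟨l', k₁', x', c', f', i', hL', hG', hZ', hm', hf', hP'⟩ := hN'
  obtain ⟨u, v, rfl, rfl, rfl⟩ := (hF.hP _ _ _).1 hP
  obtain ⟨u', v', rfl, rfl, rfl⟩ := (hF.hP _ _ _).1 hP'
  constructor
  · rintro rfl
    obtain rfl : u = u' := by
      rcases lt_trichotomy u u' with hlt | he | hlt
      · exact absurd hL.2.1 (hL'.2.2 _ _ (nu_mem_nu hM hlt) hL.1)
      · exact he
      · exact absurd hL'.2.1 (hL.2.2 _ _ (nu_mem_nu hM hlt) hL'.1)
    obtain rfl := h3_key hF hr h1 h2 hL hL' hG hG' hZ hZ' hm hm'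
    have e := fun_uniq hM hZ.2.1 hf hf'
    rw [nu_inj hM] at e
    rw [e]
  · intro e
    rw [nu_inj hM] at e
    obtain ⟨rfl, rfl⟩ := hF.hp _ _ _ _ e
    obtain rfl := h3_key hF hr h1 h2 hL hL' hG hG' hZ hZ' hm hm'
    exact hZ.2.2.1 _ _ _ hf hf'

end Pool.Agent.SCG
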