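import Pool.Agent.SCG.H2
import Pool.Agent.SCG.H3

/-! The main theorem. -/

set_option linter.unusedVariables false
set_option linter.unusedTactic false
set_option linter.unreachableTactic false

namespace Pool.Agent.SCG

open SetModel MP63050e Pool.Agent.SM

universe u

variable {M : Type u} {E : M → M → Prop}

/-- Sacks forcing collapses `ω₁`. -/
theorem main (hM : IsModelZF E) {w k S : M} (hw : IsOmega E w)
    (hst : ∀ x, E x w → ∃ n, IsNum E n x) (hk : IsOmega1 E k) (hcof : CountableCof E w k)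
    (hcov : WOUnionOfCountable E w) (hS : IsSacks E w S) : Collapses E w k S := by
  obtain ⟨P, p, hp, hP⟩ := exists_pairing hM hw hst
  obtain ⟨B, b, hb, hB⟩ := exists_numbering hM hw hst hp hP
  obtain ⟨h, C, Y, hh, hC, hcount, hcov⟩ := hcov
  obtain ⟨L, hL, hLc⟩ := hcof
  have hF : Stp hM w S B b k C h Y P L p :=
    ⟨⟨hw, hst, hS, hb, hB⟩, hk, hh, hC, hcount, hcov, hp, hP, hL, hLc⟩
  obtain ⟨D, hD⟩ := exists_prod hM k w
  obtain ⟨D', hD'⟩ := exists_prod hM S D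
  obtain ⟨N, hN⟩ := sep hM (D := fun t => ∃ q s a n, IsPair E t q s ∧ IsPair E s a n ∧
      NN E w S B C P L q a n) (by
    unfold Dfn1
    repeat' first
      | apply Dfn.comp3 dfn_isPair | apply Dfn.comp3 (dfn_NN w S B C P L)
      | assumption | exact CMap.id | apply CMap.fst | apply CMap.snd | exact CMap.const _
      | apply Dfn.and | refine Dfn.ex ?_) D'
  have key : ∀ q a n, Has E N [q, a, n] ↔ E q S ∧ E a k ∧ E n w ∧ NN E w S B C P L q a n := by
    intro q a n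
    rw [has3_iff hM, hN, hD']
    constructor
    · rintro ⟨⟨q', s', hq, hs, he⟩, q'', s'', a'', n'', h1, h2, h3⟩
      rw [isPair_iff hM] at h1 h2
      subst h2
      obtain ⟨rfl, h4⟩ := (pr_inj hM).1 h1
      obtain ⟨rfl, rfl⟩ := (pr_inj hM).1 h4
      obtain ⟨rfl, rfl⟩ := (pr_inj hM).1 he
      obtain ⟨a', n', ha, hn, he⟩ := (hD _).1 hs
      obtain ⟨rfl, rfl⟩ := (pr_inj hM).1 he
      exact ⟨hq, ha, hn, h3⟩
    · rintro ⟨hq, ha, hn, h3⟩
      exact ⟨⟨q, _, hq, (hD _).2 ⟨a, n, ha, hn, rfl⟩, rfl⟩, q, _, a, n, pr_spec hM _ _,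
        pr_spec hM _ _, h3⟩
  refine ⟨N, fun q a n hn => ?_, fun q a hq ha => ?_, fun r q q' a a' n n' hr h1 h2 h3 h4 => ?_⟩
  · obtain ⟨hq, ha, hn, -⟩ := (key q a n).1 hn
    exact ⟨hq, ha, hn⟩
  · obtain ⟨q', n, hq', hs, h5⟩ := hF.dense hq ha
    exact ⟨q', n, hs, (key _ _ _).2 ⟨hq', ha, (hF.dom h5).2, h5⟩⟩
  · exact hF.compat hr h1 h2 ((key _ _ _).1 h3).2.2.2 ((key _ _ _).1 h4).2.2.2

end Pool.Agent.SCG
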