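import Pool.Agent.SCG.Form

/-! [SCG-N1] Nodes as elements of `M`. -/

set_option linter.unusedVariables false
set_option linter.unusedTactic false
set_option linter.unreachableTactic false

namespace Pool.Agent.SCG

open SetModel MP63050e Pool.Agent.SM

universe u

variable {M : Type u} {E : M → M → Prop}

/-- The elements of the node `s`. Induction on `s` with `mem_ins`; for `b :: s` use
`(b :: s).reverse = s.reverse ++ [b]` and `List.getElem?_append`. -/
theorem mem_nd (hM : IsModelZF E) {s : List Bool} {z : M} :
    E z (nd hM s) ↔ ∃ i b, s.reverse[i]? = some b ∧ z = pr E (nu hM i) (bt hM b) := by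
  induction s with
  | nil =>
    simp only [nd, List.reverse_nil, List.getElem?_nil]
    constructor
    · intro h
      exact (emp_spec hM z h).elim
    · rintro ⟨i, b, h, -⟩
      exact (nomatch h)
  | cons c s ih =>
    simp only [nd, mem_ins hM, ih, List.reverse_cons]
    constructor
    · rintro (⟨i, b, h, rfl⟩ | rfl)
      · refine ⟨i, b, ?_, rfl⟩
        have hi : i < s.reverse.length := (List.getElem?_eq_some_iff.1 h).1
        rw [List.getElem?_append_left hi, h]
      · refine ⟨s.length, c, ?_, rfl⟩
        rw [List.getElem?_append_right (by simp)]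
        simp
    · rintro ⟨i, b, h, rfl⟩
      by_cases hi : i < s.reverse.length
      · rw [List.getElem?_append_left hi] at h
        exact Or.inl ⟨i, b, h, rfl⟩
      · right
        rw [List.getElem?_append_right (by omega)] at h
        obtain ⟨h1, h2⟩ := List.getElem?_eq_some_iff.1 h
        simp only [List.length_reverse, List.length_cons, List.length_nil] at h1 hi
        have h3 : i = s.length := by omega
        subst h3
        simp at h2
        rw [h2]

/-- From `mem_nd`, `has2_iff`, `pr_inj`. -/
theorem has_nd (hM : IsModelZF E) {s : List Bool} {x y : M} :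
    Has E (nd hM s) [x, y] ↔ ∃ i b, s.reverse[i]? = some b ∧ x = nu hM i ∧ y = bt hM b := by
  rw [has2_iff hM, mem_nd hM]
  simp only [pr_inj hM]

/-- Inclusion of nodes is the relation of initial segments (suffixes of the lists):
by `mem_nd`, `pr_inj`, `nu_inj`, `bt_inj` the left side says that every entry of `s.reverse` is the
entry of `t.reverse` at the same place, i.e. `s.reverse <+: t.reverse`. -/
theorem sub_nd (hM : IsModelZF E) {s t : List Bool} : Sub E (nd hM s) (nd hM t) ↔ s <:+ t := by
  rw [← List.reverse_prefix]
  constructor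
  · intro h
    rw [List.prefix_iff_getElem?]
    intro i hi
    have h1 : E (pr E (nu hM i) (bt hM s.reverse[i])) (nd hM s) :=
      (mem_nd hM).2 ⟨i, _, List.getElem?_eq_getElem hi, rfl⟩
    obtain ⟨j, b, hj, he⟩ := (mem_nd hM).1 (h _ h1)
    rw [pr_inj hM, nu_inj hM, bt_inj hM] at he
    obtain ⟨rfl, rfl⟩ := he
    exact hj
  · intro h z hz
    obtain ⟨i, b, hi, rfl⟩ := (mem_nd hM).1 hz
    refine (mem_nd hM).2 ⟨i, b, ?_, rfl⟩
    obtain ⟨r, hr⟩ := h
    have hi' : i < s.reverse.length := (List.getElem?_eq_some_iff.1 hi).1
    rw [← hr, List.getElem?_append_left hi', hi]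

/-- From `sub_nd` twice. -/
theorem nd_inj (hM : IsModelZF E) {s t : List Bool} : nd hM s = nd hM t ↔ s = t := by
  constructor
  · intro h
    have h1 : s <:+ t := (sub_nd hM).1 (by rw [h]; exact fun z hz => hz)
    have h2 : t <:+ s := (sub_nd hM).1 (by rw [h]; exact fun z hz => hz)
    exact h1.eq_of_length (le_antisymm h1.length_le h2.length_le)
  · rintro rfl; rfl

end Pool.Agent.SCG
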