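import Pool.Agent.SCG.N1

/-! [SCG-N2] Functions from a numeral to `2` are nodes. -/

set_option linter.unusedVariables false
set_option linter.unusedTactic false
set_option linter.unreachableTactic false

namespace Pool.Agent.SCG

open SetModel MP63050e Pool.Agent.SM

universe u

variable {M : Type u} {E : M → M → Prop}

/-- A function from the numeral `n` to `2` is a node of length `n`, and conversely.
Backward: `mem_nd`, `has_nd`, `mem_nu`, `mem_two`. Forward: induct on `n` generalizing `x`. If `x` is a
function from `nu (n+1)` to `2`, let `bt b` be its value at `nu n` (`fun_ex`, `has_dom`, `mem_two`),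
let `y` be the set of the elements of `x` other than `pr E (nu n) (bt b)` (by `sep`; definability of
`z ≠ c`: `(Dfn.eq CMap.id (CMap.const c)).not`), then `y` is a function from `nu n` to `2`, so
`y = nd s` with `s.length = n`, and `x = nd (b :: s)` by `ext` and `mem_ins`. -/
theorem isFun_nd (hM : IsModelZF E) {n : ℕ} {x : M} :
    IsFun E x (nu hM n) (nu hM 2) ↔ ∃ s : List Bool, s.length = n ∧ x = nd hM s := by
  constructor
  · induction n generalizing x with
    | zero =>
      intro hf
      refine ⟨[], rfl, ?_⟩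
      refine (isEmp_iff hM).1 fun z hz => ?_
      obtain ⟨a, b, ha, -, -⟩ := hf.1 z hz
      exact emp_spec hM a ha
    | succ n ih =>
      intro hf
      obtain ⟨c, hc⟩ := fun_ex hf (nu_mem_nu hM (Nat.lt_succ_self n))
      obtain ⟨b, rfl⟩ := (mem_two hM).1 (has_dom hM hf hc).2
      obtain ⟨y, hy⟩ := sep hM (D := fun z => z ≠ pr E (nu hM n) (bt hM b))
        ((Dfn.eq CMap.id (CMap.const _)).not) x
      have hxy : ∀ a v, Has E y [a, v] ↔ Has E x [a, v] ∧ ¬ (a = nu hM n ∧ v = bt hM b) := by
        intro a v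
        rw [has2_iff hM, has2_iff hM, hy]
        simp only [ne_eq, pr_inj hM]
      have hfy : IsFun E y (nu hM n) (nu hM 2) := by
        refine ⟨fun p hp => ?_, fun a ha => ?_⟩
        · obtain ⟨hp1, hp2⟩ := (hy p).1 hp
          obtain ⟨a, v, ha, hv, hpr⟩ := hf.1 p hp1
          refine ⟨a, v, ?_, hv, hpr⟩
          obtain ⟨m, hm, rfl⟩ := (mem_nu hM).1 ha
          rcases Nat.lt_succ_iff_lt_or_eq.1 hm with h | rfl
          · exact nu_mem_nu hM h
          · exfalso
            rw [isPair_iff hM] at hpr
            subst hpr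
            have h1 : Has E x [nu hM m, v] := (has2_iff hM).2 hp1
            exact hp2 (by rw [fun_uniq hM hf h1 hc])
        · obtain ⟨m, hm, rfl⟩ := (mem_nu hM).1 ha
          obtain ⟨v, hv⟩ := fun_ex hf (nu_mem_nu hM (Nat.lt_succ_of_lt hm))
          refine ⟨v, (hxy _ _).2 ⟨hv, fun h => ?_⟩, fun v' hv' => ?_⟩
          · exact absurd ((nu_inj hM).1 h.1) (by omega)
          · exact fun_uniq hM hf ((hxy _ _).1 hv').1 hv
      obtain ⟨s, hs, hys⟩ := ih hfy
      refine ⟨b :: s, by simp [hs], ?_⟩
      refine ext hM fun z => ?_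
      simp only [nd, mem_ins hM]
      rw [← hys, hs, hy]
      constructor
      · intro hz
        by_cases h : z = pr E (nu hM n) (bt hM b)
        · exact Or.inr h
        · exact Or.inl ⟨hz, h⟩
      · rintro (⟨h, -⟩ | rfl)
        · exact h
        · exact (has2_iff hM).1 hc
  · rintro ⟨s, rfl, rfl⟩
    refine ⟨fun p hp => ?_, fun a ha => ?_⟩
    · obtain ⟨i, b, hi, rfl⟩ := (mem_nd hM).1 hp
      refine ⟨_, _, ?_, (mem_two hM).2 ⟨b, rfl⟩, pr_spec hM _ _⟩
      have h1 : i < s.reverse.length := (List.getElem?_eq_some_iff.1 hi).1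
      rw [List.length_reverse] at h1
      exact nu_mem_nu hM h1
    · obtain ⟨m, hm, rfl⟩ := (mem_nu hM).1 ha
      have h1 : m < s.reverse.length := by rwa [List.length_reverse]
      refine ⟨bt hM s.reverse[m], (has_nd hM).2 ⟨m, _, List.getElem?_eq_getElem h1, rfl, rfl⟩, ?_⟩
      intro v hv
      obtain ⟨i, b, hi, hmi, rfl⟩ := (has_nd hM).1 hv
      rw [nu_inj hM] at hmi
      subst hmi
      rw [List.getElem?_eq_getElem h1] at hi
      rw [Option.some.inj hi]

end Pool.Agent.SCG
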