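import Pool.Agent.SCG.N2

/-! [SCG-N3] The formulas for nodes, lengths and one point extensions. -/

set_option linter.unusedVariables false
set_option linter.unusedTactic false
set_option linter.unreachableTactic false

namespace Pool.Agent.SCG

open SetModel MP63050e Pool.Agent.SM

universe u

variable {M : Type u} {E : M → M → Prop}

/-- From `isFun_nd`, `mem_w`, `isNum_iff`. -/
theorem isNode_iff (hM : IsModelZF E) {w : M} (hw : IsOmega E w)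
    (hst : ∀ x, E x w → ∃ n, IsNum E n x) {x : M} : IsNode E w x ↔ ∃ s, x = nd hM s := by
  constructor
  · rintro ⟨n, t, hn, ht, hf⟩
    obtain ⟨m, rfl⟩ := (mem_w hM hw hst).1 hn
    obtain rfl := (isNum_iff hM).1 ht
    obtain ⟨s, -, hs⟩ := (isFun_nd hM).1 hf
    exact ⟨s, hs⟩
  · rintro ⟨s, rfl⟩
    exact ⟨nu hM s.length, nu hM 2, (mem_w hM hw hst).2 ⟨_, rfl⟩, (isNum_iff hM).2 rfl,
      (isFun_nd hM).2 ⟨s, rfl, rfl⟩⟩

theorem len_iff (hM : IsModelZF E) {w : M} (hw : IsOmega E w)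
    (hst : ∀ x, E x w → ∃ n, IsNum E n x) {x y : M} :
    Len E w x y ↔ ∃ s, x = nd hM s ∧ y = nu hM s.length := by
  constructor
  · rintro ⟨t, hy, ht, hf⟩
    obtain ⟨m, rfl⟩ := (mem_w hM hw hst).1 hy
    obtain rfl := (isNum_iff hM).1 ht
    obtain ⟨s, hs, hx⟩ := (isFun_nd hM).1 hf
    exact ⟨s, hx, by rw [hs]⟩
  · rintro ⟨s, rfl, rfl⟩
    exact ⟨nu hM 2, (mem_w hM hw hst).2 ⟨_, rfl⟩, (isNum_iff hM).2 rfl,
      (isFun_nd hM).2 ⟨s, rfl, rfl⟩⟩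

/-- Use `isFun_nd`, `mem_two`, `isPair_iff`, `mem_ins` and `ext`. -/
theorem child_iff (hM : IsModelZF E) {w : M} (hw : IsOmega E w)
    (hst : ∀ x, E x w → ∃ n, IsNum E n x) {x y z : M} :
    Child E w x y z ↔ ∃ s b, x = nd hM s ∧ y = nd hM (b :: s) ∧ z = bt hM b := by
  constructor
  · rintro ⟨n, t, hn, ht, hz, hf, hy⟩
    obtain ⟨m, rfl⟩ := (mem_w hM hw hst).1 hn
    obtain rfl := (isNum_iff hM).1 ht
    obtain ⟨b, rfl⟩ := (mem_two hM).1 hz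
    obtain ⟨s, rfl, rfl⟩ := (isFun_nd hM).1 hf
    refine ⟨s, b, rfl, ?_, rfl⟩
    refine ext hM fun u => ?_
    rw [hy, nd, mem_ins hM, isPair_iff hM]
  · rintro ⟨s, b, rfl, rfl, rfl⟩
    refine ⟨nu hM s.length, nu hM 2, (mem_w hM hw hst).2 ⟨_, rfl⟩, (isNum_iff hM).2 rfl,
      (mem_two hM).2 ⟨b, rfl⟩, (isFun_nd hM).2 ⟨s, rfl, rfl⟩, fun u => ?_⟩
    rw [nd, mem_ins hM, isPair_iff hM]

/-- From `has_nd`. -/
theorem inDom_iff (hM : IsModelZF E) {s : List Bool} {x : M} :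
    InDom E x (nd hM s) ↔ ∃ k, k < s.length ∧ x = nu hM k := by
  constructor
  · rintro ⟨b, hb⟩
    obtain ⟨i, b', hi, rfl, -⟩ := (has_nd hM).1 hb
    refine ⟨i, ?_, rfl⟩
    have h := (List.getElem?_eq_some_iff.1 hi).1
    simpa using h
  · rintro ⟨k, hk, rfl⟩
    have hk' : k < s.reverse.length := by simpa using hk
    exact ⟨bt hM (s.reverse[k]), (has_nd hM).2 ⟨k, s.reverse[k], List.getElem?_eq_getElem hk',
      rfl, rfl⟩⟩

/-- The set `2^{<ω}` exists: separate (`sep`, `dfn_isNode`) from the power set of `ω × 2`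
(`exists_prod`, `hM.powerset`); `nd hM s ⊆ ω × 2` by `mem_nd`. -/
theorem exists_nodes (hM : IsModelZF E) {w : M} (hw : IsOmega E w)
    (hst : ∀ x, E x w → ∃ n, IsNum E n x) : ∃ W, ∀ x, E x W ↔ ∃ s, x = nd hM s := by
  obtain ⟨D, hD⟩ := exists_prod hM w (nu hM 2)
  obtain ⟨P, hP⟩ := hM.powerset D
  obtain ⟨W, hW⟩ := sep hM (D := fun x => IsNode E w x)
    (by unfold Dfn1; exact Dfn.comp2 dfn_isNode (CMap.const _) CMap.id) P
  refine ⟨W, fun x => ?_⟩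
  rw [hW, isNode_iff hM hw hst]
  constructor
  · exact fun h => h.2
  · rintro ⟨s, rfl⟩
    refine ⟨(hP _).2 fun z hz => ?_, s, rfl⟩
    obtain ⟨i, b, -, rfl⟩ := (mem_nd hM).1 hz
    exact (hD _).2 ⟨_, _, (mem_w hM hw hst).2 ⟨i, rfl⟩, (mem_two hM).2 ⟨b, rfl⟩, rfl⟩

/-- A function from `ω` to `2` comes from a function `ℕ → Bool`. -/
theorem exists_bits (hM : IsModelZF E) {w c : M} (hw : IsOmega E w)
    (hst : ∀ x, E x w → ∃ n, IsNum E n x) (hc : IsFun E c w (nu hM 2)) :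
    ∃ f : ℕ → Bool, ∀ x y, Has E c [x, y] ↔ ∃ n, x = nu hM n ∧ y = bt hM (f n) := by
  have h : ∀ n : ℕ, ∃ b : Bool, Has E c [nu hM n, bt hM b] := fun n => by
    obtain ⟨y, hy⟩ := fun_ex hc ((mem_w hM hw hst).2 ⟨n, rfl⟩)
    obtain ⟨b, rfl⟩ := (mem_two hM).1 (has_dom hM hc hy).2
    exact ⟨b, hy⟩
  choose f hf using h
  refine ⟨f, fun x y => ⟨fun hxy => ?_, ?_⟩⟩
  · obtain ⟨n, rfl⟩ := (mem_w hM hw hst).1 (has_dom hM hc hxy).1
    exact ⟨n, rfl, fun_uniq hM hc hxy (hf n)⟩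
  · rintro ⟨n, rfl, rfl⟩
    exact hf n

end Pool.Agent.SCG
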