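import Pool.Agent.SCG.Base

/-! Numerals and nodes in an ω-model `(M, E)` of ZF. -/

set_option linter.unusedVariables false

namespace Pool.Agent.SCG

open SetModel MP63050e Pool.Agent.SM

universe u

variable {M : Type u} {E : M → M → Prop}

theorem exists_emp (hM : IsModelZF E) : ∃ e, IsEmp E e := by
  obtain ⟨w, ⟨e, he, -⟩, -⟩ := hM.infinity
  exact ⟨e, he⟩

/-- The empty set. -/
noncomputable def emp (hM : IsModelZF E) : M := (exists_emp hM).choose

theorem emp_spec (hM : IsModelZF E) : IsEmp E (emp hM) := (exists_emp hM).choose_spec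

theorem isEmp_iff (hM : IsModelZF E) {x : M} : IsEmp E x ↔ x = emp hM := by
  constructor
  · intro h
    exact ext hM fun z => ⟨fun hz => (h z hz).elim, fun hz => (emp_spec hM z hz).elim⟩
  · rintro rfl; exact emp_spec hM

theorem exists_ins (hM : IsModelZF E) (x a : M) : ∃ y, ∀ z, E z y ↔ E z x ∨ z = a := by
  obtain ⟨s, hs⟩ := hM.pairing a a
  obtain ⟨y, hy⟩ := exists_union2 hM x s
  exact ⟨y, fun z => by rw [hy, hs]; simp⟩

/-- `x ∪ {a}`. -/
noncomputable def ins (hM : IsModelZF E) (x a : M) : M := (exists_ins hM x a).choose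

theorem mem_ins (hM : IsModelZF E) {x a z : M} : E z (ins hM x a) ↔ E z x ∨ z = a :=
  (exists_ins hM x a).choose_spec z

theorem isSucc_iff (hM : IsModelZF E) {y x : M} : IsSucc E y x ↔ y = ins hM x x := by
  constructor
  · intro h
    exact ext hM fun z => (h z).trans (mem_ins hM).symm
  · rintro rfl; exact fun z => mem_ins hM

/-- The numeral `n`. -/
noncomputable def nu (hM : IsModelZF E) : ℕ → M
  | 0 => emp hM
  | n + 1 => ins hM (nu hM n) (nu hM n)

theorem isNum_iff (hM : IsModelZF E) {n : ℕ} {x : M} : IsNum E n x ↔ x = nu hM n := by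
  induction n generalizing x with
  | zero => exact isEmp_iff hM
  | succ n ih =>
    simp only [IsNum, nu, isSucc_iff hM]
    constructor
    · rintro ⟨y, hy, rfl⟩; rw [ih.1 hy]
    · rintro rfl; exact ⟨_, ih.2 rfl, rfl⟩

theorem mem_nu (hM : IsModelZF E) {n : ℕ} {x : M} : E x (nu hM n) ↔ ∃ m, m < n ∧ x = nu hM m := by
  induction n with
  | zero =>
    simp only [nu, Nat.not_lt_zero, false_and, exists_false, iff_false]
    exact emp_spec hM x
  | succ n ih =>
    simp only [nu, mem_ins hM, ih]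
    constructor
    · rintro (⟨m, hm, rfl⟩ | rfl)
      · exact ⟨m, by omega, rfl⟩
      · exact ⟨n, by omega, rfl⟩
    · rintro ⟨m, hm, rfl⟩
      rcases Nat.lt_succ_iff_lt_or_eq.1 hm with h | rfl
      · exact Or.inl ⟨m, h, rfl⟩
      · exact Or.inr rfl

theorem not_mem_self (hM : IsModelZF E) (x : M) : ¬ E x x := by
  intro hx
  obtain ⟨s, hs⟩ := hM.pairing x x
  obtain ⟨y, hy, hy2⟩ := hM.foundation s ⟨x, (hs x).2 (Or.inl rfl)⟩
  have hyx : y = x := by simpa using (hs y).1 hy
  subst hyx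
  exact hy2 y hx hy

theorem nu_mem_nu (hM : IsModelZF E) {m n : ℕ} (h : m < n) : E (nu hM m) (nu hM n) :=
  (mem_nu hM).2 ⟨m, h, rfl⟩

theorem nu_inj (hM : IsModelZF E) {m n : ℕ} : nu hM m = nu hM n ↔ m = n := by
  constructor
  · intro h
    rcases lt_trichotomy m n with h' | h' | h'
    · have := nu_mem_nu hM h'
      rw [h] at this
      exact (not_mem_self hM _ this).elim
    · exact h'
    · have := nu_mem_nu hM h'
      rw [h] at this
      exact (not_mem_self hM _ this).elim
  · rintro rfl; rfl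

theorem nu_mem_iff (hM : IsModelZF E) {m n : ℕ} : E (nu hM m) (nu hM n) ↔ m < n := by
  rw [mem_nu hM]
  constructor
  · rintro ⟨k, hk, h⟩
    rwa [(nu_inj hM).1 h]
  · exact fun h => ⟨m, h, rfl⟩

theorem isSucc_nu (hM : IsModelZF E) {n : ℕ} {x : M} :
    IsSucc E (nu hM n) x ↔ ∃ m, n = m + 1 ∧ x = nu hM m := by
  constructor
  · intro h
    have hx : E x (nu hM n) := (h x).2 (Or.inr rfl)
    obtain ⟨m, hm, rfl⟩ := (mem_nu hM).1 hx
    have : nu hM n = nu hM (m + 1) := (isSucc_iff hM).1 h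
    exact ⟨m, (nu_inj hM).1 this, rfl⟩
  · rintro ⟨m, rfl, rfl⟩
    exact (isSucc_iff hM).2 rfl

theorem succ_nu (hM : IsModelZF E) {n : ℕ} {x : M} : IsSucc E x (nu hM n) ↔ x = nu hM (n + 1) :=
  isSucc_iff hM

theorem mem_w (hM : IsModelZF E) {w : M} (hw : IsOmega E w)
    (hst : ∀ x, E x w → ∃ n, IsNum E n x) {x : M} : E x w ↔ ∃ n, x = nu hM n := by
  constructor
  · intro h
    obtain ⟨n, hn⟩ := hst x h
    exact ⟨n, (isNum_iff hM).1 hn⟩
  · rintro ⟨n, rfl⟩
    induction n with
    | zero =>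
      obtain ⟨e, he, hew⟩ := hw.2.1
      rw [isEmp_iff hM] at he
      rwa [he] at hew
    | succ n ih =>
      obtain ⟨y, hy, hs⟩ := hw.2.2.1 _ ih
      rw [isSucc_iff hM] at hs
      rwa [hs] at hy

/-- The bit `b` as an element of `M`. -/
noncomputable def bt (hM : IsModelZF E) (b : Bool) : M := nu hM b.toNat

theorem bt_inj (hM : IsModelZF E) {b b' : Bool} : bt hM b = bt hM b' ↔ b = b' := by
  rw [bt, bt, nu_inj hM]
  cases b <;> cases b' <;> simp

theorem mem_two (hM : IsModelZF E) {x : M} : E x (nu hM 2) ↔ ∃ b, x = bt hM b := by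
  rw [mem_nu hM]
  constructor
  · rintro ⟨m, hm, rfl⟩
    rcases (by omega : m = 0 ∨ m = 1) with rfl | rfl
    · exact ⟨false, rfl⟩
    · exact ⟨true, rfl⟩
  · rintro ⟨b, rfl⟩
    exact ⟨b.toNat, by cases b <;> simp, rfl⟩

/-- The node `s` as an element of `M`: a function from `s.length` to `2`. The list `s` has its most
recent bit first. -/
noncomputable def nd (hM : IsModelZF E) : List Bool → M
  | [] => emp hM
  | b :: s => ins hM (nd hM s) (pr E (nu hM s.length) (bt hM b))

end Pool.Agent.SCG
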