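import Pool.Agent.SCG.N3

/-! [SCG-R1] Finite sets and recursion along the numerals. -/

set_option linter.unusedVariables false
set_option linter.unusedTactic false
set_option linter.unreachableTactic false

namespace Pool.Agent.SCG

open SetModel MP63050e Pool.Agent.SM

universe u

variable {M : Type u} {E : M → M → Prop}

/-- Every finite set of elements of `M` is an element of `M`: induction with `emp` and `ins`. -/
theorem exists_finite (hM : IsModelZF E) {F : Set M} (hF : F.Finite) :
    ∃ x, ∀ z, E z x ↔ z ∈ F := by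
  induction F, hF using Set.Finite.induction_on with
  | empty =>
    refine ⟨emp hM, fun z => ?_⟩
    simp only [Set.mem_empty_iff_false, iff_false]
    exact emp_spec hM z
  | insert _ _ ih =>
    rename_i a s _ _
    obtain ⟨x, hx⟩ := ih
    refine ⟨ins hM x a, fun z => ?_⟩
    rw [mem_ins hM, hx, Set.mem_insert_iff]
    exact or_comm

/-- Recursion along `ω`: if the step from `h n` to `h (n+1)` is definable (relation `R`), and all
values belong to some `Y`, then the graph of `h` belongs to `M`.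
Proof: separate from `w × Y` with the formula `Q p := ∃ x z, IsPair E p x z ∧ ∃ A, Has E A [x, z] ∧
∀ m y, Has E A [m, y] → (IsEmp E m ∧ y = h 0) ∨ ∃ m' y', IsSucc E m m' ∧ Has E A [m', y'] ∧
R m' y' y`. Soundness: by induction on `n`, `Has E A [nu n, y] → y = h n` (`isSucc_nu`, `isEmp_iff`,
`nu_inj`, `hstep`). Completeness: take for `A` the finite set of the pairs `pr E (nu m) (h m)`,
`m ≤ n` (`exists_finite`). -/
theorem exists_recNum (hM : IsModelZF E) {w : M} (hw : IsOmega E w)
    (hst : ∀ x, E x w → ∃ n, IsNum E n x) {h : ℕ → M} {Y : M} (hY : ∀ n, E (h n) Y)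
    {R : M → M → M → Prop} (hR : Dfn3 E R)
    (hstep : ∀ n z, R (nu hM n) (h n) z ↔ z = h (n + 1)) :
    ∃ H, ∀ x z, Has E H [x, z] ↔ ∃ n, x = nu hM n ∧ z = h n := by
  obtain ⟨H, -, hH⟩ := exists_rel hM (R := fun x z => ∃ A, Has E A [x, z] ∧
    ∀ m y, Has E A [m, y] → (IsEmp E m ∧ y = h 0) ∨
      ∃ m' y', IsSucc E m m' ∧ Has E A [m', y'] ∧ R m' y' y) (by
    unfold Dfn2
    repeat' first
      | apply Dfn.comp3 hR | apply Dfn.comp1 dfn_isEmp | apply Dfn.comp2 dfn_isSucc
      | apply Dfn.comp3 dfn_has2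
      | assumption | exact CMap.id | apply CMap.fst | apply CMap.snd | exact CMap.const _
      | apply Dfn.mem | apply Dfn.eq | apply Dfn.not | apply Dfn.and | apply Dfn.or
      | apply Dfn.iff | apply Dfn.imp | refine Dfn.ex ?_ | refine Dfn.all ?_
      | refine Dfn.exu ?_ | exact Dfn.const _) w Y
  refine ⟨H, fun x z => ?_⟩
  rw [hH]
  constructor
  · rintro ⟨hx, -, A, hA, hcl⟩
    obtain ⟨n, rfl⟩ := (mem_w hM hw hst).1 hx
    refine ⟨n, rfl, ?_⟩
    have key : ∀ n y, Has E A [nu hM n, y] → y = h n := by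
      intro n
      induction n with
      | zero =>
        intro y hy
        rcases hcl _ _ hy with ⟨-, e⟩ | ⟨m', y', hm', -, -⟩
        · exact e
        · obtain ⟨m, hm, -⟩ := (isSucc_nu hM).1 hm'
          omega
      | succ n ih =>
        intro y hy
        rcases hcl _ _ hy with ⟨he, -⟩ | ⟨m', y', hm', hy', hr⟩
        · have h0 : nu hM (n + 1) = nu hM 0 := (isEmp_iff hM).1 he
          have := (nu_inj hM).1 h0
          omega
        · obtain ⟨m, hm, rfl⟩ := (isSucc_nu hM).1 hm'
          obtain rfl : n = m := by omega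
          rw [ih y' hy'] at hr
          exact (hstep n y).1 hr
    exact key n z hA
  · rintro ⟨n, rfl, rfl⟩
    refine ⟨(mem_w hM hw hst).2 ⟨n, rfl⟩, hY n, ?_⟩
    obtain ⟨A, hA⟩ := exists_finite hM (F := (fun m => pr E (nu hM m) (h m)) '' Set.Iic n)
      ((Set.finite_Iic n).image _)
    refine ⟨A, ?_, ?_⟩
    · rw [has2_iff hM, hA]
      exact ⟨n, Set.mem_Iic.2 le_rfl, rfl⟩
    · intro m y hmy
      rw [has2_iff hM, hA] at hmy
      obtain ⟨k, hk, e⟩ := hmy
      obtain ⟨rfl, rfl⟩ := (pr_inj hM).1 e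
      rcases k with _ | k
      · exact Or.inl ⟨emp_spec hM, rfl⟩
      · refine Or.inr ⟨nu hM k, h k, (isSucc_nu hM).2 ⟨k, rfl, rfl⟩, ?_, (hstep k _).2 rfl⟩
        rw [has2_iff hM, hA]
        exact ⟨k, Set.mem_Iic.2 (by have := Set.mem_Iic.1 hk; omega), rfl⟩

end Pool.Agent.SCG
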