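import Pool.Agent.SCG.Form

/-! The standing assumptions. -/

set_option linter.unusedVariables false
set_option linter.unusedTactic false
set_option linter.unreachableTactic false

namespace Pool.Agent.SCG

open SetModel MP63050e Pool.Agent.SM

universe u

variable {M : Type u} {E : M → M → Prop}

/-- Standing assumptions: `w = ω` is standard, `S` is Sacks forcing, `B` numbers the nodes. -/
structure Sys (hM : IsModelZF E) (w S B : M) (b : List Bool → ℕ) : Prop where
  hw : IsOmega E w
  hst : ∀ x, E x w → ∃ n, IsNum E n x
  hS : IsSacks E w S
  hb : Function.Injective b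
  hB : ∀ x z, Has E B [x, z] ↔ ∃ s, x = nd hM s ∧ z = nu hM (b s)

/-- The tree with number `n` in `X` (numbered by `g`), as a set of lists; everything if there is no
such tree. -/
def TT (hM : IsModelZF E) (S B X g : M) (n : ℕ) : Set (List Bool) :=
  {s | ∀ T x, E T S → CodeOf E B T x → E x X → Has E g [x, nu hM n] → E (nd hM s) T}

end Pool.Agent.SCG
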